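import Pool.Agent.J6H36.RB.Chern

set_option autoImplicit false
set_option maxHeartbeats 4000000

/-!
# Blocks in random words
-/

namespace Pool.Agent.J6H36.RB

open Finset

/-- restriction along an injective map -/
noncomputable def resEquiv {A B T : Type} (g : A → B) (hg : Function.Injective g) :
    (B → T) ≃ (A → T) × ({b : B // ¬ b ∈ Set.range g} → T) := by
  classical
  exact (Equiv.piEquivPiSubtypeProd (fun b => b ∈ Set.range g) (fun _ => T)).trans
    (Equiv.prodCongr (Equiv.arrowCongr (Equiv.ofInjective g hg).symm (Equiv.refl T)) (Equiv.refl _))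

theorem resEquiv_fst {A B T : Type} (g : A → B) (hg : Function.Injective g) (w : B → T) :
    (resEquiv g hg w).1 = fun a => w (g a) := by
  funext a
  unfold resEquiv
  simp [Equiv.arrowCongr, Equiv.piEquivPiSubtypeProd, Equiv.ofInjective]

open Classical in
theorem card_res {A B T : Type} [Fintype A] [Fintype B] [Fintype T] (g : A → B)
    (hg : Function.Injective g) (S : Finset (A → T)) :
    ((univ : Finset (B → T)).filter (fun w => (fun a => w (g a)) ∈ S)).card =
      S.card * Fintype.card ({b : B // ¬ b ∈ Set.range g} → T) := by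
  have h1 : ((univ : Finset (B → T)).filter (fun w => (fun a => w (g a)) ∈ S)).card =
      (S ×ˢ (univ : Finset ({b : B // ¬ b ∈ Set.range g} → T))).card := by
    refine Finset.card_equiv (resEquiv g hg) fun w => ?_
    rw [mem_filter, mem_product, resEquiv_fst]
    simp
  rw [h1, card_product, card_univ]

open Classical in
/-- the density of an event which depends on the restriction only -/
theorem dens_res {A B T : Type} [Fintype A] [Fintype B] [Fintype T] [Nonempty T] (g : A → B)
    (hg : Function.Injective g) (S : Finset (A → T)) (x : ℝ)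
    (hS : (S.card : ℝ) ≤ x * (Fintype.card T : ℝ) ^ Fintype.card A) :
    (((univ : Finset (B → T)).filter (fun w => (fun a => w (g a)) ∈ S)).card : ℝ) ≤
      x * (Fintype.card T : ℝ) ^ Fintype.card B := by
  have hT : (0 : ℝ) < Fintype.card T := by exact_mod_cast Fintype.card_pos
  have h1 := card_res (T := T) g hg S
  have h2 := card_res (T := T) g hg univ
  have h3 : ((univ : Finset (B → T)).filter (fun w => (fun a => w (g a)) ∈ (univ : Finset (A → T)))).card =
      Fintype.card (B → T) := by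
    rw [← card_univ]
    congr 1
    ext w
    simp
  rw [h3, card_univ] at h2
  have h4 : ((Fintype.card T : ℝ) ^ Fintype.card B) = (Fintype.card T : ℝ) ^ Fintype.card A *
      (Fintype.card ({b : B // ¬ b ∈ Set.range g} → T) : ℝ) := by
    have h5 : ((Fintype.card (B → T) : ℕ) : ℝ) = ((Fintype.card (A → T) *
      Fintype.card ({b : B // ¬ b ∈ Set.range g} → T) : ℕ) : ℝ) := by rw [h2]
    push_cast [Fintype.card_fun] at h5
    rw [h5, Fintype.card_fun]
    push_cast
    rfl
  rw [h1, h4]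
  push_cast
  rw [← mul_assoc]
  apply mul_le_mul_of_nonneg_right _ (Nat.cast_nonneg _)
  exact hS

/-- the number of the places `i < K` at which the block `D` stands -/
noncomputable def cntB {T : Type} {n : ℕ} (m K : ℕ) (D : Fin m → T) (w : Fin n → T) : ℕ :=
  {i : ℕ | i < K ∧ ∀ (h : Fin m) (hi : i + h < n), w ⟨i + h, hi⟩ = D h}.ncard

/-- the number of the places in one residue class -/
def Qn (m K ρ : ℕ) : ℕ := (K + m - 1 - ρ) / m

theorem lt_Qn {m K ρ q : ℕ} (hm : 1 ≤ m) (hρ : ρ < m) : q < Qn m K ρ ↔ ρ + m * q < K := by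
  unfold Qn
  rw [Nat.lt_iff_add_one_le, Nat.le_div_iff_mul_le hm]
  have e1 : (q + 1) * m = m * q + m := by ring
  rw [e1]
  omega

theorem card_split (m K : ℕ) (hm : 1 ≤ m) (P : ℕ → Prop) [DecidablePred P] :
    ((Finset.range K).filter P).card =
      ∑ ρ ∈ Finset.range m, ((Finset.range (Qn m K ρ)).filter (fun q => P (ρ + m * q))).card := by
  rw [Finset.card_eq_sum_card_fiberwise (f := fun i => i % m) (t := Finset.range m)
    (fun i _ => Finset.mem_coe.2 (Finset.mem_range.2 (Nat.mod_lt _ hm)))]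
  refine Finset.sum_congr rfl fun ρ hρ => ?_
  rw [Finset.mem_range] at hρ
  symm
  refine Finset.card_bij (fun q _ => ρ + m * q) ?_ ?_ ?_
  · intro q hq
    rw [mem_filter, Finset.mem_range, lt_Qn hm hρ] at hq
    rw [mem_filter, mem_filter, Finset.mem_range]
    refine ⟨⟨hq.1, hq.2⟩, ?_⟩
    rw [Nat.add_mul_mod_self_left, Nat.mod_eq_of_lt hρ]
  · intro q _ q' _ h
    have h1 : m * q = m * q' := by omega
    exact Nat.eq_of_mul_eq_mul_left hm h1
  · intro i hi
    rw [mem_filter, mem_filter, Finset.mem_range] at hi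
    obtain ⟨⟨h1, h2⟩, h3⟩ := hi
    have h4 : ρ + m * (i / m) = i := by
      rw [← h3]
      exact Nat.mod_add_div i m
    refine ⟨i / m, ?_, h4⟩
    rw [mem_filter, Finset.mem_range, lt_Qn hm hρ, h4]
    exact ⟨h1, h2⟩

theorem sum_Qn (m K : ℕ) (hm : 1 ≤ m) : ∑ ρ ∈ Finset.range m, Qn m K ρ = K := by
  have h := card_split m K hm (fun _ => True)
  simpa using h.symm

theorem words_dev_set {T : Type} [Fintype T] [Nonempty T] (K : ℕ) (hK : 1 ≤ K) (S : Set T) (a : ℝ)
    (ha : 0 < a) :
    ({w : Fin K → T | a < |(({k : Fin K | w k ∈ S}.ncard : ℕ) : ℝ) -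
      K * (S.ncard / Fintype.card T)|}.ncard : ℝ) ≤
      2 * Real.exp (-(a ^ 2) / (2 * K)) * (Fintype.card T : ℝ) ^ K := by
  classical
  have h := words_dev K hK S.toFinset a ha
  refine le_trans (le_of_eq ?_) h
  rw [← Set.ncard_coe_finset]
  congr 2
  ext w
  rw [mem_coe, mem_filter, Set.mem_setOf_eq]
  have e1 : {k : Fin K | w k ∈ S}.ncard = (univ.filter (fun k => w k ∈ S.toFinset)).card := by
    rw [← Set.ncard_coe_finset]
    congr 1
    ext k
    simp
  have e2 : S.ncard = S.toFinset.card := by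
    rw [← Set.ncard_coe_finset]
    congr 1
    simp
  rw [e1, e2]
  simp

theorem ncard_res {A B T : Type} [Fintype A] [Fintype B] [Fintype T] [Nonempty T] (g : A → B)
    (hg : Function.Injective g) (S : Set (A → T)) (x : ℝ)
    (hS : (S.ncard : ℝ) ≤ x * (Fintype.card T : ℝ) ^ Fintype.card A) :
    ({w : B → T | (fun a => w (g a)) ∈ S}.ncard : ℝ) ≤
      x * (Fintype.card T : ℝ) ^ Fintype.card B := by
  classical
  have e2 : S.ncard = S.toFinset.card := by
    rw [← Set.ncard_coe_finset]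
    congr 1
    simp
  rw [e2] at hS
  have h := dens_res (T := T) g hg S.toFinset x hS
  refine le_trans (le_of_eq ?_) h
  rw [← Set.ncard_coe_finset]
  congr 2
  ext w
  rw [mem_coe, mem_filter, Set.mem_setOf_eq]
  simp

theorem one_class {T : Type} [Fintype T] [Nonempty T] (m K : ℕ) (hm : 1 ≤ m) (D : Fin m → T) (a : ℝ)
    (ha : 0 < a) (ρ : ℕ) (hρ : ρ < m) :
    ({w : Fin (K + m) → T | a <
      |(({q : Fin (Qn m K ρ) | ∀ h : Fin m,
        ∀ hi : ρ + m * q + h < K + m, w ⟨ρ + m * q + h, hi⟩ = D h}.ncard : ℕ) : ℝ) -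
        Qn m K ρ * (1 / (Fintype.card T : ℝ) ^ m)|}.ncard : ℝ) ≤
      2 * Real.exp (-(a ^ 2) / (2 * K)) * (Fintype.card T : ℝ) ^ (K + m) := by
  classical
  have hT : (0 : ℝ) < Fintype.card T := by exact_mod_cast Fintype.card_pos
  rcases Nat.eq_zero_or_pos (Qn m K ρ) with h0 | h0
  · have h1 : {w : Fin (K + m) → T | a <
      |(({q : Fin (Qn m K ρ) | ∀ h : Fin m,
        ∀ hi : ρ + m * q + h < K + m, w ⟨ρ + m * q + h, hi⟩ = D h}.ncard : ℕ) : ℝ) -
        Qn m K ρ * (1 / (Fintype.card T : ℝ) ^ m)|} = ∅ := by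
      apply Set.eq_empty_of_forall_notMem
      intro w hw
      rw [Set.mem_setOf_eq] at hw
      have h2 : {q : Fin (Qn m K ρ) | ∀ h : Fin m,
        ∀ hi : ρ + m * q + h < K + m, w ⟨ρ + m * q + h, hi⟩ = D h} = ∅ := by
        apply Set.eq_empty_of_forall_notMem
        intro q _
        exact absurd q.2 (by omega)
      rw [h2, h0, Set.ncard_empty, Nat.cast_zero, zero_mul, sub_zero, abs_zero] at hw
      exact absurd hw (not_lt.2 ha.le)
    rw [h1, Set.ncard_empty]
    push_cast
    positivity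
  · have hQK : Qn m K ρ ≤ K := by
      have h1 := sum_Qn m K hm
      have h2 := Finset.single_le_sum (f := fun ρ => Qn m K ρ) (fun _ _ => Nat.zero_le _)
        (Finset.mem_range.2 hρ)
      omega
    have hK : 1 ≤ K := by omega
    obtain ⟨Q, hQ⟩ : ∃ Q : ℕ, Q = Qn m K ρ := ⟨_, rfl⟩
    rw [← hQ] at hQK h0 ⊢
    have hlt : ∀ (q : Fin Q) (h : Fin m), ρ + m * q + h < K + m := by
      intro q h
      have h1 : ρ + m * (q : ℕ) < K := (lt_Qn hm hρ).1 (by rw [← hQ]; exact q.2)
      have := h.2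
      omega
    let g : Fin Q × Fin m → Fin (K + m) := fun x => ⟨ρ + m * x.1 + x.2, hlt x.1 x.2⟩
    have hg : Function.Injective g := by
      rintro ⟨q, h⟩ ⟨q', h'⟩ hh
      have h1 : ρ + m * (q : ℕ) + h = ρ + m * (q' : ℕ) + h' := congrArg Fin.val hh
      have h2 : m * (q : ℕ) + h = m * (q' : ℕ) + h' := by omega
      have h3 : (m * (q : ℕ) + h) / m = q := by
        rw [Nat.mul_add_div hm, Nat.div_eq_of_lt h.2, add_zero]
      have h4 : (m * (q' : ℕ) + h') / m = q' := by
        rw [Nat.mul_add_div hm, Nat.div_eq_of_lt h'.2, add_zero]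
      have h5 : (q : ℕ) = q' := by rw [← h3, ← h4, h2]
      have h6 : (h : ℕ) = h' := by
        rw [h5] at h2
        omega
      rw [Prod.mk.injEq]
      exact ⟨Fin.ext h5, Fin.ext h6⟩
    have hdev := words_dev_set (T := Fin m → T) Q h0 {D} a ha
    rw [Set.ncard_singleton, Fintype.card_fun, Fintype.card_fin] at hdev
    obtain ⟨S, hS⟩ : ∃ S : Set (Fin Q × Fin m → T), S = {s | a <
        |(({q : Fin Q | (fun h => s (q, h)) ∈ ({D} : Set (Fin m → T))}.ncard : ℕ) : ℝ) -
        Q * (((1 : ℕ) : ℝ) / ((Fintype.card T ^ m : ℕ) : ℝ))|} := ⟨_, rfl⟩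
    have hSc : (S.ncard : ℝ) ≤ (2 * Real.exp (-(a ^ 2) / (2 * K))) *
        (Fintype.card T : ℝ) ^ Fintype.card (Fin Q × Fin m) := by
      have h1 : S.ncard ≤ {w : Fin Q → Fin m → T | a <
          |(({k : Fin Q | w k ∈ ({D} : Set (Fin m → T))}.ncard : ℕ) : ℝ) -
          Q * (((1 : ℕ) : ℝ) / ((Fintype.card T ^ m : ℕ) : ℝ))|}.ncard := by
        refine Set.ncard_le_ncard_of_injOn (fun s q h => s (q, h)) ?_ ?_ (Set.toFinite _)
        · intro s hs
          rw [hS] at hs
          exact hs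
        · intro s _ s' _ hh
          funext x
          exact congrFun (congrFun hh x.1) x.2
      have h2 : (S.ncard : ℝ) ≤ 2 * Real.exp (-(a ^ 2) / (2 * Q)) *
          ((Fintype.card T ^ m : ℕ) : ℝ) ^ Q :=
        le_trans (Nat.cast_le.2 h1) hdev
      refine h2.trans ?_
      have h3 : (Fintype.card T : ℝ) ^ Fintype.card (Fin Q × Fin m) =
          ((Fintype.card T ^ m : ℕ) : ℝ) ^ Q := by
        rw [Fintype.card_prod, Fintype.card_fin, Fintype.card_fin]
        push_cast
        rw [← pow_mul, mul_comm]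
      rw [h3]
      have hQR : (0 : ℝ) < Q := by exact_mod_cast h0
      have hQKR : (Q : ℝ) ≤ K := by exact_mod_cast hQK
      have h4 : Real.exp (-(a ^ 2) / (2 * Q)) ≤ Real.exp (-(a ^ 2) / (2 * K)) := by
        apply Real.exp_le_exp.2
        rw [neg_div, neg_div, neg_le_neg_iff]
        apply div_le_div_of_nonneg_left (by positivity) (by positivity)
        linarith
      gcongr
    have hres := ncard_res (T := T) g hg S (2 * Real.exp (-(a ^ 2) / (2 * K))) hSc
    rw [Fintype.card_fin] at hres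
    refine le_trans ?_ hres
    rw [Nat.cast_le]
    refine Set.ncard_le_ncard (fun w hw => ?_) (Set.toFinite _)
    rw [Set.mem_setOf_eq] at hw ⊢
    rw [hS, Set.mem_setOf_eq]
    have h6 : {q : Fin Q | (fun h => (fun a => w (g a)) (q, h)) ∈
        ({D} : Set (Fin m → T))} = {q : Fin Q | ∀ h : Fin m,
        ∀ hi : ρ + m * q + h < K + m, w ⟨ρ + m * q + h, hi⟩ = D h} := by
      ext q
      rw [Set.mem_setOf_eq, Set.mem_setOf_eq, Set.mem_singleton_iff]
      constructor
      · intro hh h hi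
        exact congrFun hh h
      · intro hh
        funext h
        exact hh h (hlt q h)
    rw [h6]
    push_cast
    exact hw

theorem blocks_dev {T : Type} [Fintype T] [Nonempty T] (m K : ℕ) (hm : 1 ≤ m) (D : Fin m → T)
    (a : ℝ) (ha : 0 < a) :
    ({w : Fin (K + m) → T | a <
      |(cntB m K D w : ℝ) - K * (1 / (Fintype.card T : ℝ) ^ m)|}.ncard : ℝ) ≤
      m * (2 * Real.exp (-((a / m) ^ 2) / (2 * K)) * (Fintype.card T : ℝ) ^ (K + m)) := by
  classical
  have hmR : (0 : ℝ) < m := by exact_mod_cast hm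
  obtain ⟨F, hF⟩ : ∃ F : ℕ → Finset (Fin (K + m) → T), F = fun ρ => {w : Fin (K + m) → T | a / m <
      |(({q : Fin (Qn m K ρ) | ∀ h : Fin m,
        ∀ hi : ρ + m * q + h < K + m, w ⟨ρ + m * q + h, hi⟩ = D h}.ncard : ℕ) : ℝ) -
        Qn m K ρ * (1 / (Fintype.card T : ℝ) ^ m)|}.toFinset := ⟨_, rfl⟩
  have hsub : {w : Fin (K + m) → T | a <
      |(cntB m K D w : ℝ) - K * (1 / (Fintype.card T : ℝ) ^ m)|}.toFinset ⊆
      (Finset.range m).biUnion F := by
    intro w hw
    rw [Set.mem_toFinset, Set.mem_setOf_eq] at hw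
    by_contra hcon
    have hall : ∀ ρ ∈ Finset.range m,
        |(({q : Fin (Qn m K ρ) | ∀ h : Fin m,
        ∀ hi : ρ + m * q + h < K + m, w ⟨ρ + m * q + h, hi⟩ = D h}.ncard : ℕ) : ℝ) -
        Qn m K ρ * (1 / (Fintype.card T : ℝ) ^ m)| ≤ a / m := by
      intro ρ hρ
      by_contra h1
      apply hcon
      rw [mem_biUnion]
      refine ⟨ρ, hρ, ?_⟩
      rw [hF]
      simp only
      rw [Set.mem_toFinset, Set.mem_setOf_eq]
      exact not_le.1 h1
    have hcnt : (cntB m K D w : ℝ) = ∑ ρ ∈ Finset.range m,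
        (({q : Fin (Qn m K ρ) | ∀ h : Fin m,
        ∀ hi : ρ + m * q + h < K + m, w ⟨ρ + m * q + h, hi⟩ = D h}.ncard : ℕ) : ℝ) := by
      have h1 : cntB m K D w = ((Finset.range K).filter (fun i => ∀ (h : Fin m) (hi : i + h < K + m),
          w ⟨i + h, hi⟩ = D h)).card := by
        unfold cntB
        rw [← Set.ncard_coe_finset]
        congr 1
        ext i
        rw [mem_coe, mem_filter, Finset.mem_range]
        rfl
      rw [h1, card_split m K hm, Nat.cast_sum]
      refine Finset.sum_congr rfl fun ρ _ => ?_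
      rw [Nat.cast_inj, ← Set.ncard_coe_finset]
      symm
      refine Set.ncard_congr (fun q _ => (q : ℕ)) ?_ ?_ ?_
      · intro q hq
        rw [mem_coe, mem_filter, Finset.mem_range]
        exact ⟨q.2, hq⟩
      · intro q q' _ _ hh
        exact Fin.ext hh
      · intro q hq
        rw [mem_coe, mem_filter, Finset.mem_range] at hq
        exact ⟨⟨q, hq.1⟩, hq.2, rfl⟩
    have hK : (K : ℝ) = ∑ ρ ∈ Finset.range m, (Qn m K ρ : ℝ) := by
      rw [← Nat.cast_sum, sum_Qn m K hm]
    have h2 : |(cntB m K D w : ℝ) - K * (1 / (Fintype.card T : ℝ) ^ m)| ≤ a := by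
      have e3 : (cntB m K D w : ℝ) - K * (1 / (Fintype.card T : ℝ) ^ m) =
          ∑ ρ ∈ Finset.range m, ((({q : Fin (Qn m K ρ) | ∀ h : Fin m,
            ∀ hi : ρ + m * q + h < K + m, w ⟨ρ + m * q + h, hi⟩ = D h}.ncard : ℕ) : ℝ) -
            Qn m K ρ * (1 / (Fintype.card T : ℝ) ^ m)) := by
        rw [Finset.sum_sub_distrib, ← Finset.sum_mul, ← hcnt, ← hK]
      rw [e3]
      refine (Finset.abs_sum_le_sum_abs _ _).trans ((Finset.sum_le_sum hall).trans ?_)
      rw [Finset.sum_const, Finset.card_range, nsmul_eq_mul]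
      field_simp
      exact le_rfl
    linarith [hw]
  have h1 := (card_le_card hsub).trans card_biUnion_le
  rw [← Set.ncard_eq_toFinset_card'] at h1
  have h2 : ({w : Fin (K + m) → T | a <
      |(cntB m K D w : ℝ) - K * (1 / (Fintype.card T : ℝ) ^ m)|}.ncard : ℝ) ≤
      ∑ ρ ∈ Finset.range m, ((F ρ).card : ℝ) := by
    rw [← Nat.cast_sum]
    exact Nat.cast_le.2 h1
  refine h2.trans ?_
  have h3 : ∀ ρ ∈ Finset.range m, ((F ρ).card : ℝ) ≤
      2 * Real.exp (-((a / m) ^ 2) / (2 * K)) * (Fintype.card T : ℝ) ^ (K + m) := by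
    intro ρ hρ
    rw [hF]
    simp only
    rw [← Set.ncard_eq_toFinset_card']
    exact one_class m K hm D (a / m) (by positivity) ρ (Finset.mem_range.1 hρ)
  refine (Finset.sum_le_sum h3).trans ?_
  rw [Finset.sum_const, Finset.card_range, nsmul_eq_mul]

end Pool.Agent.J6H36.RB
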