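import Pool.Agent.J6H36.RB.Unr

set_option autoImplicit false
set_option maxHeartbeats 4000000

/-!
# Both theorems with the same exponent
-/

namespace Pool.Agent.J6H36.RB

open Finset Polynomial Filter

theorem card_Icc_eq (K : ℕ) (p : ℕ → Prop) [DecidablePred p] :
    ((Finset.Icc 1 K).filter p).card = (univ.filter (fun k : Fin K => p ((k : ℕ) + 1))).card := by
  symm
  refine Finset.card_bij (fun k _ => (k : ℕ) + 1) ?_ ?_ ?_
  · intro k hk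
    rw [mem_filter] at hk ⊢
    refine ⟨?_, hk.2⟩
    rw [Finset.mem_Icc]
    have := k.2
    omega
  · intro k _ k' _ h
    exact Fin.ext (by omega)
  · intro k hk
    rw [mem_filter, Finset.mem_Icc] at hk
    refine ⟨⟨k - 1, by omega⟩, ?_, ?_⟩
    · rw [mem_filter]
      refine ⟨mem_univ _, ?_⟩
      have : k - 1 + 1 = k := by omega
      simp only [this]
      exact hk.2
    · simp only
      omega

theorem ncard_Ioc (N L : ℕ) (p : ℕ → Prop) [DecidablePred p] :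
    {n : ℕ | N < n ∧ n ≤ N + L ∧ p n}.ncard = ((Finset.Ioc N (N + L)).filter p).card := by
  rw [← Set.ncard_coe_finset]
  congr 1
  ext n
  rw [mem_coe, mem_filter, Finset.mem_Ioc]
  constructor
  · rintro ⟨h1, h2, h3⟩
    exact ⟨⟨h1, h2⟩, h3⟩
  · rintro ⟨⟨h1, h2⟩, h3⟩
    exact ⟨h1, h2, h3⟩

theorem ncard_Icc (K : ℕ) (p : ℕ → Prop) [DecidablePred p] :
    {k : ℕ | 1 ≤ k ∧ k ≤ K ∧ p k}.ncard = ((Finset.Icc 1 K).filter p).card := by
  rw [← Set.ncard_coe_finset]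
  congr 1
  ext n
  rw [mem_coe, mem_filter, Finset.mem_Icc]
  constructor
  · rintro ⟨h1, h2, h3⟩
    exact ⟨⟨h1, h2⟩, h3⟩
  · rintro ⟨⟨h1, h2⟩, h3⟩
    exact ⟨h1, h2, h3⟩

open Classical in
theorem both : ∃ δ : ℝ, 0 < δ ∧ δ ≤ 1 / 48 ∧ ∀ (r t : ℕ) (α : Fin r → ℝ) (A c0 : ℝ), 1 ≤ A →
    0 < c0 → Typ α A c0 → ∀ f : Fin t → ℤ[X], Indep f →
    (∃ L0 : ℕ, ∀ L : ℕ, L0 ≤ L →
      ∀ N : ℕ, (∀ n ∈ Finset.Ioc N (N + L), ∀ i, 0 < (f i).eval (n : ℤ)) →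
      ∀ K M : ℕ, (K : ℝ) ≤ (Real.log L) ^ δ → 1 ≤ M → (M : ℝ) ≤ Real.exp ((Real.log L) ^ δ) →
      ∀ W : Finset (Fin t → Fin K → Fin r → Fin M),
      |(((Finset.Ioc N (N + L)).filter (fun n => ∃ w ∈ W, ∀ i (k : Fin K) j,
          M * digit (bs f i n) ((k : ℕ) + 2) (α j) / bs f i n = w i k j)).card : ℝ) -
        L * (W.card / (M : ℝ) ^ (t * (K * r)))| ≤ L * Real.exp (-((Real.log L) ^ δ))) ∧
    (∀ ε η : ℝ, 0 < ε → 0 < η → ∃ K₁ L₀ : ℕ, ∀ L : ℕ, L₀ ≤ L → ∀ N : ℕ,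
      (∀ n ∈ Finset.Ioc N (N + L), ∀ i, 0 < (f i).eval (n : ℤ)) →
      (((Finset.Ioc N (N + L)).filter (fun n => ¬ ∀ K : ℕ, K₁ ≤ K → (K : ℝ) ≤ (Real.log L) ^ δ →
        ∀ u v : Fin t → Fin r → ℝ, (∀ i j, 0 ≤ u i j ∧ u i j ≤ v i j ∧ v i j ≤ 1) →
        |(((Finset.Icc 1 K).filter (fun k => ∀ i j, u i j ≤ Int.fract (α j * (bs f i n : ℝ) ^ k) ∧
            Int.fract (α j * (bs f i n : ℝ) ^ k) < v i j)).card : ℝ) -
            K * ∏ i, ∏ j, (v i j - u i j)| ≤ (K : ℝ) ^ (1 / 2 + ε))).card : ℝ) ≤ η * L) := by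
  obtain ⟨δ1, hδ10, hδ11, h1⟩ := tv_digits
  obtain ⟨δ2, hδ20, hδ21, h2⟩ := disc_all
  refine ⟨min δ1 δ2, lt_min hδ10 hδ20, (min_le_left _ _).trans hδ11, ?_⟩
  intro r t α A c0 hA hc0 htyp f hf
  constructor
  · obtain ⟨X0, hX0⟩ := h1 r t α A c0 hA hc0 htyp f hf
    obtain ⟨L0, hL0⟩ := exists_L (max X0 1)
    refine ⟨L0, fun L hL N hpos K M hK hM hMX W => ?_⟩
    have hX := hL0 L hL
    have hX1 : 1 ≤ Real.log L := (le_max_right _ _).trans hX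
    have hmono : (Real.log L) ^ (min δ1 δ2) ≤ (Real.log L) ^ δ1 :=
      Real.rpow_le_rpow_of_exponent_le hX1 (min_le_left _ _)
    have h3 := hX0 L ((le_max_left _ _).trans hX) N (fun n hn i => by
      have := hpos n hn i
      omega) K M (hK.trans hmono) hM (hMX.trans (Real.exp_le_exp.2 hmono)) W
    refine h3.trans ?_
    apply mul_le_mul_of_nonneg_left _ (Nat.cast_nonneg L)
    apply Real.exp_le_exp.2
    linarith
  · intro ε η hε hη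
    obtain ⟨K1, X0, hX0⟩ := h2 r t α A c0 hA hc0 htyp f hf ε η hε hη
    obtain ⟨L0, hL0⟩ := exists_L (max X0 1)
    refine ⟨K1, L0, fun L hL N hpos => ?_⟩
    have hX := hL0 L hL
    have hX1 : 1 ≤ Real.log L := (le_max_right _ _).trans hX
    have hmono : (Real.log L) ^ (min δ1 δ2) ≤ (Real.log L) ^ δ2 :=
      Real.rpow_le_rpow_of_exponent_le hX1 (min_le_right _ _)
    have h3 := hX0 L ((le_max_left _ _).trans hX) N
    refine le_trans ?_ h3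
    have h4 : (Finset.Ioc N (N + L)).filter (fun n => ¬ ∀ K : ℕ, K1 ≤ K →
        (K : ℝ) ≤ (Real.log L) ^ (min δ1 δ2) →
        ∀ u v : Fin t → Fin r → ℝ, (∀ i j, 0 ≤ u i j ∧ u i j ≤ v i j ∧ v i j ≤ 1) →
        |(((Finset.Icc 1 K).filter (fun k => ∀ i j, u i j ≤ Int.fract (α j * (bs f i n : ℝ) ^ k) ∧
            Int.fract (α j * (bs f i n : ℝ) ^ k) < v i j)).card : ℝ) -
            K * ∏ i, ∏ j, (v i j - u i j)| ≤ (K : ℝ) ^ (1 / 2 + ε)) ⊆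
        (Finset.Ioc N (N + L)).filter (fun n => ¬ ∀ K : ℕ, K1 ≤ K → (K : ℝ) ≤ (Real.log L) ^ δ2 →
      ∀ u v : Fin t × Fin r → ℝ, (∀ x, 0 ≤ u x) → (∀ x, u x ≤ v x) → (∀ x, v x ≤ 1) →
      |((univ.filter (fun k : Fin K => ∀ x : Fin t × Fin r,
          u x ≤ Int.fract (yy f α n K (x.1, k, x.2)) ∧
          Int.fract (yy f α n K (x.1, k, x.2)) < v x)).card : ℝ) - K * ∏ x, (v x - u x)| ≤
        (K : ℝ) ^ (1 / 2 + ε)) := by
      intro n hn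
      rw [mem_filter] at hn ⊢
      refine ⟨hn.1, fun hcon => hn.2 ?_⟩
      intro K hK1 hK2 u v huv
      have h5 := hcon K hK1 (hK2.trans hmono) (fun x => u x.1 x.2) (fun x => v x.1 x.2)
        (fun x => (huv x.1 x.2).1) (fun x => (huv x.1 x.2).2.1) (fun x => (huv x.1 x.2).2.2)
      rw [Fintype.prod_prod_type] at h5
      refine le_trans (le_of_eq ?_) h5
      rw [card_Icc_eq]
      have h6 : ∀ i, ((bs f i n : ℕ) : ℝ) = (((f i).eval (n : ℤ) : ℤ) : ℝ) := by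
        intro i
        have h7 := hpos n hn.1 i
        have h8 : ((bs f i n : ℕ) : ℤ) = (f i).eval (n : ℤ) := by
          unfold bs
          exact Int.toNat_of_nonneg (by omega)
        rw [← h8]
        push_cast
        rfl
      have h7 : univ.filter (fun k : Fin K => ∀ i j,
          u i j ≤ Int.fract (α j * (bs f i n : ℝ) ^ ((k : ℕ) + 1)) ∧
          Int.fract (α j * (bs f i n : ℝ) ^ ((k : ℕ) + 1)) < v i j) =
          univ.filter (fun k : Fin K => ∀ x : Fin t × Fin r,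
          u x.1 x.2 ≤ Int.fract (yy f α n K (x.1, k, x.2)) ∧
          Int.fract (yy f α n K (x.1, k, x.2)) < v x.1 x.2) := by
        refine Finset.filter_congr fun k _ => ?_
        constructor
        · intro h x
          have := h x.1 x.2
          rw [h6] at this
          exact this
        · intro h i j
          rw [h6]
          exact h (i, j)
      rw [h7]
    exact_mod_cast card_le_card h4

/-- The same with cardinalities of sets. -/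
theorem both_sets : ∃ δ : ℝ, 0 < δ ∧ ∀ (r t : ℕ) (α : Fin r → ℝ) (A c0 : ℝ), 1 ≤ A →
    0 < c0 → Typ α A c0 → ∀ f : Fin t → ℤ[X], Indep f →
    (∃ L₀ : ℕ, ∀ L : ℕ, L₀ ≤ L →
      ∀ N : ℕ, (∀ n : ℕ, N < n → n ≤ N + L → ∀ i, 0 < (f i).eval (n : ℤ)) →
      ∀ K M : ℕ, (K : ℝ) ≤ (Real.log L) ^ δ → 1 ≤ M → (M : ℝ) ≤ Real.exp ((Real.log L) ^ δ) →
      ∀ W : Finset (Fin t → Fin K → Fin r → Fin M),
      |({n : ℕ | N < n ∧ n ≤ N + L ∧ ∃ w ∈ W, ∀ (i : Fin t) (k : Fin K) (j : Fin r),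
          M * digit (bs f i n) ((k : ℕ) + 2) (α j) / bs f i n = (w i k j : ℕ)}.ncard : ℝ) -
        L * (W.card / (M : ℝ) ^ (t * (K * r)))| ≤ L * Real.exp (-((Real.log L) ^ δ))) ∧
    (∀ ε η : ℝ, 0 < ε → 0 < η → ∃ K₁ L₀ : ℕ, ∀ L : ℕ, L₀ ≤ L → ∀ N : ℕ,
      (∀ n : ℕ, N < n → n ≤ N + L → ∀ i, 0 < (f i).eval (n : ℤ)) →
      ({n : ℕ | N < n ∧ n ≤ N + L ∧ ¬ ∀ K : ℕ, K₁ ≤ K → (K : ℝ) ≤ (Real.log L) ^ δ →
        ∀ u v : Fin t → Fin r → ℝ, (∀ i j, 0 ≤ u i j ∧ u i j ≤ v i j ∧ v i j ≤ 1) →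
        |({k : ℕ | 1 ≤ k ∧ k ≤ K ∧ ∀ i j, u i j ≤ Int.fract (α j * (bs f i n : ℝ) ^ k) ∧
            Int.fract (α j * (bs f i n : ℝ) ^ k) < v i j}.ncard : ℝ) -
            K * ∏ i, ∏ j, (v i j - u i j)| ≤ (K : ℝ) ^ (1 / 2 + ε)}.ncard : ℝ) ≤ η * L) := by
  classical
  obtain ⟨δ, hδ0, _, h⟩ := both
  refine ⟨δ, hδ0, fun r t α A c0 hA hc0 htyp f hf => ?_⟩
  obtain ⟨⟨L0, h1⟩, h2⟩ := h r t α A c0 hA hc0 htyp f hf
  constructor
  · refine ⟨L0, fun L hL N hpos K M hK hM hMX W => ?_⟩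
    rw [ncard_Ioc]
    refine le_trans (le_of_eq ?_) (h1 L hL N (fun n hn i => hpos n (Finset.mem_Ioc.1 hn).1
      (Finset.mem_Ioc.1 hn).2 i) K M hK hM hMX W)
    congr 3
  · intro ε η hε hη
    obtain ⟨K1, L0, h3⟩ := h2 ε η hε hη
    refine ⟨K1, L0, fun L hL N hpos => ?_⟩
    rw [ncard_Ioc]
    simp only [ncard_Icc]
    refine le_trans (le_of_eq ?_) (h3 L hL N (fun n hn i => hpos n (Finset.mem_Ioc.1 hn).1
      (Finset.mem_Ioc.1 hn).2 i))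
    congr 1

end Pool.Agent.J6H36.RB
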