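import Pool.Agent.J6H36.RB.Blk
import Pool.Agent.J6H36.RB.Fin

set_option autoImplicit false
set_option maxHeartbeats 4000000

/-!
# Blocks of digits in almost all bases
-/

namespace Pool.Agent.J6H36.RB

open Finset Polynomial Filter

theorem exp_small (m : ℕ) (hm : 1 ≤ m) (ε : ℝ) (hε : 0 < ε) : ∃ C : ℝ, 0 ≤ C ∧ ∀ K : ℕ, 1 ≤ K →
    Real.exp (-(((K : ℝ) ^ (1 / 2 + ε) / 2 / m) ^ 2) / (2 * K)) ≤ C * ((K : ℝ) ^ 2)⁻¹ := by
  obtain ⟨q, hq⟩ := exists_nat_ge ((2 : ℝ) / (2 * ε))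
  have hmR : (1 : ℝ) ≤ m := by exact_mod_cast hm
  refine ⟨q.factorial * (8 * m ^ 2) ^ q, by positivity, fun K hK => ?_⟩
  have hKR : (1 : ℝ) ≤ K := by exact_mod_cast hK
  have hK0 : (0 : ℝ) < K := by linarith
  set x : ℝ := (K : ℝ) ^ (2 * ε) / (8 * m ^ 2) with hx
  have hx0 : 0 < x := by positivity
  have e1 : -(((K : ℝ) ^ (1 / 2 + ε) / 2 / m) ^ 2) / (2 * K) = -x := by
    have h1 : ((K : ℝ) ^ (1 / 2 + ε)) ^ 2 = K * (K : ℝ) ^ (2 * ε) := by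
      rw [← Real.rpow_natCast, ← Real.rpow_mul hK0.le]
      have : (1 / 2 + ε) * ((2 : ℕ) : ℝ) = 1 + 2 * ε := by push_cast; ring
      rw [this, Real.rpow_add hK0, Real.rpow_one]
    rw [div_pow, div_pow, h1, hx]
    field_simp
    norm_num
  rw [e1]
  have h2 := Real.pow_div_factorial_le_exp x hx0.le q
  have h3 : Real.exp (-x) ≤ q.factorial / x ^ q := by
    rw [Real.exp_neg, ← one_div, div_le_div_iff₀ (Real.exp_pos x) (by positivity)]
    rw [div_le_iff₀ (by positivity)] at h2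
    linarith
  have h4 : (K : ℝ) ^ 2 / (8 * m ^ 2) ^ q ≤ x ^ q := by
    rw [hx, div_pow]
    gcongr
    rw [← Real.rpow_natCast ((K : ℝ) ^ (2 * ε)) q, ← Real.rpow_mul hK0.le,
      ← Real.rpow_natCast (K : ℝ) 2]
    apply Real.rpow_le_rpow_of_exponent_le hKR
    rw [div_le_iff₀ (by linarith)] at hq
    push_cast
    linarith
  refine h3.trans ?_
  rw [← div_eq_mul_inv, div_le_div_iff₀ (by positivity) (by positivity)]
  rw [div_le_iff₀ (by positivity)] at h4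
  have : (0 : ℝ) ≤ (q.factorial : ℝ) := by positivity
  nlinarith

theorem cntB_cast {T : Type} {n : ℕ} (m K : ℕ) (h : K + m ≤ n) (D : Fin m → T) (w : Fin n → T) :
    cntB m K D (fun a : Fin (K + m) => w (Fin.castLE h a)) = cntB m K D w := by
  unfold cntB
  congr 1
  ext i
  constructor
  · rintro ⟨h1, h2⟩
    refine ⟨h1, fun h' hi => ?_⟩
    have h3 := h2 h' (by have := h'.2; omega)
    exact h3
  · rintro ⟨h1, h2⟩
    refine ⟨h1, fun h' hi => ?_⟩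
    have h3 := h2 h' (by omega)
    exact h3

theorem bad_blocks {T : Type} [Fintype T] [Nonempty T] (m : ℕ) (hm : 1 ≤ m) (ε η : ℝ) (hε : 0 < ε)
    (hη : 0 < η) : ∃ K₁ : ℕ, 1 ≤ K₁ ∧ ∀ K' : ℕ,
    ({w : Fin (K' + m) → T | ∃ K : ℕ, K₁ ≤ K ∧ K ≤ K' ∧ ∃ D : Fin m → T,
      (K : ℝ) ^ (1 / 2 + ε) / 2 < |(cntB m K D w : ℝ) - K * (1 / (Fintype.card T : ℝ) ^ m)|}.ncard : ℝ) ≤
      η * (Fintype.card T : ℝ) ^ (K' + m) := by
  classical
  have hT : (0 : ℝ) < Fintype.card T := by exact_mod_cast Fintype.card_pos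
  obtain ⟨C, hC0, hC⟩ := exp_small m hm ε hε
  set q : ℝ := (Fintype.card T : ℝ) ^ m with hq
  obtain ⟨K1, hK1⟩ := exists_nat_ge (q * (m * (2 * C)) * 4 / η)
  refine ⟨K1 + 1, by omega, fun K' => ?_⟩
  obtain ⟨F, hF⟩ : ∃ F : ℕ → (Fin m → T) → Finset (Fin (K' + m) → T), F = fun (K : ℕ) (D : Fin m → T) =>
    {w : Fin (K' + m) → T | (K : ℝ) ^ (1 / 2 + ε) / 2 <
      |(cntB m K D w : ℝ) - K * (1 / (Fintype.card T : ℝ) ^ m)|}.toFinset := ⟨_, rfl⟩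
  have hone : ∀ K ∈ Finset.Ioo K1 (K' + 1), ∀ D : Fin m → T, ((F K D).card : ℝ) ≤
      (m * (2 * (C * ((K : ℝ) ^ 2)⁻¹))) * (Fintype.card T : ℝ) ^ (K' + m) := by
    intro K hK D
    rw [Finset.mem_Ioo] at hK
    have hK1 : 1 ≤ K := by omega
    have hKm : K + m ≤ K' + m := by omega
    have hKR : (1 : ℝ) ≤ K := by exact_mod_cast hK1
    have h1 := blocks_dev (T := T) m K hm D ((K : ℝ) ^ (1 / 2 + ε) / 2) (by positivity)
    obtain ⟨S, hS⟩ : ∃ S : Set (Fin (K + m) → T), S = {w : Fin (K + m) → T |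
      (K : ℝ) ^ (1 / 2 + ε) / 2 < |(cntB m K D w : ℝ) - K * (1 / (Fintype.card T : ℝ) ^ m)|} := ⟨_, rfl⟩
    rw [← hS] at h1
    have h2 : (S.ncard : ℝ) ≤ (m * (2 * (C * ((K : ℝ) ^ 2)⁻¹))) *
        (Fintype.card T : ℝ) ^ Fintype.card (Fin (K + m)) := by
      refine h1.trans ?_
      rw [Fintype.card_fin, ← mul_assoc, ← mul_assoc, ← mul_assoc]
      have := hC K hK1
      gcongr
    have h3 := ncard_res (T := T) (Fin.castLE hKm) (Fin.castLE_injective hKm) S _ h2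
    rw [Fintype.card_fin] at h3
    refine le_trans (le_of_eq ?_) h3
    rw [hF]
    simp only
    rw [← Set.ncard_eq_toFinset_card', hS]
    congr 2
    ext w
    rw [Set.mem_setOf_eq, Set.mem_setOf_eq, Set.mem_setOf_eq, cntB_cast]
  have hsub : {w : Fin (K' + m) → T | ∃ K : ℕ, K1 + 1 ≤ K ∧ K ≤ K' ∧ ∃ D : Fin m → T,
      (K : ℝ) ^ (1 / 2 + ε) / 2 <
        |(cntB m K D w : ℝ) - K * (1 / (Fintype.card T : ℝ) ^ m)|}.toFinset ⊆
      (Finset.Ioo K1 (K' + 1)).biUnion (fun K => univ.biUnion (F K)) := by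
    intro w hw
    rw [Set.mem_toFinset, Set.mem_setOf_eq] at hw
    obtain ⟨K, h1, h2, D, h3⟩ := hw
    rw [mem_biUnion]
    refine ⟨K, Finset.mem_Ioo.2 ⟨by omega, by omega⟩, ?_⟩
    rw [mem_biUnion]
    refine ⟨D, mem_univ _, ?_⟩
    rw [hF]
    simp only
    rw [Set.mem_toFinset]
    exact h3
  have h1 := (card_le_card hsub).trans (card_biUnion_le.trans
    (Finset.sum_le_sum fun K _ => card_biUnion_le))
  rw [← Set.ncard_eq_toFinset_card'] at h1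
  have h2 : ({w : Fin (K' + m) → T | ∃ K : ℕ, K1 + 1 ≤ K ∧ K ≤ K' ∧ ∃ D : Fin m → T,
      (K : ℝ) ^ (1 / 2 + ε) / 2 <
        |(cntB m K D w : ℝ) - K * (1 / (Fintype.card T : ℝ) ^ m)|}.ncard : ℝ) ≤
      ∑ K ∈ Finset.Ioo K1 (K' + 1), ∑ D : Fin m → T, ((F K D).card : ℝ) := by
    have h3 : ((∑ K ∈ Finset.Ioo K1 (K' + 1), ∑ D : Fin m → T, (F K D).card : ℕ) : ℝ) =
        ∑ K ∈ Finset.Ioo K1 (K' + 1), ∑ D : Fin m → T, ((F K D).card : ℝ) := by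
      push_cast
      rfl
    rw [← h3]
    exact Nat.cast_le.2 h1
  refine h2.trans ?_
  have h3 : ∀ K ∈ Finset.Ioo K1 (K' + 1), ∑ D : Fin m → T, ((F K D).card : ℝ) ≤
      (q * (m * (2 * C)) * (Fintype.card T : ℝ) ^ (K' + m)) * ((K : ℝ) ^ 2)⁻¹ := by
    intro K hK
    refine (Finset.sum_le_sum fun D _ => hone K hK D).trans (le_of_eq ?_)
    rw [Finset.sum_const, card_univ, nsmul_eq_mul, Fintype.card_fun, Fintype.card_fin, hq]
    push_cast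
    ring
  refine (Finset.sum_le_sum h3).trans ?_
  rw [← Finset.mul_sum]
  have h4 := sum_Ioo_inv_sq_le (α := ℝ) K1 (K' + 1)
  have hq0 : 0 < q := by positivity
  calc q * (m * (2 * C)) * (Fintype.card T : ℝ) ^ (K' + m) *
      ∑ K ∈ Finset.Ioo K1 (K' + 1), ((K : ℝ) ^ 2)⁻¹
      ≤ q * (m * (2 * C)) * (Fintype.card T : ℝ) ^ (K' + m) * (2 / ((K1 : ℝ) + 1)) := by gcongr
    _ = (q * (m * (2 * C)) * (2 / ((K1 : ℝ) + 1))) * (Fintype.card T : ℝ) ^ (K' + m) := by ring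
    _ ≤ η * (Fintype.card T : ℝ) ^ (K' + m) := by
      apply mul_le_mul_of_nonneg_right _ (by positivity)
      rw [div_le_iff₀ hη] at hK1
      have hK : (0 : ℝ) < (K1 : ℝ) + 1 := by positivity
      rw [← mul_div_assoc, div_le_iff₀ hK]
      have : 0 ≤ q * (m * (2 * C)) := by positivity
      nlinarith

end Pool.Agent.J6H36.RB
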