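import Pool.Agent.J6H36.RB.Blk2

set_option autoImplicit false
set_option maxHeartbeats 4000000

/-!
# Blocks of digits in almost all bases, the theorem
-/

namespace Pool.Agent.J6H36.RB

open Finset Polynomial Filter

theorem shift_count (K : ℕ) (p : ℕ → Prop) :
    |(({k : ℕ | 1 ≤ k ∧ k ≤ K ∧ p k}.ncard : ℕ) : ℝ) - (({i : ℕ | i < K ∧ p (i + 2)}.ncard : ℕ) : ℝ)| ≤ 1 := by
  have fin1 : {k : ℕ | 1 ≤ k ∧ k ≤ K ∧ p k}.Finite :=
    (Set.finite_Icc 1 K).subset fun k hk => ⟨hk.1, hk.2.1⟩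
  have fin2 : {k : ℕ | 2 ≤ k ∧ k ≤ K + 1 ∧ p k}.Finite :=
    (Set.finite_Icc 2 (K + 1)).subset fun k hk => ⟨hk.1, hk.2.1⟩
  have h0 : {i : ℕ | i < K ∧ p (i + 2)}.ncard = {k : ℕ | 2 ≤ k ∧ k ≤ K + 1 ∧ p k}.ncard := by
    refine Set.ncard_congr (fun i _ => i + 2) ?_ ?_ ?_
    · rintro i ⟨h1, h2⟩
      exact ⟨by omega, by omega, h2⟩
    · intro i j _ _ h
      omega
    · rintro k ⟨h1, h2, h3⟩
      refine ⟨k - 2, ⟨by omega, ?_⟩, by omega⟩
      have : k - 2 + 2 = k := by omega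
      rw [this]
      exact h3
  have h1 : {k : ℕ | 1 ≤ k ∧ k ≤ K ∧ p k}.ncard ≤ {k : ℕ | 2 ≤ k ∧ k ≤ K + 1 ∧ p k}.ncard + 1 := by
    refine le_trans (Set.ncard_le_ncard (t := insert 1 {k : ℕ | 2 ≤ k ∧ k ≤ K + 1 ∧ p k}) ?_
      (fin2.insert 1)) (Set.ncard_insert_le _ _)
    rintro k ⟨h1, h2, h3⟩
    rcases Nat.eq_or_lt_of_le h1 with h | h
    · exact Or.inl h.symm
    · exact Or.inr ⟨by omega, by omega, h3⟩
  have h2 : {k : ℕ | 2 ≤ k ∧ k ≤ K + 1 ∧ p k}.ncard ≤ {k : ℕ | 1 ≤ k ∧ k ≤ K ∧ p k}.ncard + 1 := by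
    refine le_trans (Set.ncard_le_ncard (t := insert (K + 1) {k : ℕ | 1 ≤ k ∧ k ≤ K ∧ p k}) ?_
      (fin1.insert (K + 1))) (Set.ncard_insert_le _ _)
    rintro k ⟨h1, h2, h3⟩
    rcases Nat.eq_or_lt_of_le h2 with h | h
    · exact Or.inl h
    · exact Or.inr ⟨by omega, by omega, h3⟩
  rw [h0, abs_le]
  have h3 : ({k : ℕ | 1 ≤ k ∧ k ≤ K ∧ p k}.ncard : ℝ) ≤ {k : ℕ | 2 ≤ k ∧ k ≤ K + 1 ∧ p k}.ncard + 1 := by
    exact_mod_cast h1
  have h4 : ({k : ℕ | 2 ≤ k ∧ k ≤ K + 1 ∧ p k}.ncard : ℝ) ≤ {k : ℕ | 1 ≤ k ∧ k ≤ K ∧ p k}.ncard + 1 := by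
    exact_mod_cast h2
  constructor <;> linarith

/-- In almost all bases the blocks of digit classes have the right frequencies up to the depth. -/
theorem blocks_all : ∃ δ : ℝ, 0 < δ ∧ ∀ (r t : ℕ) (α : Fin r → ℝ) (A c0 : ℝ), 1 ≤ A →
    0 < c0 → Typ α A c0 → ∀ f : Fin t → ℤ[X], Indep f →
    (∃ L₀ : ℕ, ∀ L : ℕ, L₀ ≤ L →
      ∀ N : ℕ, (∀ n : ℕ, N < n → n ≤ N + L → ∀ i, 0 < (f i).eval (n : ℤ)) →
      ∀ K M : ℕ, (K : ℝ) ≤ (Real.log L) ^ δ → 1 ≤ M → (M : ℝ) ≤ Real.exp ((Real.log L) ^ δ) →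
      ∀ W : Finset (Fin t → Fin K → Fin r → Fin M),
      |({n : ℕ | N < n ∧ n ≤ N + L ∧ ∃ w ∈ W, ∀ (i : Fin t) (k : Fin K) (j : Fin r),
          M * digit (bs f i n) ((k : ℕ) + 2) (α j) / bs f i n = (w i k j : ℕ)}.ncard : ℝ) -
        L * (W.card / (M : ℝ) ^ (t * (K * r)))| ≤ L * Real.exp (-((Real.log L) ^ δ))) ∧
    (∀ m M : ℕ, 1 ≤ m → 1 ≤ M → ∀ ε η : ℝ, 0 < ε → 0 < η → ∃ K₁ L₀ : ℕ, ∀ L : ℕ, L₀ ≤ L → ∀ N : ℕ,
      (∀ n : ℕ, N < n → n ≤ N + L → ∀ i, 0 < (f i).eval (n : ℤ)) →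
      ({n : ℕ | N < n ∧ n ≤ N + L ∧ ¬ ∀ K : ℕ, K₁ ≤ K → (K : ℝ) ≤ (Real.log L) ^ δ →
        ∀ D : Fin t → Fin r → Fin m → Fin M,
        |({k : ℕ | 1 ≤ k ∧ k ≤ K ∧ ∀ (i : Fin t) (j : Fin r) (h : Fin m),
            M * digit (bs f i n) (k + h) (α j) / bs f i n = (D i j h : ℕ)}.ncard : ℝ) -
            K * (1 / (M : ℝ) ^ (t * (r * m)))| ≤ (K : ℝ) ^ (1 / 2 + ε)}.ncard : ℝ) ≤ η * L) ∧
    (∀ ε η : ℝ, 0 < ε → 0 < η → ∃ K₁ L₀ : ℕ, ∀ L : ℕ, L₀ ≤ L → ∀ N : ℕ,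
      (∀ n : ℕ, N < n → n ≤ N + L → ∀ i, 0 < (f i).eval (n : ℤ)) →
      ({n : ℕ | N < n ∧ n ≤ N + L ∧ ¬ ∀ K : ℕ, K₁ ≤ K → (K : ℝ) ≤ (Real.log L) ^ δ →
        ∀ u v : Fin t → Fin r → ℝ, (∀ i j, 0 ≤ u i j ∧ u i j ≤ v i j ∧ v i j ≤ 1) →
        |({k : ℕ | 1 ≤ k ∧ k ≤ K ∧ ∀ i j, u i j ≤ Int.fract (α j * (bs f i n : ℝ) ^ k) ∧
            Int.fract (α j * (bs f i n : ℝ) ^ k) < v i j}.ncard : ℝ) -
            K * ∏ i, ∏ j, (v i j - u i j)| ≤ (K : ℝ) ^ (1 / 2 + ε)}.ncard : ℝ) ≤ η * L) := by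
  classical
  obtain ⟨δ, hδ0, hmain⟩ := both_sets
  refine ⟨δ / 2, by positivity, fun r t α A c0 hA hc0 htyp f hf => ?_⟩
  obtain ⟨⟨L1, hL1⟩, hdisc⟩ := hmain r t α A c0 hA hc0 htyp f hf
  have hhalf : ∀ X : ℝ, 1 ≤ X → X ^ (δ / 2) ≤ X ^ δ := fun X hX =>
    Real.rpow_le_rpow_of_exponent_le hX (by linarith)
  refine ⟨?_, ?_, ?_⟩
  · obtain ⟨L0, hL0⟩ := exists_L 1
    refine ⟨max L0 L1, fun L hL N hpos K M hK hM hMX W => ?_⟩
    have hX := hL0 L ((le_max_left _ _).trans hL)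
    have hh := hhalf _ hX
    refine (hL1 L ((le_max_right _ _).trans hL) N hpos K M (hK.trans hh) hM
      (hMX.trans (Real.exp_le_exp.2 hh)) W).trans ?_
    apply mul_le_mul_of_nonneg_left _ (Nat.cast_nonneg L)
    apply Real.exp_le_exp.2
    linarith
  · intro m M hm hM ε η hε hη
    have : NeZero M := ⟨by omega⟩
    have hcardT : Fintype.card (Fin t → Fin r → Fin M) = M ^ (t * r) := by
      rw [Fintype.card_fun, Fintype.card_fun, Fintype.card_fin, Fintype.card_fin, Fintype.card_fin,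
        ← pow_mul, mul_comm]
    have hMR : (0 : ℝ) < M := by exact_mod_cast hM
    obtain ⟨K1, hK11, hK1⟩ := bad_blocks (T := Fin t → Fin r → Fin M) m hm ε (η / 2) hε (by positivity)
    have ev : ∀ᶠ X : ℝ in atTop, 1 ≤ X ∧ X ^ (δ / 2) + m ≤ X ^ δ ∧ (M : ℝ) ≤ Real.exp (X ^ δ) ∧
        Real.exp (-(X ^ δ)) ≤ η / 2 := by
      have t1 : Tendsto (fun X : ℝ => X ^ (δ / 2)) atTop atTop := tendsto_rpow_atTop (by positivity)
      have t2 : Tendsto (fun X : ℝ => X ^ δ) atTop atTop := tendsto_rpow_atTop hδ0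
      filter_upwards [eventually_ge_atTop (1 : ℝ), t1.eventually_ge_atTop ((m : ℝ) + 1),
        t2.eventually_ge_atTop (M : ℝ), t2.eventually_ge_atTop (-Real.log (η / 2))] with X h1 h2 h3 h4
      refine ⟨h1, ?_, ?_, ?_⟩
      · have e : X ^ δ = X ^ (δ / 2) * X ^ (δ / 2) := by
          rw [← Real.rpow_add (by linarith)]
          congr 1
          ring
        rw [e]
        have : (0 : ℝ) ≤ m := Nat.cast_nonneg m
        nlinarith
      · have := Real.add_one_le_exp (X ^ δ)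
        linarith
      · rw [← Real.exp_log (show 0 < η / 2 by positivity)]
        apply Real.exp_le_exp.2
        linarith
    obtain ⟨X0, hX0⟩ := eventually_atTop.1 ev
    obtain ⟨L0, hL0⟩ := exists_L X0
    refine ⟨max K1 4, max L0 L1, fun L hL N hpos => ?_⟩
    obtain ⟨a1, a2, a3, a4⟩ := hX0 _ (hL0 L ((le_max_left _ _).trans hL))
    set X : ℝ := Real.log L with hX
    set Kmax : ℕ := ⌊X ^ (δ / 2)⌋₊ with hKmax
    have hKm : (Kmax : ℝ) ≤ X ^ (δ / 2) := Nat.floor_le (Real.rpow_nonneg (by linarith) _)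
    obtain ⟨Sb, hSb⟩ : ∃ Sb : Set (Fin (Kmax + m) → Fin t → Fin r → Fin M), Sb =
        {w | ∃ K : ℕ, K1 ≤ K ∧ K ≤ Kmax ∧ ∃ D : Fin m → Fin t → Fin r → Fin M,
        (K : ℝ) ^ (1 / 2 + ε) / 2 < |(cntB m K D w : ℝ) -
          K * (1 / (Fintype.card (Fin t → Fin r → Fin M) : ℝ) ^ m)|} := ⟨_, rfl⟩
    have hSc := hK1 Kmax
    rw [← hSb] at hSc
    obtain ⟨W, hW⟩ : ∃ W : Finset (Fin t → Fin (Kmax + m) → Fin r → Fin M), W =
        univ.filter (fun w => (fun k i j => w i k j) ∈ Sb) := ⟨_, rfl⟩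
    have hWc : (W.card : ℝ) ≤ η / 2 * ((M : ℝ) ^ (t * ((Kmax + m) * r))) := by
      have h1 : W.card ≤ Sb.ncard := by
        rw [← Set.ncard_coe_finset W]
        refine Set.ncard_le_ncard_of_injOn (fun w k i j => w i k j) ?_ ?_ (Set.toFinite _)
        · intro w hw
          rw [hW, mem_coe, mem_filter] at hw
          exact hw.2
        · intro w _ w' _ h
          funext i k j
          exact congrFun (congrFun (congrFun h k) i) j
      have h2 : (W.card : ℝ) ≤ Sb.ncard := by exact_mod_cast h1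
      refine h2.trans (hSc.trans (le_of_eq ?_))
      rw [hcardT]
      push_cast
      rw [← pow_mul]
      congr 2
      ring
    have hTV := hL1 L ((le_max_right _ _).trans hL) N hpos (Kmax + m) M (by
      push_cast
      linarith) hM a3 W
    have h1 := (abs_le.1 hTV).2
    have hq : (W.card : ℝ) / (M : ℝ) ^ (t * ((Kmax + m) * r)) ≤ η / 2 := by
      rw [div_le_iff₀ (by positivity)]
      exact hWc
    have hsub : {n : ℕ | N < n ∧ n ≤ N + L ∧ ¬ ∀ K : ℕ, max K1 4 ≤ K → (K : ℝ) ≤ X ^ (δ / 2) →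
        ∀ D : Fin t → Fin r → Fin m → Fin M,
        |({k : ℕ | 1 ≤ k ∧ k ≤ K ∧ ∀ (i : Fin t) (j : Fin r) (h : Fin m),
            M * digit (bs f i n) (k + h) (α j) / bs f i n = (D i j h : ℕ)}.ncard : ℝ) -
            K * (1 / (M : ℝ) ^ (t * (r * m)))| ≤ (K : ℝ) ^ (1 / 2 + ε)} ⊆
        {n : ℕ | N < n ∧ n ≤ N + L ∧ ∃ w ∈ W, ∀ (i : Fin t) (k : Fin (Kmax + m)) (j : Fin r),
          M * digit (bs f i n) ((k : ℕ) + 2) (α j) / bs f i n = (w i k j : ℕ)} := by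
      rintro n ⟨hn1, hn2, hn3⟩
      refine ⟨hn1, hn2, ?_⟩
      push Not at hn3
      obtain ⟨K, hKa, hKb, D, hD⟩ := hn3
      have hbase : ∀ i, 1 ≤ bs f i n := fun i => by
        have := hpos n hn1 hn2 i
        unfold bs
        omega
      obtain ⟨w, hw⟩ : ∃ w : Fin t → Fin (Kmax + m) → Fin r → Fin M, w = fun i k j =>
        ⟨M * digit (bs f i n) ((k : ℕ) + 2) (α j) / bs f i n,
          (digit_class (k := (k : ℕ) + 1) (hbase i) hM (α j)).1⟩ := ⟨_, rfl⟩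
      refine ⟨w, ?_, fun i k j => by rw [hw]⟩
      rw [hW]
      simp only [mem_filter, mem_univ, true_and]
      rw [hSb]
      have hKK : K ≤ Kmax := Nat.le_floor hKb
      refine ⟨K, (le_max_left _ _).trans hKa, hKK, fun h i j => D i j h, ?_⟩
      have hcnt : cntB m K (fun h i j => D i j h) (fun k i j => w i k j) =
          {i₀ : ℕ | i₀ < K ∧ ∀ (i : Fin t) (j : Fin r) (h : Fin m),
            M * digit (bs f i n) (i₀ + 2 + h) (α j) / bs f i n = (D i j h : ℕ)}.ncard := by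
        unfold cntB
        congr 1
        ext i₀
        constructor
        · rintro ⟨h1, h2⟩
          refine ⟨h1, fun i j h => ?_⟩
          have hlt : i₀ + (h : ℕ) < Kmax + m := by
            have := h.2
            omega
          have h3 := congrArg Fin.val (congrFun (congrFun (h2 h hlt) i) j)
          rw [hw] at h3
          simp only at h3
          have e : i₀ + (h : ℕ) + 2 = i₀ + 2 + h := by omega
          rw [← h3, e]
        · rintro ⟨h1, h2⟩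
          refine ⟨h1, fun h hlt => ?_⟩
          funext i j
          apply Fin.ext
          rw [hw]
          simp only
          have e : i₀ + (h : ℕ) + 2 = i₀ + 2 + h := by omega
          rw [← h2 i j h, e]
      have hsh := shift_count K (fun k => ∀ (i : Fin t) (j : Fin r) (h : Fin m),
            M * digit (bs f i n) (k + h) (α j) / bs f i n = (D i j h : ℕ))
      rw [← hcnt] at hsh
      have hpw : (1 : ℝ) / (Fintype.card (Fin t → Fin r → Fin M) : ℝ) ^ m =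
          1 / (M : ℝ) ^ (t * (r * m)) := by
        rw [hcardT]
        push_cast
        rw [← pow_mul]
        congr 2
        ring
      rw [hpw]
      have hK4 : (4 : ℝ) ≤ K := by exact_mod_cast (le_max_right _ _).trans hKa
      have hK2 : (2 : ℝ) ≤ (K : ℝ) ^ (1 / 2 + ε) := by
        calc (2 : ℝ) = (4 : ℝ) ^ ((1 : ℝ) / 2) := by
              rw [show (4 : ℝ) = 2 ^ (2 : ℝ) by norm_num, ← Real.rpow_mul (by norm_num)]
              norm_num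
          _ ≤ (K : ℝ) ^ ((1 : ℝ) / 2) := Real.rpow_le_rpow (by norm_num) hK4 (by norm_num)
          _ ≤ (K : ℝ) ^ (1 / 2 + ε) := Real.rpow_le_rpow_of_exponent_le (by linarith) (by linarith)
      obtain ⟨x, hx⟩ : ∃ x : ℝ, x = ({k : ℕ | 1 ≤ k ∧ k ≤ K ∧ ∀ (i : Fin t) (j : Fin r) (h : Fin m),
            M * digit (bs f i n) (k + h) (α j) / bs f i n = (D i j h : ℕ)}.ncard : ℝ) := ⟨_, rfl⟩
      rw [← hx] at hD hsh
      have h5 : |x - K * (1 / (M : ℝ) ^ (t * (r * m)))| ≤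
          |x - (cntB m K (fun h i j => D i j h) (fun k i j => w i k j) : ℝ)| +
          |(cntB m K (fun h i j => D i j h) (fun k i j => w i k j) : ℝ) -
            K * (1 / (M : ℝ) ^ (t * (r * m)))| := abs_sub_le _ _ _
      linarith
    have h2 := Set.ncard_le_ncard hsub ((Set.finite_Ioc N (N + L)).subset fun n hn => ⟨hn.1, hn.2.1⟩)
    have h3 : ({n : ℕ | N < n ∧ n ≤ N + L ∧ ¬ ∀ K : ℕ, max K1 4 ≤ K → (K : ℝ) ≤ X ^ (δ / 2) →
        ∀ D : Fin t → Fin r → Fin m → Fin M,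
        |({k : ℕ | 1 ≤ k ∧ k ≤ K ∧ ∀ (i : Fin t) (j : Fin r) (h : Fin m),
            M * digit (bs f i n) (k + h) (α j) / bs f i n = (D i j h : ℕ)}.ncard : ℝ) -
            K * (1 / (M : ℝ) ^ (t * (r * m)))| ≤ (K : ℝ) ^ (1 / 2 + ε)}.ncard : ℝ) ≤ _ :=
      Nat.cast_le.2 h2
    refine h3.trans ?_
    have hL0 : (0 : ℝ) ≤ L := Nat.cast_nonneg L
    have h4 : (L : ℝ) * (W.card / (M : ℝ) ^ (t * ((Kmax + m) * r))) ≤ L * (η / 2) := by gcongr
    have h5 : (L : ℝ) * Real.exp (-(X ^ δ)) ≤ L * (η / 2) := by gcongr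
    linarith
  · intro ε η hε hη
    obtain ⟨K1, L2, h2⟩ := hdisc ε η hε hη
    obtain ⟨L0, hL0⟩ := exists_L 1
    refine ⟨K1, max L0 L2, fun L hL N hpos => le_trans ?_ (h2 L ((le_max_right _ _).trans hL) N hpos)⟩
    have hh := hhalf _ (hL0 L ((le_max_left _ _).trans hL))
    rw [Nat.cast_le]
    refine Set.ncard_le_ncard ?_ ((Set.finite_Ioc N (N + L)).subset fun n hn => ⟨hn.1, hn.2.1⟩)
    rintro n ⟨hn1, hn2, hn3⟩
    exact ⟨hn1, hn2, fun hcon => hn3 fun K hK1 hK2 => hcon K hK1 (hK2.trans hh)⟩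

end Pool.Agent.J6H36.RB
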