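import Pool.Agent.J6H36.RB.Disc

set_option autoImplicit false
set_option maxHeartbeats 4000000

/-!
# The bad bases for one depth, quantitative
-/

namespace Pool.Agent.J6H36.RB

open Finset Polynomial Filter

theorem beta_q (m q : ℕ) (ε : ℝ) (hε : 0 < ε) : ∃ C : ℝ, 0 ≤ C ∧ ∀ K : ℕ, 1 ≤ K →
    ((K : ℝ) + 1) ^ (2 * m) * (2 * Real.exp (-(((K : ℝ) ^ (1 / 2 + ε) / 2) ^ 2) / (2 * K))) ≤
      C * ((K : ℝ) ^ (q + 2))⁻¹ := by
  obtain ⟨p, hp⟩ := exists_nat_ge (((2 * m + (q + 2) : ℕ) : ℝ) / (2 * ε))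
  refine ⟨2 * 2 ^ (2 * m) * (p.factorial * 8 ^ p), by positivity, fun K hK => ?_⟩
  have hKR : (1 : ℝ) ≤ K := by exact_mod_cast hK
  have hK0 : (0 : ℝ) < K := by linarith
  set x : ℝ := (K : ℝ) ^ (2 * ε) / 8 with hx
  have hx0 : 0 < x := by positivity
  have e1 : -(((K : ℝ) ^ (1 / 2 + ε) / 2) ^ 2) / (2 * K) = -x := by
    have h1 : ((K : ℝ) ^ (1 / 2 + ε)) ^ 2 = K * (K : ℝ) ^ (2 * ε) := by
      rw [← Real.rpow_natCast, ← Real.rpow_mul hK0.le]
      have : (1 / 2 + ε) * ((2 : ℕ) : ℝ) = 1 + 2 * ε := by push_cast; ring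
      rw [this, Real.rpow_add hK0, Real.rpow_one]
    rw [div_pow, h1, hx]
    field_simp
    norm_num
  rw [e1]
  have h2 := Real.pow_div_factorial_le_exp x hx0.le p
  have h3 : Real.exp (-x) ≤ p.factorial / x ^ p := by
    rw [Real.exp_neg, ← one_div, div_le_div_iff₀ (Real.exp_pos x) (by positivity)]
    rw [div_le_iff₀ (by positivity)] at h2
    linarith
  have h4 : (K : ℝ) ^ (2 * m + (q + 2)) / 8 ^ p ≤ x ^ p := by
    rw [hx, div_pow]
    gcongr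
    rw [← Real.rpow_natCast ((K : ℝ) ^ (2 * ε)) p, ← Real.rpow_mul hK0.le,
      ← Real.rpow_natCast (K : ℝ) (2 * m + (q + 2))]
    apply Real.rpow_le_rpow_of_exponent_le hKR
    rw [div_le_iff₀ (by linarith)] at hp
    linarith
  have h5 : Real.exp (-x) ≤ p.factorial * 8 ^ p / (K : ℝ) ^ (2 * m + (q + 2)) := by
    refine h3.trans ?_
    rw [div_le_div_iff₀ (by positivity) (by positivity)]
    rw [div_le_iff₀ (by positivity)] at h4
    have : (0 : ℝ) ≤ (p.factorial : ℝ) := by positivity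
    nlinarith
  have h6 : ((K : ℝ) + 1) ^ (2 * m) ≤ 2 ^ (2 * m) * (K : ℝ) ^ (2 * m) := by
    rw [← mul_pow]
    exact pow_le_pow_left₀ (by linarith) (by linarith) _
  calc ((K : ℝ) + 1) ^ (2 * m) * (2 * Real.exp (-x)) ≤
      (2 ^ (2 * m) * (K : ℝ) ^ (2 * m)) * (2 * (p.factorial * 8 ^ p / (K : ℝ) ^ (2 * m + (q + 2)))) := by
        gcongr
    _ = _ := by
      rw [pow_add]
      field_simp

open Classical in
/-- The bad bases for one depth. -/
theorem disc_one : ∃ δ : ℝ, 0 < δ ∧ δ ≤ 1 / 48 ∧ ∀ (r t : ℕ) (α : Fin r → ℝ) (A c0 : ℝ), 1 ≤ A →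
    0 < c0 → Typ α A c0 → ∀ f : Fin t → ℤ[X], Indep f → ∀ ε : ℝ, 0 < ε → ∀ q : ℕ,
    ∃ (C : ℝ) (K0 : ℕ) (X0 : ℝ), 0 ≤ C ∧ 1 ≤ K0 ∧ ∀ L : ℕ, X0 ≤ Real.log L → ∀ N K : ℕ,
    K0 ≤ K → (K : ℝ) ≤ (Real.log L) ^ δ →
    (((Finset.Ioc N (N + L)).filter (fun n => ¬ ∀ u v : Fin t × Fin r → ℝ, (∀ x, 0 ≤ u x) →
      (∀ x, u x ≤ v x) → (∀ x, v x ≤ 1) →
      |((univ.filter (fun k : Fin K => ∀ x : Fin t × Fin r,
          u x ≤ Int.fract (yy f α n K (x.1, k, x.2)) ∧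
          Int.fract (yy f α n K (x.1, k, x.2)) < v x)).card : ℝ) - K * ∏ x, (v x - u x)| ≤
        (K : ℝ) ^ (1 / 2 + ε))).card : ℝ) ≤
      L * (C * ((K : ℝ) ^ (q + 2))⁻¹) + L * Real.exp (-((Real.log L) ^ δ)) := by
  obtain ⟨δ, hδ0, hδ1, htv⟩ := tv_gen
  refine ⟨δ, hδ0, hδ1, ?_⟩
  intro r t α A c0 hA hc0 htyp f hf ε hε q
  obtain ⟨X1, hX1⟩ := htv r t α A c0 hA hc0 htyp f hf
  obtain ⟨C, hC0, hC⟩ := beta_q (t * r) q ε hε
  -- the starting point
  have ev1 : ∀ᶠ K : ℕ in atTop, 4 * ((t * r : ℕ) : ℝ) ≤ (K : ℝ) ^ (1 / 2 + ε) ∧ 1 ≤ K := by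
    have t1 : Tendsto (fun K : ℕ => (K : ℝ) ^ (1 / 2 + ε)) atTop atTop :=
      (tendsto_rpow_atTop (by linarith)).comp tendsto_natCast_atTop_atTop
    filter_upwards [t1.eventually_ge_atTop (4 * ((t * r : ℕ) : ℝ)), eventually_ge_atTop 1]
      with K h1 h3
    exact ⟨h1, h3⟩
  obtain ⟨K0, hK0⟩ := eventually_atTop.1 ev1
  refine ⟨C, K0, max X1 1, hC0, (hK0 K0 le_rfl).2, ?_⟩
  intro L hL N K hKK0 hKX
  have hLX1 : X1 ≤ Real.log L := (le_max_left _ _).trans hL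
  have a1 : 1 ≤ Real.log L := (le_max_right _ _).trans hL
  set X : ℝ := Real.log L with hX
  have hL0 : (0 : ℝ) < L := by
    by_contra hcon
    have : (L : ℝ) = 0 := le_antisymm (not_lt.1 hcon) (Nat.cast_nonneg _)
    rw [hX, this, Real.log_zero] at a1
    linarith
  have hXd0 : 0 ≤ X ^ δ := Real.rpow_nonneg (by linarith) _
  obtain ⟨c2, c3⟩ := hK0 K hKK0
  have hKR : (1 : ℝ) ≤ K := by exact_mod_cast c3
  have hKp : (0 : ℝ) < K := by linarith
  set B : ℝ := (K : ℝ) ^ (1 / 2 + ε) / 2 with hB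
  have hB0 : 0 < B := by positivity
  have hlt : ∀ n x, ⌊(K : ℝ) * Int.fract (yy f α n K x)⌋₊ < K := fun n x => by
    rw [Nat.floor_lt (by positivity)]
    have := Int.fract_lt_one (yy f α n K x)
    nlinarith
  set cl : ℕ → Fin t × Fin K × Fin r → Fin K := fun n x =>
    ⟨⌊(K : ℝ) * Int.fract (yy f α n K x)⌋₊, hlt n x⟩ with hcl
  obtain ⟨tw, htw⟩ : ∃ tw : (Fin t × Fin K × Fin r → Fin K) → Fin K → Fin t × Fin r → Fin K,
    tw = fun c k x => c (x.1, k, x.2) := ⟨_, rfl⟩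
  obtain ⟨Wb, hWb⟩ : ∃ Wb : Finset (Fin K → Fin t × Fin r → Fin K),
    Wb = univ.filter (fun w => ¬ Good K K B w) := ⟨_, rfl⟩
  obtain ⟨W, hW⟩ : ∃ W : Finset (Fin t × Fin K × Fin r → Fin K),
    W = univ.filter (fun c => tw c ∈ Wb) := ⟨_, rfl⟩
  have hWc : W.card ≤ Wb.card := by
    refine Finset.card_le_card_of_injOn tw ?_ ?_
    · intro c hc
      rw [hW, mem_coe, mem_filter] at hc
      exact hc.2
    · intro c _ c' _ h
      rw [htw] at h
      funext x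
      exact congrFun (congrFun h x.2.1) (x.1, x.2.2)
  have hcardρ : Fintype.card (Fin t × Fin r) = t * r := by simp
  have hbad : (Wb.card : ℝ) ≤ ((K : ℝ) + 1) ^ (2 * (t * r)) *
      (2 * Real.exp (-(B ^ 2) / (2 * K)) * ((K : ℝ) ^ (t * r)) ^ K) := by
    rw [hWb, ← hcardρ]
    have hbw := bad_words (ρ := Fin t × Fin r) K K c3 c3 B hB0
    refine le_trans (le_of_eq ?_) hbw
    rw [Nat.cast_inj]
    apply congrArg Finset.card
    ext w
    simp only [mem_filter, mem_univ, true_and]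
  have hmain := hX1 L hLX1 N K K hKX c3 (by
      have := Real.add_one_le_exp (X ^ δ)
      linarith) cl ∅ (by
      rw [card_empty]
      push_cast
      positivity) (fun n _ _ x => by
      have h1 : ((cl n x : ℕ) : ℝ) = (⌊(K : ℝ) * Int.fract (yy f α n K x)⌋₊ : ℝ) := rfl
      rw [h1]
      constructor
      · rw [div_le_iff₀ hKp]
        have := Nat.floor_le (show 0 ≤ (K : ℝ) * Int.fract (yy f α n K x) by positivity)
        linarith
      · have h2 := Nat.lt_floor_add_one ((K : ℝ) * Int.fract (yy f α n K x))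
        have h3 : Int.fract (yy f α n K x) < ((⌊(K : ℝ) * Int.fract (yy f α n K x)⌋₊ : ℝ) + 1) / K := by
          rw [lt_div_iff₀ hKp]
          linarith
        have := Real.exp_pos (-(Real.log L / 4))
        linarith) W
  have h1 := (abs_le.1 hmain).2
  have hsub : (Finset.Ioc N (N + L)).filter (fun n => ¬ ∀ u v : Fin t × Fin r → ℝ, (∀ x, 0 ≤ u x) →
    (∀ x, u x ≤ v x) → (∀ x, v x ≤ 1) →
    |((univ.filter (fun k : Fin K => ∀ x : Fin t × Fin r,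
        u x ≤ Int.fract (yy f α n K (x.1, k, x.2)) ∧
        Int.fract (yy f α n K (x.1, k, x.2)) < v x)).card : ℝ) - K * ∏ x, (v x - u x)| ≤
      (K : ℝ) ^ (1 / 2 + ε)) ⊆ (Finset.Ioc N (N + L)).filter (fun n => cl n ∈ W) := by
    intro n hn
    rw [mem_filter] at hn ⊢
    refine ⟨hn.1, ?_⟩
    by_contra hcon
    apply hn.2
    intro u v hu huv hv
    have hg : Good K K B (tw (cl n)) := by
      by_contra hg
      apply hcon
      rw [hW, mem_filter]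
      refine ⟨mem_univ _, ?_⟩
      rw [hWb, mem_filter]
      exact ⟨mem_univ _, hg⟩
    have h2 := grid_to_box c3 hB0.le (tw (cl n)) (fun k x => yy f α n K (x.1, k, x.2) |> Int.fract)
      (fun k x => Int.fract_nonneg _) (fun k x => Int.fract_lt_one _) (fun k x => by
        rw [htw]) hg u v hu huv hv
    rw [hcardρ] at h2
    refine h2.trans ?_
    have h3 : (K : ℝ) * (((t * r : ℕ) : ℝ) * (2 / K)) = 2 * ((t * r : ℕ) : ℝ) := by
      field_simp
    rw [h3]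
    linarith
  have h2 : (((Finset.Ioc N (N + L)).filter (fun n => ¬ ∀ u v : Fin t × Fin r → ℝ, (∀ x, 0 ≤ u x) →
    (∀ x, u x ≤ v x) → (∀ x, v x ≤ 1) →
    |((univ.filter (fun k : Fin K => ∀ x : Fin t × Fin r,
        u x ≤ Int.fract (yy f α n K (x.1, k, x.2)) ∧
        Int.fract (yy f α n K (x.1, k, x.2)) < v x)).card : ℝ) - K * ∏ x, (v x - u x)| ≤
      (K : ℝ) ^ (1 / 2 + ε))).card : ℝ) ≤ ((Finset.Ioc N (N + L)).filter (fun n => cl n ∈ W)).card := by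
    exact_mod_cast card_le_card hsub
  refine h2.trans ?_
  have h3 : (W.card : ℝ) / (K : ℝ) ^ (t * (K * r)) ≤ C * ((K : ℝ) ^ (q + 2))⁻¹ := by
    refine le_trans ?_ (hC K c3)
    have h4 : (K : ℝ) ^ (t * (K * r)) = ((K : ℝ) ^ (t * r)) ^ K := by
      rw [← pow_mul]
      congr 1
      ring
    rw [h4, div_le_iff₀ (by positivity)]
    have h5 : (W.card : ℝ) ≤ Wb.card := by exact_mod_cast hWc
    refine h5.trans (hbad.trans (le_of_eq ?_))
    ring
  have h4 : (L : ℝ) * (W.card / (K : ℝ) ^ (t * (K * r))) ≤ L * (C * ((K : ℝ) ^ (q + 2))⁻¹) := by gcongr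
  linarith

end Pool.Agent.J6H36.RB
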