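import Pool.Agent.J6H36.RB.Blk3
import Pool.Agent.J6H36.RB.DiscQ

set_option autoImplicit false
set_option maxHeartbeats 4000000

/-!
# Blocks of digits, quantitative
-/

namespace Pool.Agent.J6H36.RB

open Finset Polynomial Filter

theorem exp_q (m q : ℕ) (hm : 1 ≤ m) (ε : ℝ) (hε : 0 < ε) : ∃ C : ℝ, 0 ≤ C ∧ ∀ K : ℕ, 1 ≤ K →
    Real.exp (-(((K : ℝ) ^ (1 / 2 + ε) / 2 / m) ^ 2) / (2 * K)) ≤ C * ((K : ℝ) ^ (q + 2))⁻¹ := by
  obtain ⟨p, hp⟩ := exists_nat_ge (((q + 2 : ℕ) : ℝ) / (2 * ε))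
  have hmR : (1 : ℝ) ≤ m := by exact_mod_cast hm
  refine ⟨p.factorial * (8 * m ^ 2) ^ p, by positivity, fun K hK => ?_⟩
  have hKR : (1 : ℝ) ≤ K := by exact_mod_cast hK
  have hK0 : (0 : ℝ) < K := by linarith
  set x : ℝ := (K : ℝ) ^ (2 * ε) / (8 * m ^ 2) with hx
  have hx0 : 0 < x := by positivity
  have e1 : -(((K : ℝ) ^ (1 / 2 + ε) / 2 / m) ^ 2) / (2 * K) = -x := by
    have h1 : ((K : ℝ) ^ (1 / 2 + ε)) ^ 2 = K * (K : ℝ) ^ (2 * ε) := by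
      rw [← Real.rpow_natCast, ← Real.rpow_mul hK0.le]
      have : (1 / 2 + ε) * ((2 : ℕ) : ℝ) = 1 + 2 * ε := by push_cast; ring
      rw [this, Real.rpow_add hK0, Real.rpow_one]
    rw [div_pow, div_pow, h1, hx]
    field_simp
    norm_num
  rw [e1]
  have h2 := Real.pow_div_factorial_le_exp x hx0.le p
  have h3 : Real.exp (-x) ≤ p.factorial / x ^ p := by
    rw [Real.exp_neg, ← one_div, div_le_div_iff₀ (Real.exp_pos x) (by positivity)]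
    rw [div_le_iff₀ (by positivity)] at h2
    linarith
  have h4 : (K : ℝ) ^ (q + 2) / (8 * m ^ 2) ^ p ≤ x ^ p := by
    rw [hx, div_pow]
    gcongr
    rw [← Real.rpow_natCast ((K : ℝ) ^ (2 * ε)) p, ← Real.rpow_mul hK0.le,
      ← Real.rpow_natCast (K : ℝ) (q + 2)]
    apply Real.rpow_le_rpow_of_exponent_le hKR
    rw [div_le_iff₀ (by linarith)] at hp
    linarith
  refine h3.trans ?_
  rw [← div_eq_mul_inv, div_le_div_iff₀ (by positivity) (by positivity)]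
  rw [div_le_iff₀ (by positivity)] at h4
  have : (0 : ℝ) ≤ (p.factorial : ℝ) := by positivity
  nlinarith

theorem tail_q (q K1 K2 : ℕ) (hK1 : 1 ≤ K1) :
    ∑ K ∈ Finset.Ioo (K1 - 1) K2, ((K : ℝ) ^ (q + 2))⁻¹ ≤ 2 * ((K1 : ℝ) ^ q)⁻¹ := by
  have h1 := sum_Ioo_inv_sq_le (α := ℝ) (K1 - 1) K2
  have h2 : (2 : ℝ) / (((K1 - 1 : ℕ) : ℝ) + 1) ≤ 2 := by
    apply div_le_self (by norm_num)
    have : (0 : ℝ) ≤ ((K1 - 1 : ℕ) : ℝ) := Nat.cast_nonneg _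
    linarith
  have h3 : ∀ K ∈ Finset.Ioo (K1 - 1) K2, ((K : ℝ) ^ (q + 2))⁻¹ ≤ ((K1 : ℝ) ^ q)⁻¹ * ((K : ℝ) ^ 2)⁻¹ := by
    intro K hK
    rw [Finset.mem_Ioo] at hK
    have hK1' : (1 : ℝ) ≤ K1 := by exact_mod_cast hK1
    have h4 : (K1 : ℝ) ≤ K := by exact_mod_cast (by omega : K1 ≤ K)
    have h5 : (0 : ℝ) < K := by linarith
    rw [← mul_inv]
    apply inv_anti₀ (by positivity)
    rw [pow_add]
    gcongr
  refine (Finset.sum_le_sum h3).trans ?_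
  rw [← Finset.mul_sum]
  have h4 : (0 : ℝ) ≤ ((K1 : ℝ) ^ q)⁻¹ := by positivity
  nlinarith

theorem bad_blocks_q {T : Type} [Fintype T] [Nonempty T] (m q' : ℕ) (hm : 1 ≤ m) (ε : ℝ) (hε : 0 < ε) :
    ∃ C : ℝ, 0 ≤ C ∧ ∀ K₁ K' : ℕ, 1 ≤ K₁ →
    ({w : Fin (K' + m) → T | ∃ K : ℕ, K₁ ≤ K ∧ K ≤ K' ∧ ∃ D : Fin m → T,
      (K : ℝ) ^ (1 / 2 + ε) / 2 < |(cntB m K D w : ℝ) - K * (1 / (Fintype.card T : ℝ) ^ m)|}.ncard : ℝ) ≤
      C * ((K₁ : ℝ) ^ q')⁻¹ * (Fintype.card T : ℝ) ^ (K' + m) := by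
  classical
  have hT : (0 : ℝ) < Fintype.card T := by exact_mod_cast Fintype.card_pos
  obtain ⟨C, hC0, hC⟩ := exp_q m q' hm ε hε
  set q : ℝ := (Fintype.card T : ℝ) ^ m with hq
  have hq0' : 0 ≤ q := by positivity
  refine ⟨q * (m * (2 * C)) * 2, by positivity, fun K1 K' hK1 => ?_⟩
  obtain ⟨F, hF⟩ : ∃ F : ℕ → (Fin m → T) → Finset (Fin (K' + m) → T), F = fun (K : ℕ) (D : Fin m → T) =>
    {w : Fin (K' + m) → T | (K : ℝ) ^ (1 / 2 + ε) / 2 <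
      |(cntB m K D w : ℝ) - K * (1 / (Fintype.card T : ℝ) ^ m)|}.toFinset := ⟨_, rfl⟩
  have hone : ∀ K ∈ Finset.Ioo (K1 - 1) (K' + 1), ∀ D : Fin m → T, ((F K D).card : ℝ) ≤
      (m * (2 * (C * ((K : ℝ) ^ (q' + 2))⁻¹))) * (Fintype.card T : ℝ) ^ (K' + m) := by
    intro K hK D
    rw [Finset.mem_Ioo] at hK
    have hK1 : 1 ≤ K := by omega
    have hKm : K + m ≤ K' + m := by omega
    have hKR : (1 : ℝ) ≤ K := by exact_mod_cast hK1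
    have h1 := blocks_dev (T := T) m K hm D ((K : ℝ) ^ (1 / 2 + ε) / 2) (by positivity)
    obtain ⟨S, hS⟩ : ∃ S : Set (Fin (K + m) → T), S = {w : Fin (K + m) → T |
      (K : ℝ) ^ (1 / 2 + ε) / 2 < |(cntB m K D w : ℝ) - K * (1 / (Fintype.card T : ℝ) ^ m)|} := ⟨_, rfl⟩
    rw [← hS] at h1
    have h2 : (S.ncard : ℝ) ≤ (m * (2 * (C * ((K : ℝ) ^ (q' + 2))⁻¹))) *
        (Fintype.card T : ℝ) ^ Fintype.card (Fin (K + m)) := by
      refine h1.trans ?_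
      rw [Fintype.card_fin, ← mul_assoc, ← mul_assoc, ← mul_assoc]
      have := hC K hK1
      gcongr
    have h3 := ncard_res (T := T) (Fin.castLE hKm) (Fin.castLE_injective hKm) S _ h2
    rw [Fintype.card_fin] at h3
    refine le_trans (le_of_eq ?_) h3
    rw [hF]
    simp only
    rw [← Set.ncard_eq_toFinset_card', hS]
    congr 2
    ext w
    rw [Set.mem_setOf_eq, Set.mem_setOf_eq, Set.mem_setOf_eq, cntB_cast]
  have hsub : {w : Fin (K' + m) → T | ∃ K : ℕ, K1 ≤ K ∧ K ≤ K' ∧ ∃ D : Fin m → T,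
      (K : ℝ) ^ (1 / 2 + ε) / 2 <
        |(cntB m K D w : ℝ) - K * (1 / (Fintype.card T : ℝ) ^ m)|}.toFinset ⊆
      (Finset.Ioo (K1 - 1) (K' + 1)).biUnion (fun K => univ.biUnion (F K)) := by
    intro w hw
    rw [Set.mem_toFinset, Set.mem_setOf_eq] at hw
    obtain ⟨K, h1, h2, D, h3⟩ := hw
    rw [mem_biUnion]
    refine ⟨K, Finset.mem_Ioo.2 ⟨by omega, by omega⟩, ?_⟩
    rw [mem_biUnion]
    refine ⟨D, mem_univ _, ?_⟩
    rw [hF]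
    simp only
    rw [Set.mem_toFinset]
    exact h3
  have h1 := (card_le_card hsub).trans (card_biUnion_le.trans
    (Finset.sum_le_sum fun K _ => card_biUnion_le))
  rw [← Set.ncard_eq_toFinset_card'] at h1
  have h2 : ({w : Fin (K' + m) → T | ∃ K : ℕ, K1 ≤ K ∧ K ≤ K' ∧ ∃ D : Fin m → T,
      (K : ℝ) ^ (1 / 2 + ε) / 2 <
        |(cntB m K D w : ℝ) - K * (1 / (Fintype.card T : ℝ) ^ m)|}.ncard : ℝ) ≤
      ∑ K ∈ Finset.Ioo (K1 - 1) (K' + 1), ∑ D : Fin m → T, ((F K D).card : ℝ) := by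
    have h3 : ((∑ K ∈ Finset.Ioo (K1 - 1) (K' + 1), ∑ D : Fin m → T, (F K D).card : ℕ) : ℝ) =
        ∑ K ∈ Finset.Ioo (K1 - 1) (K' + 1), ∑ D : Fin m → T, ((F K D).card : ℝ) := by
      push_cast
      rfl
    rw [← h3]
    exact Nat.cast_le.2 h1
  refine h2.trans ?_
  have h3 : ∀ K ∈ Finset.Ioo (K1 - 1) (K' + 1), ∑ D : Fin m → T, ((F K D).card : ℝ) ≤
      (q * (m * (2 * C)) * (Fintype.card T : ℝ) ^ (K' + m)) * ((K : ℝ) ^ (q' + 2))⁻¹ := by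
    intro K hK
    refine (Finset.sum_le_sum fun D _ => hone K hK D).trans (le_of_eq ?_)
    rw [Finset.sum_const, card_univ, nsmul_eq_mul, Fintype.card_fun, Fintype.card_fin, hq]
    push_cast
    ring
  refine (Finset.sum_le_sum h3).trans ?_
  rw [← Finset.mul_sum]
  have h4 := tail_q q' K1 (K' + 1) hK1
  calc q * (m * (2 * C)) * (Fintype.card T : ℝ) ^ (K' + m) *
      ∑ K ∈ Finset.Ioo (K1 - 1) (K' + 1), ((K : ℝ) ^ (q' + 2))⁻¹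
      ≤ q * (m * (2 * C)) * (Fintype.card T : ℝ) ^ (K' + m) * (2 * ((K1 : ℝ) ^ q')⁻¹) := by gcongr
    _ = _ := by ring


theorem quant_blk : ∃ δ1 : ℝ, 0 < δ1 ∧ ∀ δ : ℝ, 0 < δ → δ ≤ δ1 → ∀ (r t : ℕ) (α : Fin r → ℝ)
    (A c0 : ℝ), 1 ≤ A → 0 < c0 → Typ α A c0 → ∀ f : Fin t → ℤ[X], Indep f → ∀ m M : ℕ, 1 ≤ m →
    1 ≤ M → ∀ ε : ℝ, 0 < ε → ∀ q : ℕ, ∃ (C : ℝ) (L₀ : ℕ), 0 ≤ C ∧ ∀ L : ℕ, L₀ ≤ L → ∀ N : ℕ,
      (∀ n : ℕ, N < n → n ≤ N + L → ∀ i, 0 < (f i).eval (n : ℤ)) → ∀ K₁ : ℕ, 4 ≤ K₁ →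
      ({n : ℕ | N < n ∧ n ≤ N + L ∧ ¬ ∀ K : ℕ, K₁ ≤ K → (K : ℝ) ≤ (Real.log L) ^ δ →
        ∀ D : Fin t → Fin r → Fin m → Fin M,
        |({k : ℕ | 1 ≤ k ∧ k ≤ K ∧ ∀ (i : Fin t) (j : Fin r) (h : Fin m),
            M * digit (bs f i n) (k + h) (α j) / bs f i n = (D i j h : ℕ)}.ncard : ℝ) -
            K * (1 / (M : ℝ) ^ (t * (r * m)))| ≤ (K : ℝ) ^ (1 / 2 + ε)}.ncard : ℝ) ≤
      L * (C * ((K₁ : ℝ) ^ q)⁻¹ + Real.exp (-((Real.log L) ^ δ))) := by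
  classical
  obtain ⟨δ2, hδ20, hmain⟩ := both_sets
  refine ⟨δ2 / 2, by positivity, fun δ hδ0 hδ2 r t α A c0 hA hc0 htyp f hf m M hm hM ε hε q => ?_⟩
  obtain ⟨⟨L1, hL1⟩, _⟩ := hmain r t α A c0 hA hc0 htyp f hf
  have : NeZero M := ⟨by omega⟩
  have hcardT : Fintype.card (Fin t → Fin r → Fin M) = M ^ (t * r) := by
    rw [Fintype.card_fun, Fintype.card_fun, Fintype.card_fin, Fintype.card_fin, Fintype.card_fin,
      ← pow_mul, mul_comm]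
  have hMR : (0 : ℝ) < M := by exact_mod_cast hM
  obtain ⟨C, hC0, hC⟩ := bad_blocks_q (T := Fin t → Fin r → Fin M) m q hm ε hε
  have ev : ∀ᶠ X : ℝ in atTop, 1 ≤ X ∧ X ^ δ + m ≤ X ^ δ2 ∧ (M : ℝ) ≤ Real.exp (X ^ δ2) := by
    have t1 : Tendsto (fun X : ℝ => X ^ (δ2 / 2)) atTop atTop := tendsto_rpow_atTop (by positivity)
    have t2 : Tendsto (fun X : ℝ => X ^ δ2) atTop atTop := tendsto_rpow_atTop hδ20
    filter_upwards [eventually_ge_atTop (1 : ℝ), t1.eventually_ge_atTop ((m : ℝ) + 1),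
      t2.eventually_ge_atTop (M : ℝ)] with X h1 h2 h3
    refine ⟨h1, ?_, ?_⟩
    · have e : X ^ δ2 = X ^ (δ2 / 2) * X ^ (δ2 / 2) := by
        rw [← Real.rpow_add (by linarith)]
        congr 1
        ring
      have e2 : X ^ δ ≤ X ^ (δ2 / 2) := Real.rpow_le_rpow_of_exponent_le h1 hδ2
      rw [e]
      have : (0 : ℝ) ≤ m := Nat.cast_nonneg m
      nlinarith
    · have := Real.add_one_le_exp (X ^ δ2)
      linarith
  obtain ⟨X0, hX0⟩ := eventually_atTop.1 ev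
  obtain ⟨L0, hL0⟩ := exists_L X0
  refine ⟨C, max L0 L1, hC0, fun L hL N hpos K₁ hK₁ => ?_⟩
  obtain ⟨a1, a2, a3⟩ := hX0 _ (hL0 L ((le_max_left _ _).trans hL))
  set X : ℝ := Real.log L with hX
  set Kmax : ℕ := ⌊X ^ δ⌋₊ with hKmax
  have hKm : (Kmax : ℝ) ≤ X ^ δ := Nat.floor_le (Real.rpow_nonneg (by linarith) _)
  obtain ⟨Sb, hSb⟩ : ∃ Sb : Set (Fin (Kmax + m) → Fin t → Fin r → Fin M), Sb =
      {w | ∃ K : ℕ, K₁ ≤ K ∧ K ≤ Kmax ∧ ∃ D : Fin m → Fin t → Fin r → Fin M,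
      (K : ℝ) ^ (1 / 2 + ε) / 2 < |(cntB m K D w : ℝ) -
        K * (1 / (Fintype.card (Fin t → Fin r → Fin M) : ℝ) ^ m)|} := ⟨_, rfl⟩
  have hSc := hC K₁ Kmax (by omega)
  rw [← hSb] at hSc
  obtain ⟨W, hW⟩ : ∃ W : Finset (Fin t → Fin (Kmax + m) → Fin r → Fin M), W =
      univ.filter (fun w => (fun k i j => w i k j) ∈ Sb) := ⟨_, rfl⟩
  have hWc : (W.card : ℝ) ≤ C * ((K₁ : ℝ) ^ q)⁻¹ * ((M : ℝ) ^ (t * ((Kmax + m) * r))) := by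
    have h1 : W.card ≤ Sb.ncard := by
      rw [← Set.ncard_coe_finset W]
      refine Set.ncard_le_ncard_of_injOn (fun w k i j => w i k j) ?_ ?_ (Set.toFinite _)
      · intro w hw
        rw [hW, mem_coe, mem_filter] at hw
        exact hw.2
      · intro w _ w' _ h
        funext i k j
        exact congrFun (congrFun (congrFun h k) i) j
    have h2 : (W.card : ℝ) ≤ Sb.ncard := by exact_mod_cast h1
    refine h2.trans (hSc.trans (le_of_eq ?_))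
    rw [hcardT]
    push_cast
    rw [← pow_mul]
    congr 2
    ring
  have hTV := hL1 L ((le_max_right _ _).trans hL) N hpos (Kmax + m) M (by
    push_cast
    linarith) hM a3 W
  have h1 := (abs_le.1 hTV).2
  have hq : (W.card : ℝ) / (M : ℝ) ^ (t * ((Kmax + m) * r)) ≤ C * ((K₁ : ℝ) ^ q)⁻¹ := by
    rw [div_le_iff₀ (by positivity)]
    exact hWc
  have hsub : {n : ℕ | N < n ∧ n ≤ N + L ∧ ¬ ∀ K : ℕ, K₁ ≤ K → (K : ℝ) ≤ X ^ δ →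
      ∀ D : Fin t → Fin r → Fin m → Fin M,
      |({k : ℕ | 1 ≤ k ∧ k ≤ K ∧ ∀ (i : Fin t) (j : Fin r) (h : Fin m),
          M * digit (bs f i n) (k + h) (α j) / bs f i n = (D i j h : ℕ)}.ncard : ℝ) -
          K * (1 / (M : ℝ) ^ (t * (r * m)))| ≤ (K : ℝ) ^ (1 / 2 + ε)} ⊆
      {n : ℕ | N < n ∧ n ≤ N + L ∧ ∃ w ∈ W, ∀ (i : Fin t) (k : Fin (Kmax + m)) (j : Fin r),
        M * digit (bs f i n) ((k : ℕ) + 2) (α j) / bs f i n = (w i k j : ℕ)} := by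
    rintro n ⟨hn1, hn2, hn3⟩
    refine ⟨hn1, hn2, ?_⟩
    push Not at hn3
    obtain ⟨K, hKa, hKb, D, hD⟩ := hn3
    have hbase : ∀ i, 1 ≤ bs f i n := fun i => by
      have := hpos n hn1 hn2 i
      unfold bs
      omega
    obtain ⟨w, hw⟩ : ∃ w : Fin t → Fin (Kmax + m) → Fin r → Fin M, w = fun i k j =>
      ⟨M * digit (bs f i n) ((k : ℕ) + 2) (α j) / bs f i n,
        (digit_class (k := (k : ℕ) + 1) (hbase i) hM (α j)).1⟩ := ⟨_, rfl⟩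
    refine ⟨w, ?_, fun i k j => by rw [hw]⟩
    rw [hW]
    simp only [mem_filter, mem_univ, true_and]
    rw [hSb]
    have hKK : K ≤ Kmax := Nat.le_floor hKb
    refine ⟨K, hKa, hKK, fun h i j => D i j h, ?_⟩
    have hcnt : cntB m K (fun h i j => D i j h) (fun k i j => w i k j) =
        {i₀ : ℕ | i₀ < K ∧ ∀ (i : Fin t) (j : Fin r) (h : Fin m),
          M * digit (bs f i n) (i₀ + 2 + h) (α j) / bs f i n = (D i j h : ℕ)}.ncard := by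
      unfold cntB
      congr 1
      ext i₀
      constructor
      · rintro ⟨h1, h2⟩
        refine ⟨h1, fun i j h => ?_⟩
        have hlt : i₀ + (h : ℕ) < Kmax + m := by
          have := h.2
          omega
        have h3 := congrArg Fin.val (congrFun (congrFun (h2 h hlt) i) j)
        rw [hw] at h3
        simp only at h3
        have e : i₀ + (h : ℕ) + 2 = i₀ + 2 + h := by omega
        rw [← h3, e]
      · rintro ⟨h1, h2⟩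
        refine ⟨h1, fun h hlt => ?_⟩
        funext i j
        apply Fin.ext
        rw [hw]
        simp only
        have e : i₀ + (h : ℕ) + 2 = i₀ + 2 + h := by omega
        rw [← h2 i j h, e]
    have hsh := shift_count K (fun k => ∀ (i : Fin t) (j : Fin r) (h : Fin m),
          M * digit (bs f i n) (k + h) (α j) / bs f i n = (D i j h : ℕ))
    rw [← hcnt] at hsh
    have hpw : (1 : ℝ) / (Fintype.card (Fin t → Fin r → Fin M) : ℝ) ^ m =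
        1 / (M : ℝ) ^ (t * (r * m)) := by
      rw [hcardT]
      push_cast
      rw [← pow_mul]
      congr 2
      ring
    rw [hpw]
    have hK4 : (4 : ℝ) ≤ K := by exact_mod_cast hK₁.trans hKa
    have hK2 : (2 : ℝ) ≤ (K : ℝ) ^ (1 / 2 + ε) := by
      calc (2 : ℝ) = (4 : ℝ) ^ ((1 : ℝ) / 2) := by
            rw [show (4 : ℝ) = 2 ^ (2 : ℝ) by norm_num, ← Real.rpow_mul (by norm_num)]
            norm_num
        _ ≤ (K : ℝ) ^ ((1 : ℝ) / 2) := Real.rpow_le_rpow (by norm_num) hK4 (by norm_num)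
        _ ≤ (K : ℝ) ^ (1 / 2 + ε) := Real.rpow_le_rpow_of_exponent_le (by linarith) (by linarith)
    obtain ⟨x, hx⟩ : ∃ x : ℝ, x = ({k : ℕ | 1 ≤ k ∧ k ≤ K ∧ ∀ (i : Fin t) (j : Fin r) (h : Fin m),
          M * digit (bs f i n) (k + h) (α j) / bs f i n = (D i j h : ℕ)}.ncard : ℝ) := ⟨_, rfl⟩
    rw [← hx] at hD hsh
    have h5 : |x - K * (1 / (M : ℝ) ^ (t * (r * m)))| ≤
        |x - (cntB m K (fun h i j => D i j h) (fun k i j => w i k j) : ℝ)| +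
        |(cntB m K (fun h i j => D i j h) (fun k i j => w i k j) : ℝ) -
          K * (1 / (M : ℝ) ^ (t * (r * m)))| := abs_sub_le _ _ _
    linarith
  have h2 := Set.ncard_le_ncard hsub ((Set.finite_Ioc N (N + L)).subset fun n hn => ⟨hn.1, hn.2.1⟩)
  have h3 : ({n : ℕ | N < n ∧ n ≤ N + L ∧ ¬ ∀ K : ℕ, K₁ ≤ K → (K : ℝ) ≤ X ^ δ →
      ∀ D : Fin t → Fin r → Fin m → Fin M,
      |({k : ℕ | 1 ≤ k ∧ k ≤ K ∧ ∀ (i : Fin t) (j : Fin r) (h : Fin m),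
          M * digit (bs f i n) (k + h) (α j) / bs f i n = (D i j h : ℕ)}.ncard : ℝ) -
          K * (1 / (M : ℝ) ^ (t * (r * m)))| ≤ (K : ℝ) ^ (1 / 2 + ε)}.ncard : ℝ) ≤ _ :=
    Nat.cast_le.2 h2
  refine h3.trans ?_
  have hL0 : (0 : ℝ) ≤ L := Nat.cast_nonneg L
  have h4 : (L : ℝ) * (W.card / (M : ℝ) ^ (t * ((Kmax + m) * r))) ≤ L * (C * ((K₁ : ℝ) ^ q)⁻¹) := by
    gcongr
  have h5 : (L : ℝ) * Real.exp (-(X ^ δ2)) ≤ L * Real.exp (-(X ^ δ)) := by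
    apply mul_le_mul_of_nonneg_left _ hL0
    apply Real.exp_le_exp.2
    have : (0 : ℝ) ≤ m := Nat.cast_nonneg m
    linarith
  linarith

theorem quant_box : ∃ δ1 : ℝ, 0 < δ1 ∧ ∀ δ : ℝ, 0 < δ → δ ≤ δ1 → ∀ (r t : ℕ) (α : Fin r → ℝ)
    (A c0 : ℝ), 1 ≤ A → 0 < c0 → Typ α A c0 → ∀ f : Fin t → ℤ[X], Indep f → ∀ ε : ℝ, 0 < ε →
    ∀ q : ℕ, ∃ (C : ℝ) (K₀ L₀ : ℕ), 0 ≤ C ∧ 1 ≤ K₀ ∧ ∀ L : ℕ, L₀ ≤ L → ∀ N : ℕ,
      (∀ n : ℕ, N < n → n ≤ N + L → ∀ i, 0 < (f i).eval (n : ℤ)) → ∀ K₁ : ℕ, K₀ ≤ K₁ →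
      ({n : ℕ | N < n ∧ n ≤ N + L ∧ ¬ ∀ K : ℕ, K₁ ≤ K → (K : ℝ) ≤ (Real.log L) ^ δ →
        ∀ u v : Fin t → Fin r → ℝ, (∀ i j, 0 ≤ u i j ∧ u i j ≤ v i j ∧ v i j ≤ 1) →
        |({k : ℕ | 1 ≤ k ∧ k ≤ K ∧ ∀ i j, u i j ≤ Int.fract (α j * (bs f i n : ℝ) ^ k) ∧
            Int.fract (α j * (bs f i n : ℝ) ^ k) < v i j}.ncard : ℝ) -
            K * ∏ i, ∏ j, (v i j - u i j)| ≤ (K : ℝ) ^ (1 / 2 + ε)}.ncard : ℝ) ≤
      L * (C * ((K₁ : ℝ) ^ q)⁻¹ + ((Real.log L) ^ δ + 1) * Real.exp (-((Real.log L) ^ δ))) := by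
  classical
  obtain ⟨δ2, hδ20, _, hmain⟩ := disc_one
  refine ⟨δ2, hδ20, fun δ hδ0 hδ2 r t α A c0 hA hc0 htyp f hf ε hε q => ?_⟩
  obtain ⟨C, K0, X0, hC0, hK01, hC⟩ := hmain r t α A c0 hA hc0 htyp f hf ε hε q
  obtain ⟨L0, hL0⟩ := exists_L (max X0 1)
  refine ⟨C * 2, K0, L0, by positivity, hK01, fun L hL N hpos K₁ hK₁ => ?_⟩
  have hXX := hL0 L hL
  have hX0 : X0 ≤ Real.log L := (le_max_left _ _).trans hXX
  have hX1 : 1 ≤ Real.log L := (le_max_right _ _).trans hXX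
  set X : ℝ := Real.log L with hX
  have hmono : X ^ δ ≤ X ^ δ2 := Real.rpow_le_rpow_of_exponent_le hX1 hδ2
  have hXd0 : 0 ≤ X ^ δ := Real.rpow_nonneg (by linarith) _
  set Kmax : ℕ := ⌊X ^ δ⌋₊ with hKmax
  have hKm : (Kmax : ℝ) ≤ X ^ δ := Nat.floor_le hXd0
  have hLR : (0 : ℝ) ≤ L := Nat.cast_nonneg L
  obtain ⟨Bad, hBad⟩ : ∃ Bad : ℕ → Finset ℕ, Bad = fun K => (Finset.Ioc N (N + L)).filter (fun n =>
      ¬ ∀ u v : Fin t × Fin r → ℝ, (∀ x, 0 ≤ u x) → (∀ x, u x ≤ v x) → (∀ x, v x ≤ 1) →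
      |((univ.filter (fun k : Fin K => ∀ x : Fin t × Fin r,
          u x ≤ Int.fract (yy f α n K (x.1, k, x.2)) ∧
          Int.fract (yy f α n K (x.1, k, x.2)) < v x)).card : ℝ) - K * ∏ x, (v x - u x)| ≤
        (K : ℝ) ^ (1 / 2 + ε)) := ⟨_, rfl⟩
  have hBadc : ∀ K ∈ Finset.Ioo (K₁ - 1) (Kmax + 1), ((Bad K).card : ℝ) ≤
      L * (C * ((K : ℝ) ^ (q + 2))⁻¹) + L * Real.exp (-(X ^ δ)) := by
    intro K hK
    rw [Finset.mem_Ioo] at hK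
    have hKX : (K : ℝ) ≤ X ^ δ2 := by
      have h1 : (K : ℝ) ≤ Kmax := by exact_mod_cast (by omega : K ≤ Kmax)
      linarith
    have h1 := hC L hX0 N K (by omega) hKX
    rw [hBad]
    refine le_trans (le_of_eq ?_) (h1.trans ?_)
    · rw [Nat.cast_inj]
    · have h2 : (L : ℝ) * Real.exp (-(X ^ δ2)) ≤ L * Real.exp (-(X ^ δ)) := by
        apply mul_le_mul_of_nonneg_left _ hLR
        apply Real.exp_le_exp.2
        linarith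
      linarith
  rw [ncard_Ioc]
  have hsub : (Finset.Ioc N (N + L)).filter (fun n => ¬ ∀ K : ℕ, K₁ ≤ K → (K : ℝ) ≤ X ^ δ →
        ∀ u v : Fin t → Fin r → ℝ, (∀ i j, 0 ≤ u i j ∧ u i j ≤ v i j ∧ v i j ≤ 1) →
        |({k : ℕ | 1 ≤ k ∧ k ≤ K ∧ ∀ i j, u i j ≤ Int.fract (α j * (bs f i n : ℝ) ^ k) ∧
            Int.fract (α j * (bs f i n : ℝ) ^ k) < v i j}.ncard : ℝ) -
            K * ∏ i, ∏ j, (v i j - u i j)| ≤ (K : ℝ) ^ (1 / 2 + ε)) ⊆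
      (Finset.Ioo (K₁ - 1) (Kmax + 1)).biUnion Bad := by
    intro n hn
    rw [mem_filter] at hn
    obtain ⟨hn1, hn2⟩ := hn
    have hn1' := Finset.mem_Ioc.1 hn1
    have h6 : ∀ i, ((bs f i n : ℕ) : ℝ) = (((f i).eval (n : ℤ) : ℤ) : ℝ) := by
      intro i
      have h7 := hpos n hn1'.1 hn1'.2 i
      have h8 : ((bs f i n : ℕ) : ℤ) = (f i).eval (n : ℤ) := by
        unfold bs
        exact Int.toNat_of_nonneg (by omega)
      rw [← h8]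
      push_cast
      rfl
    by_contra hcon
    apply hn2
    intro K hK1 hK2 u v huv
    by_contra hK3
    apply hcon
    rw [mem_biUnion]
    refine ⟨K, ?_, ?_⟩
    · rw [Finset.mem_Ioo]
      have : K ≤ Kmax := Nat.le_floor hK2
      omega
    · rw [hBad]
      simp only
      rw [mem_filter]
      refine ⟨hn1, fun hall => hK3 ?_⟩
      have h5 := hall (fun x => u x.1 x.2) (fun x => v x.1 x.2)
        (fun x => (huv x.1 x.2).1) (fun x => (huv x.1 x.2).2.1) (fun x => (huv x.1 x.2).2.2)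
      rw [Fintype.prod_prod_type] at h5
      refine le_trans (le_of_eq ?_) h5
      rw [ncard_Icc, card_Icc_eq]
      have h7 : univ.filter (fun k : Fin K => ∀ i j,
          u i j ≤ Int.fract (α j * (bs f i n : ℝ) ^ ((k : ℕ) + 1)) ∧
          Int.fract (α j * (bs f i n : ℝ) ^ ((k : ℕ) + 1)) < v i j) =
          univ.filter (fun k : Fin K => ∀ x : Fin t × Fin r,
          u x.1 x.2 ≤ Int.fract (yy f α n K (x.1, k, x.2)) ∧
          Int.fract (yy f α n K (x.1, k, x.2)) < v x.1 x.2) := by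
        refine Finset.filter_congr fun k _ => ?_
        constructor
        · intro h x
          have := h x.1 x.2
          rw [h6] at this
          exact this
        · intro h i j
          rw [h6]
          exact h (i, j)
      rw [h7]
  have h1 := (card_le_card hsub).trans card_biUnion_le
  refine le_trans (Nat.cast_le.2 h1) ?_
  rw [Nat.cast_sum]
  refine (Finset.sum_le_sum hBadc).trans ?_
  rw [Finset.sum_add_distrib, ← Finset.mul_sum, ← Finset.mul_sum, Finset.sum_const, nsmul_eq_mul]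
  have h4 := tail_q q K₁ (Kmax + 1) (by omega)
  have h6 : ((Finset.Ioo (K₁ - 1) (Kmax + 1)).card : ℝ) ≤ X ^ δ + 1 := by
    rw [Nat.card_Ioo]
    have : ((Kmax + 1 - (K₁ - 1) - 1 : ℕ) : ℝ) ≤ Kmax := by
      exact_mod_cast (by omega : Kmax + 1 - (K₁ - 1) - 1 ≤ Kmax)
    linarith
  calc (L : ℝ) * (C * ∑ K ∈ Finset.Ioo (K₁ - 1) (Kmax + 1), ((K : ℝ) ^ (q + 2))⁻¹) +
      ((Finset.Ioo (K₁ - 1) (Kmax + 1)).card : ℝ) * (L * Real.exp (-(X ^ δ)))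
      ≤ L * (C * (2 * ((K₁ : ℝ) ^ q)⁻¹)) + (X ^ δ + 1) * (L * Real.exp (-(X ^ δ))) := by gcongr
    _ = _ := by ring

/-- Both counts, with an explicit bound for the number of the bad bases. -/
theorem quant_all : ∃ δ : ℝ, 0 < δ ∧ ∀ (r t : ℕ) (α : Fin r → ℝ) (A c0 : ℝ), 1 ≤ A →
    0 < c0 → Typ α A c0 → ∀ f : Fin t → ℤ[X], Indep f → ∀ m M : ℕ, 1 ≤ m → 1 ≤ M → ∀ ε : ℝ, 0 < ε →
    ∀ q : ℕ, ∃ (C : ℝ) (K₀ L₀ : ℕ), 0 ≤ C ∧ 1 ≤ K₀ ∧ ∀ L : ℕ, L₀ ≤ L → ∀ N : ℕ,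
      (∀ n : ℕ, N < n → n ≤ N + L → ∀ i, 0 < (f i).eval (n : ℤ)) → ∀ K₁ : ℕ, K₀ ≤ K₁ →
      ({n : ℕ | N < n ∧ n ≤ N + L ∧ ¬ ∀ K : ℕ, K₁ ≤ K → (K : ℝ) ≤ (Real.log L) ^ δ →
        (∀ D : Fin t → Fin r → Fin m → Fin M,
        |({k : ℕ | 1 ≤ k ∧ k ≤ K ∧ ∀ (i : Fin t) (j : Fin r) (h : Fin m),
            M * digit (bs f i n) (k + h) (α j) / bs f i n = (D i j h : ℕ)}.ncard : ℝ) -
            K * (1 / (M : ℝ) ^ (t * (r * m)))| ≤ (K : ℝ) ^ (1 / 2 + ε)) ∧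
        (∀ u v : Fin t → Fin r → ℝ, (∀ i j, 0 ≤ u i j ∧ u i j ≤ v i j ∧ v i j ≤ 1) →
        |({k : ℕ | 1 ≤ k ∧ k ≤ K ∧ ∀ i j, u i j ≤ Int.fract (α j * (bs f i n : ℝ) ^ k) ∧
            Int.fract (α j * (bs f i n : ℝ) ^ k) < v i j}.ncard : ℝ) -
            K * ∏ i, ∏ j, (v i j - u i j)| ≤ (K : ℝ) ^ (1 / 2 + ε))}.ncard : ℝ) ≤
      L * (C * ((K₁ : ℝ) ^ q)⁻¹ + ((Real.log L) ^ δ + 2) * Real.exp (-((Real.log L) ^ δ))) := by
  obtain ⟨δ1, hδ10, h1⟩ := quant_blk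
  obtain ⟨δ2, hδ20, h2⟩ := quant_box
  have hδ0 : 0 < min δ1 δ2 := lt_min hδ10 hδ20
  refine ⟨min δ1 δ2, hδ0, ?_⟩
  intro r t α A c0 hA hc0 htyp f hf m M hm hM ε hε q
  obtain ⟨C1, L1, hC1, h3⟩ := h1 (min δ1 δ2) hδ0 (min_le_left _ _) r t α A c0 hA hc0 htyp f hf m M hm hM
    ε hε q
  obtain ⟨C2, K2, L2, hC2, hK2, h4⟩ := h2 (min δ1 δ2) hδ0 (min_le_right _ _) r t α A c0 hA hc0 htyp f hf
    ε hε q
  refine ⟨C1 + C2, max 4 K2, max L1 L2, by positivity, (le_trans (by norm_num) (le_max_left _ _)),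
    fun L hL N hpos K₁ hK₁ => ?_⟩
  have h5 := h3 L ((le_max_left _ _).trans hL) N hpos K₁ ((le_max_left _ _).trans hK₁)
  have h6 := h4 L ((le_max_right _ _).trans hL) N hpos K₁ ((le_max_right _ _).trans hK₁)
  have hfin : ∀ p : ℕ → Prop, {n : ℕ | N < n ∧ n ≤ N + L ∧ p n}.Finite := fun p =>
    (Set.finite_Ioc N (N + L)).subset fun n hn => ⟨hn.1, hn.2.1⟩
  refine le_trans (Nat.cast_le.2 ((Set.ncard_le_ncard ?_ ((hfin _).union (hfin _))).trans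
    (Set.ncard_union_le _ _))) (le_trans (le_of_eq (Nat.cast_add _ _)) ((add_le_add h5 h6).trans
      (le_of_eq ?_)))
  · rintro n ⟨g1, g2, g3⟩
    by_cases g4 : ∀ K : ℕ, K₁ ≤ K → (K : ℝ) ≤ (Real.log L) ^ (min δ1 δ2) →
        ∀ D : Fin t → Fin r → Fin m → Fin M,
        |({k : ℕ | 1 ≤ k ∧ k ≤ K ∧ ∀ (i : Fin t) (j : Fin r) (h : Fin m),
            M * digit (bs f i n) (k + h) (α j) / bs f i n = (D i j h : ℕ)}.ncard : ℝ) -
            K * (1 / (M : ℝ) ^ (t * (r * m)))| ≤ (K : ℝ) ^ (1 / 2 + ε)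
    · exact Or.inr ⟨g1, g2, fun g5 => g3 fun K a b => ⟨g4 K a b, g5 K a b⟩⟩
    · exact Or.inl ⟨g1, g2, g4⟩
  · ring

end Pool.Agent.J6H36.RB
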