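import Pool.Agent.Y951.TU.Main

set_option autoImplicit false

/-!
# From exponential sums to the joint distribution of fractional parts
-/

namespace Pool.Agent.J6H36.RB

open Finset MeasureTheory
open Pool.Agent.Y933.KD (e e_zero norm_e Leb ind)
open Pool.Agent.Y951.TU (lin lin_apply measurable_lin Cube hat hat_Cube unif unif_prob integral_unif
  real_unif test Ev integral_ind measurableSet_Ev)

/-- the standard basis -/
def sb (κ : ℕ) (i : Fin κ) : Fin κ → ℤ := fun j => if j = i then 1 else 0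

theorem lin_sb {κ : ℕ} (i : Fin κ) (x : Fin κ → ℝ) : lin κ (sb κ i) x = x i := by
  rw [lin_apply, Finset.sum_eq_single i]
  · simp [sb]
  · intro j _ hj
    simp [sb, hj]
  · intro h
    exact absurd (mem_univ i) h

theorem sum_sb {κ : ℕ} (h : Fin κ → ℤ) : ∑ i, h i • sb κ i = h := by
  funext j
  rw [Finset.sum_apply, Finset.sum_eq_single j]
  · simp [sb]
  · intro i _ hi
    simp [sb, hi.symm]
  · intro h
    exact absurd (mem_univ j) h

theorem Leb_Ico {u v : ℝ} (hu : 0 ≤ u) (huv : u ≤ v) (hv : v ≤ 1) :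
    (Leb {t : ℝ | u ≤ Int.fract t ∧ Int.fract t < v}).toReal = v - u := by
  have hm : MeasurableSet {t : ℝ | u ≤ Int.fract t ∧ Int.fract t < v} :=
    (measurableSet_le measurable_const measurable_fract).inter
      (measurableSet_lt measurable_fract measurable_const)
  unfold Pool.Agent.Y933.KD.Leb
  rw [Measure.restrict_apply hm]
  have h1 : {t : ℝ | u ≤ Int.fract t ∧ Int.fract t < v} ∩ Set.Ico 0 1 = Set.Ico u v := by
    ext t
    simp only [Set.mem_inter_iff, Set.mem_ofPred_eq, Set.mem_Ico]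
    constructor
    · rintro ⟨⟨h1, h2⟩, h3, h4⟩
      rw [Int.fract_eq_self.2 ⟨h3, h4⟩] at h1 h2
      exact ⟨h1, h2⟩
    · rintro ⟨h1, h2⟩
      rw [Int.fract_eq_self.2 ⟨hu.trans h1, h2.trans_le hv⟩]
      exact ⟨⟨h1, h2⟩, hu.trans h1, h2.trans_le hv⟩
  rw [h1, Real.volume_Ico, ENNReal.toReal_ofReal (by linarith)]

theorem Cube_Ev {κ : ℕ} (u v : Fin κ → ℝ) (hu : ∀ i, 0 ≤ u i) (huv : ∀ i, u i ≤ v i)
    (hv : ∀ i, v i ≤ 1) : (Cube κ).real (Ev (lin κ) (sb κ) u v) = ∏ i, (v i - u i) := by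
  have h1 : Ev (lin κ) (sb κ) u v =
      Set.univ.pi fun i => {t : ℝ | u i ≤ Int.fract t ∧ Int.fract t < v i} := by
    ext x
    simp only [Ev, lin_sb, Set.mem_pi, Set.mem_univ, forall_true_left, Set.mem_ofPred_eq]
  unfold Measure.real Pool.Agent.Y951.TU.Cube
  rw [h1, Measure.pi_pi, ENNReal.toReal_prod]
  exact Finset.prod_congr rfl fun i _ => Leb_Ico (hu i) (huv i) (hv i)

open Classical in
theorem box_count {κ K : ℕ} (hK : 0 < K) (s : Finset ℕ) (hs : s.Nonempty) (y : ℕ → Fin κ → ℝ)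
    (Δ : ℝ) (hΔ0 : 0 ≤ Δ)
    (hΔ : ∀ l : Fin κ → ℤ, l ≠ 0 → (∀ i, |l i| ≤ (K : ℤ) ^ 3) →
      ‖∑ n ∈ s, e (∑ i, (l i : ℝ) * y n i)‖ ≤ s.card * Δ)
    (u v : Fin κ → ℝ) (hu : ∀ i, 0 ≤ u i) (huv : ∀ i, u i ≤ v i) (hv : ∀ i, v i ≤ 1) :
    |((s.filter (fun n => ∀ i, u i ≤ Int.fract (y n i) ∧ Int.fract (y n i) < v i)).card : ℝ) / s.card -
      ∏ i, (v i - u i)| ≤ (2 * (K : ℝ) ^ 3 + 1) ^ κ * Δ + κ * (12 / K + 5 * Δ) := by
  have := unif_prob hs y
  have hcard : (0 : ℝ) < s.card := by exact_mod_cast hs.card_pos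
  have h1 := test hK (φ := lin κ) measurable_lin (unif s y) (Cube κ) (fun l hl => hat_Cube l hl)
    (sb κ) (fun i h hh h0 => by
      have := congrFun h0 i
      simp only [Pi.smul_apply, sb, if_true, smul_eq_mul, mul_one, Pi.zero_apply] at this
      exact hh this) Δ (fun h hh h0 => by
      rw [sum_sb] at h0 ⊢
      unfold hat
      rw [integral_unif, norm_mul]
      have h2 := hΔ h h0 hh
      simp only [lin_apply]
      have h3 : ‖(1 / (s.card : ℂ))‖ = 1 / s.card := by simp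
      rw [h3]
      calc 1 / (s.card : ℝ) * _ ≤ 1 / (s.card : ℝ) * (s.card * Δ) := by gcongr
        _ = Δ := by field_simp) hΔ0 u v hu hv
  rw [integral_ind measurable_lin, integral_ind measurable_lin, Cube_Ev u v hu huv hv,
    real_unif s y (measurableSet_Ev measurable_lin _ _ _)] at h1
  refine le_trans (le_of_eq ?_) h1
  have h5 : s.filter (fun n => y n ∈ Ev (lin κ) (sb κ) u v) =
      s.filter (fun n => ∀ i, u i ≤ Int.fract (y n i) ∧ Int.fract (y n i) < v i) := by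
    refine Finset.filter_congr fun n _ => ?_
    simp only [Ev, lin_sb, Set.mem_ofPred_eq]
  rw [h5]

end Pool.Agent.J6H36.RB
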