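import Pool.Agent.Helper983.SL.P_chernoff

set_option autoImplicit false
set_option maxHeartbeats 4000000

/-!
# Concentration for random words, counting form
-/

namespace Pool.Agent.J6H36.RB

open Finset

theorem exp_le_chord (x lam : ℝ) (h1 : -1 ≤ x) (h2 : x ≤ 1) :
    Real.exp (lam * x) ≤ Real.cosh lam + x * Real.sinh lam := by
  have hc := convexOn_exp.2 (Set.mem_univ (-lam)) (Set.mem_univ lam)
    (show 0 ≤ (1 - x) / 2 by linarith) (show 0 ≤ (1 + x) / 2 by linarith) (by ring)
  simp only [smul_eq_mul] at hc
  have e1 : (1 - x) / 2 * -lam + (1 + x) / 2 * lam = lam * x := by ring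
  rw [e1] at hc
  refine hc.trans (le_of_eq ?_)
  rw [Real.cosh_eq, Real.sinh_eq]
  ring

open Classical in
theorem words_dev {T : Type} [Fintype T] [Nonempty T] (K : ℕ) (hK : 1 ≤ K) (S : Finset T) (a : ℝ)
    (ha : 0 < a) :
    (((univ : Finset (Fin K → T)).filter (fun w => a <
      |((univ.filter (fun k => w k ∈ S)).card : ℝ) - K * (S.card / Fintype.card T)|)).card : ℝ) ≤
      2 * Real.exp (-(a ^ 2) / (2 * K)) * (Fintype.card T : ℝ) ^ K := by
  have hT : (0 : ℝ) < Fintype.card T := by exact_mod_cast Fintype.card_pos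
  set p : ℝ := S.card / Fintype.card T with hp
  have hSc : (S.card : ℝ) ≤ Fintype.card T := by exact_mod_cast card_le_univ S
  have hp0 : 0 ≤ p := by positivity
  have hp1 : p ≤ 1 := by rw [hp, div_le_one hT]; exact hSc
  have h1 := Pool.Agent.Helper983.SL.chernoff (ι := Fin K) (T := T) univ
    (by
      haveI : Nonempty (Fin K) := ⟨⟨0, hK⟩⟩
      exact univ_nonempty)
    (fun _ t => (if t ∈ S then 1 else 0) - p) (by
      intro i _ lam
      have h2 : ∀ t : T, Real.exp (lam * ((if t ∈ S then 1 else 0) - p)) ≤
          Real.cosh lam + ((if t ∈ S then 1 else 0) - p) * Real.sinh lam := by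
        intro t
        apply exp_le_chord
        · split_ifs <;> linarith
        · split_ifs <;> linarith
      refine (Finset.sum_le_sum fun t _ => h2 t).trans ?_
      rw [Finset.sum_add_distrib, ← Finset.sum_mul, Finset.sum_sub_distrib, Finset.sum_const,
        Finset.sum_const, card_univ, nsmul_eq_mul, nsmul_eq_mul]
      have h3 : ∑ t : T, (if t ∈ S then (1 : ℝ) else 0) = S.card := by
        rw [Finset.sum_ite_mem, univ_inter]
        simp
      have h4 : (S.card : ℝ) - Fintype.card T * p = 0 := by
        rw [hp]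
        field_simp
        ring
      rw [h3, h4, zero_mul, add_zero]
      exact mul_le_mul_of_nonneg_left (Real.cosh_le_exp_half_sq lam) hT.le) a ha
  rw [card_univ, Fintype.card_fin] at h1
  refine le_trans (le_of_eq ?_) h1
  rw [Nat.card_eq_fintype_card, Fintype.card_subtype]
  congr 2
  refine Finset.filter_congr fun w _ => ?_
  have h5 : ∑ i : Fin K, ((if w i ∈ S then (1 : ℝ) else 0) - p) =
      ((univ.filter (fun k => w k ∈ S)).card : ℝ) - K * p := by
    rw [Finset.sum_sub_distrib, Finset.sum_const, card_univ, Fintype.card_fin, nsmul_eq_mul,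
      Finset.sum_ite, Finset.sum_const_zero, add_zero, Finset.sum_const, nsmul_eq_mul, mul_one]
  rw [h5]

end Pool.Agent.J6H36.RB
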