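import Pool.Agent.Y951.TU.Dioph

set_option autoImplicit false

/-!
# The type of an independent tuple of algebraic numbers
-/

namespace Pool.Agent.J6H36.RB

open Finset

/-- the distance of integral linear forms to the integers is bounded below by a power -/
def Typ {r : ℕ} (α : Fin r → ℝ) (A c0 : ℝ) : Prop :=
  ∀ H : ℝ, 1 ≤ H → ∀ c : Fin r → ℤ, c ≠ 0 → (∀ j, |(c j : ℝ)| ≤ H) → ∀ p : ℤ,
    c0 ≤ H ^ A * |∑ j, (c j : ℝ) * α j - p|

theorem typ_of_alg {r : ℕ} (α : Fin r → ℝ) (halg : ∀ j, IsAlgebraic ℚ (α j))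
    (hind : ∀ c : Fin r → ℤ, c ≠ 0 → Irrational (∑ j, (c j : ℝ) * α j)) :
    ∃ A c0 : ℝ, 1 ≤ A ∧ 0 < c0 ∧ Typ α A c0 := by
  obtain ⟨η, hη, L0, h⟩ := Pool.Agent.Y951.TU.dioph α halg ∅ (by simp) 1 0 1 le_rfl one_pos
  refine ⟨max 1 (1 / η), Real.exp (-max L0 0), le_max_left _ _, Real.exp_pos _, ?_⟩
  intro H hH c hc hcH p
  have hlogH : 0 ≤ Real.log H := Real.log_nonneg hH
  set L : ℝ := max (max L0 0) (Real.log H / η) with hL
  have hL0 : L0 ≤ L := (le_max_left _ _).trans (le_max_left _ _)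
  have hL1 : 0 ≤ L := (le_max_right L0 0).trans (le_max_left _ _)
  have hL2 : Real.log H ≤ η * L := by
    have : Real.log H / η ≤ L := le_max_right _ _
    rw [div_le_iff₀ hη] at this
    linarith
  have hHe : H ≤ Real.exp (η * L) := by
    calc H = Real.exp (Real.log H) := (Real.exp_log (by linarith)).symm
      _ ≤ _ := Real.exp_le_exp.2 hL2
  have h1 := h L hL0 (fun _ => 1) (fun _ => c) (fun _ => 1) p
    (fun i => by
      refine ⟨one_ne_zero, ?_⟩
      simp)
    (fun i => by
      rw [zero_mul, Real.exp_zero]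
      simp)
    (fun i => by
      rw [Int.cast_one, abs_one]
      exact Real.one_le_exp (by positivity))
    (fun i j => (hcH j).trans hHe)
    (by simpa using hind c hc)
  have h2 : Real.exp (-(1 * L)) < |∑ j, (c j : ℝ) * α j - p| := by simpa using h1
  have h3 : Real.exp (-max L0 0) ≤ H ^ (max 1 (1 / η)) * Real.exp (-(1 * L)) := by
    have e1 : H ^ (max 1 (1 / η)) = Real.exp (Real.log H * max 1 (1 / η)) :=
      Real.rpow_def_of_pos (by linarith) _
    rw [e1, ← Real.exp_add]
    apply Real.exp_le_exp.2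
    have h4 : L ≤ max L0 0 + Real.log H / η := by
      rw [hL]
      apply max_le
      · have : 0 ≤ Real.log H / η := by positivity
        linarith
      · have := le_max_right L0 0
        linarith
    have h5 : Real.log H / η ≤ Real.log H * max 1 (1 / η) := by
      rw [div_eq_mul_one_div]
      exact mul_le_mul_of_nonneg_left (le_max_right _ _) hlogH
    linarith
  refine h3.trans ?_
  have h6 : (0 : ℝ) ≤ H ^ (max 1 (1 / η)) := Real.rpow_nonneg (by linarith) _
  exact mul_le_mul_of_nonneg_left h2.le h6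

end Pool.Agent.J6H36.RB
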