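import Pool.Agent.J6H36.RB.Weyl
import Pool.Agent.J6H36.RB.Typ
import Pool.Agent.J6H36.RB.Box

set_option autoImplicit false
set_option maxHeartbeats 4000000

/-!
# Exponential sums of integral combinations of the numbers `f i (n) ^ k α j`
-/

namespace Pool.Agent.J6H36.RB

open Finset Polynomial Filter
open Pool.Agent.Y957.VK (dz)
open Pool.Agent.Y933.KD (e e_add norm_e e_zero sum_e_le)

/-- there is no nontrivial relation `∑ P i (f i (X)) = const` -/
def Indep {t : ℕ} (f : Fin t → ℤ[X]) : Prop :=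
  ∀ P : Fin t → ℤ[X], (∑ i, (P i).comp (f i)).natDegree = 0 → ∀ i, (P i).natDegree = 0

theorem coeff_pow_le (f : ℤ[X]) : ∃ B : ℕ, 1 ≤ B ∧ ∀ k n : ℕ, |((f ^ k).coeff n : ℝ)| ≤ (B : ℝ) ^ k := by
  refine ⟨(∑ m ∈ Finset.range (f.natDegree + 1), (f.coeff m).natAbs) + 1, by omega, fun k => ?_⟩
  set B : ℕ := (∑ m ∈ Finset.range (f.natDegree + 1), (f.coeff m).natAbs) + 1 with hB
  have hsum : ∀ n : ℕ, ∑ a ∈ Finset.range (n + 1), |(f.coeff a : ℝ)| ≤ B := by
    intro n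
    have h1 : ∑ a ∈ Finset.range (n + 1), |(f.coeff a : ℝ)| ≤
        ∑ a ∈ Finset.range (f.natDegree + 1), |(f.coeff a : ℝ)| := by
      rw [← Finset.sum_filter_add_sum_filter_not (Finset.range (n + 1)) (fun a => a ≤ f.natDegree)]
      have h2 : ∑ a ∈ (Finset.range (n + 1)).filter (fun a => ¬ a ≤ f.natDegree), |(f.coeff a : ℝ)| = 0 := by
        refine Finset.sum_eq_zero fun a ha => ?_
        rw [mem_filter, not_le] at ha
        rw [coeff_eq_zero_of_natDegree_lt ha.2]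
        simp
      rw [h2, add_zero]
      refine Finset.sum_le_sum_of_subset_of_nonneg ?_ fun _ _ _ => abs_nonneg _
      intro a ha
      rw [mem_filter] at ha
      rw [Finset.mem_range]
      omega
    refine h1.trans ?_
    rw [hB]
    push_cast
    have h3 : ∀ a, |(f.coeff a : ℝ)| = ((f.coeff a).natAbs : ℝ) := fun a => by
      rw [Nat.cast_natAbs, Int.cast_abs]
    simp only [h3]
    linarith
  induction k with
  | zero =>
    intro n
    rw [pow_zero, pow_zero, coeff_one]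
    split_ifs <;> simp
  | succ k ih =>
    intro n
    rw [pow_succ', coeff_mul, Finset.Nat.sum_antidiagonal_eq_sum_range_succ_mk]
    push_cast
    refine (Finset.abs_sum_le_sum_abs _ _).trans ?_
    have h1 : ∀ a ∈ Finset.range (n + 1), |(f.coeff a : ℝ) * ((f ^ k).coeff (n - a) : ℝ)| ≤
        |(f.coeff a : ℝ)| * (B : ℝ) ^ k := by
      intro a _
      rw [abs_mul]
      exact mul_le_mul_of_nonneg_left (ih _) (abs_nonneg _)
    refine (Finset.sum_le_sum h1).trans ?_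
    rw [← Finset.sum_mul, pow_succ']
    exact mul_le_mul_of_nonneg_right (hsum n) (by positivity)

/-- the polynomial with the coefficients `l i k` -/
noncomputable def Gp {t : ℕ} (f : Fin t → ℤ[X]) (K : ℕ) (l : Fin t → Fin K → ℤ) : ℤ[X] :=
  ∑ i, ∑ k : Fin K, C (l i k) * f i ^ ((k : ℕ) + 1)

theorem Gp_deg {t : ℕ} {f : Fin t → ℤ[X]} (hf : Indep f) (K : ℕ) (l : Fin t → Fin K → ℤ)
    (hl : l ≠ 0) : 1 ≤ (Gp f K l).natDegree := by
  by_contra hcon
  have h0 : (Gp f K l).natDegree = 0 := by omega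
  obtain ⟨i, hi⟩ := Function.ne_iff.1 hl
  obtain ⟨k, hk⟩ := Function.ne_iff.1 hi
  have h1 := hf (fun i => ∑ k : Fin K, C (l i k) * X ^ ((k : ℕ) + 1)) (by
    rw [← h0]
    congr 1
    unfold Gp
    refine Finset.sum_congr rfl fun i _ => ?_
    have hc : ∀ p : ℤ[X], p.comp (f i) = (compRingHom (f i)) p := fun p => rfl
    rw [hc, map_sum]
    refine Finset.sum_congr rfl fun k _ => ?_
    rw [← hc, mul_comp, C_comp, pow_comp, X_comp]) i
  have h2 : (∑ k : Fin K, C (l i k) * (X : ℤ[X]) ^ ((k : ℕ) + 1)).coeff ((k : ℕ) + 1) = l i k := by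
    rw [finsetSum_coeff, Finset.sum_eq_single k]
    · rw [coeff_C_mul, coeff_X_pow, if_pos rfl, mul_one]
    · intro k' _ hk'
      rw [coeff_C_mul, coeff_X_pow, if_neg, mul_zero]
      intro h
      exact hk' (Fin.ext (by omega))
    · intro h
      exact absurd (mem_univ k) h
  have h3 : (∑ k : Fin K, C (l i k) * (X : ℤ[X]) ^ ((k : ℕ) + 1)).coeff ((k : ℕ) + 1) = 0 :=
    coeff_eq_zero_of_natDegree_lt (by rw [h1]; omega)
  rw [h2] at h3
  exact hk h3

theorem Gp_natDegree_le {t : ℕ} {f : Fin t → ℤ[X]} {g : ℕ} (hg : ∀ i, (f i).natDegree ≤ g) (K : ℕ)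
    (l : Fin t → Fin K → ℤ) : (Gp f K l).natDegree ≤ g * K := by
  unfold Gp
  refine natDegree_sum_le_of_forall_le _ _ fun i _ => natDegree_sum_le_of_forall_le _ _ fun k _ => ?_
  refine (natDegree_C_mul_le _ _).trans (natDegree_pow_le.trans ?_)
  have h1 : (k : ℕ) + 1 ≤ K := k.2
  calc ((k : ℕ) + 1) * (f i).natDegree ≤ K * g := Nat.mul_le_mul h1 (hg i)
    _ = g * K := mul_comm _ _

theorem Gp_coeff_le {t : ℕ} {f : Fin t → ℤ[X]} {B : ℕ} (hB1 : 1 ≤ B)
    (hB : ∀ i, ∀ k n : ℕ, |((f i ^ k).coeff n : ℝ)| ≤ (B : ℝ) ^ k) (K : ℕ)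
    (l : Fin t → Fin K → ℤ) (H : ℝ) (hl : ∀ i k, |(l i k : ℝ)| ≤ H) (n : ℕ) :
    |((Gp f K l).coeff n : ℝ)| ≤ t * (K * (H * (B : ℝ) ^ K)) := by
  have hBR : (1 : ℝ) ≤ B := by exact_mod_cast hB1
  unfold Gp
  rw [finsetSum_coeff]
  push_cast
  refine (Finset.abs_sum_le_sum_abs _ _).trans ?_
  have h1 : ∀ i ∈ (univ : Finset (Fin t)),
      |(((∑ k : Fin K, C (l i k) * f i ^ ((k : ℕ) + 1)).coeff n : ℤ) : ℝ)| ≤ K * (H * (B : ℝ) ^ K) := by
    intro i _
    rw [finsetSum_coeff]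
    push_cast
    refine (Finset.abs_sum_le_sum_abs _ _).trans ?_
    have h2 : ∀ k ∈ (univ : Finset (Fin K)),
        |(((C (l i k) * f i ^ ((k : ℕ) + 1)).coeff n : ℤ) : ℝ)| ≤ H * (B : ℝ) ^ K := by
      intro k _
      rw [coeff_C_mul]
      push_cast
      rw [abs_mul]
      have h3 : (B : ℝ) ^ ((k : ℕ) + 1) ≤ (B : ℝ) ^ K := pow_le_pow_right₀ hBR k.2
      exact mul_le_mul (hl i k) ((hB i _ _).trans h3) (abs_nonneg _)
        ((abs_nonneg _).trans (hl i k))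
    refine (Finset.sum_le_sum h2).trans ?_
    rw [Finset.sum_const, card_univ, Fintype.card_fin, nsmul_eq_mul]
  refine (Finset.sum_le_sum h1).trans ?_
  rw [Finset.sum_const, card_univ, Fintype.card_fin, nsmul_eq_mul]

/-- the real polynomial `∑ α j G j` -/
noncomputable def Fp {t r : ℕ} (f : Fin t → ℤ[X]) (α : Fin r → ℝ) (K : ℕ)
    (l : Fin t → Fin K → Fin r → ℤ) : ℝ[X] :=
  ∑ j, C (α j) * (Gp f K fun i k => l i k j).map (Int.castRingHom ℝ)

theorem Fp_eval {t r : ℕ} (f : Fin t → ℤ[X]) (α : Fin r → ℝ) (K : ℕ)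
    (l : Fin t → Fin K → Fin r → ℤ) (n : ℕ) :
    (Fp f α K l).eval (n : ℝ) =
      ∑ i, ∑ k : Fin K, ∑ j, (l i k j : ℝ) * (α j * (((f i).eval (n : ℤ) : ℤ) : ℝ) ^ ((k : ℕ) + 1)) := by
  unfold Fp
  rw [eval_finsetSum]
  have h1 : ∀ j ∈ (univ : Finset (Fin r)), (C (α j) * (Gp f K fun i k => l i k j).map
      (Int.castRingHom ℝ)).eval (n : ℝ) = ∑ i, ∑ k : Fin K,
      (l i k j : ℝ) * (α j * (((f i).eval (n : ℤ) : ℤ) : ℝ) ^ ((k : ℕ) + 1)) := by
    intro j _
    rw [eval_mul, eval_C]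
    have h2 : ((Gp f K fun i k => l i k j).map (Int.castRingHom ℝ)).eval (n : ℝ) =
        (((Gp f K fun i k => l i k j).eval (n : ℤ) : ℤ) : ℝ) := by
      have h3 : ((n : ℝ)) = ((n : ℤ) : ℝ) := by norm_cast
      rw [h3, eval_intCast_map]
      rfl
    rw [h2]
    unfold Gp
    rw [eval_finsetSum]
    push_cast
    rw [Finset.mul_sum]
    refine Finset.sum_congr rfl fun i _ => ?_
    rw [eval_finsetSum]
    push_cast
    rw [Finset.mul_sum]
    refine Finset.sum_congr rfl fun k _ => ?_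
    rw [eval_mul, eval_C, eval_pow]
    push_cast
    ring
  rw [Finset.sum_congr rfl h1, Finset.sum_comm]
  refine Finset.sum_congr rfl fun i _ => ?_
  rw [Finset.sum_comm]

theorem Fp_coeff {t r : ℕ} (f : Fin t → ℤ[X]) (α : Fin r → ℝ) (K : ℕ)
    (l : Fin t → Fin K → Fin r → ℤ) (n : ℕ) :
    (Fp f α K l).coeff n = ∑ j, ((Gp f K fun i k => l i k j).coeff n : ℝ) * α j := by
  unfold Fp
  rw [finsetSum_coeff]
  refine Finset.sum_congr rfl fun j _ => ?_
  rw [coeff_C_mul, coeff_map]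
  simp [mul_comm]

end Pool.Agent.J6H36.RB
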