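import Pool.Agent.J6H36.RB.Comb

set_option autoImplicit false
set_option maxHeartbeats 4000000

/-!
# Exponential sums of integral combinations of the numbers `f i (n) ^ k α j`: the bound
-/

namespace Pool.Agent.J6H36.RB

open Finset Polynomial Filter
open Pool.Agent.Y957.VK (dz)
open Pool.Agent.Y933.KD (e e_add norm_e e_zero sum_e_le)

theorem ev_comb (δ : ℝ) (hδ : 0 < δ) (hδ1 : δ ≤ 1 / 48) (g a A b : ℝ) (hA : 0 ≤ A) (hb : 0 ≤ b) :
    ∀ᶠ X : ℝ in atTop, g ≤ X ^ δ ∧ 4 * Real.sqrt X ≤ X ∧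
    a + A * (X ^ δ + X ^ (1 / 4 : ℝ) + X ^ δ * b) ≤ Real.sqrt X := by
  have t1 : Tendsto (fun X : ℝ => X ^ δ) atTop atTop := tendsto_rpow_atTop hδ
  have t2 : Tendsto (fun X : ℝ => X ^ (1 / 4 : ℝ)) atTop atTop := tendsto_rpow_atTop (by norm_num)
  filter_upwards [eventually_ge_atTop (16 : ℝ), t1.eventually_ge_atTop g,
    t2.eventually_ge_atTop (|a| + A * (2 + b))] with X hX h1 h2
  have hX0 : 0 ≤ X := by linarith
  have hX1 : 1 ≤ X := by linarith
  refine ⟨h1, ?_, ?_⟩
  · have hs := Real.sq_sqrt hX0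
    have hs0 : 0 ≤ Real.sqrt X := Real.sqrt_nonneg X
    have : 4 ≤ Real.sqrt X := Real.le_sqrt_of_sq_le (by linarith)
    nlinarith
  · have h3 : X ^ δ ≤ X ^ (1 / 4 : ℝ) := Real.rpow_le_rpow_of_exponent_le hX1 (by linarith)
    have h4 : X ^ (1 / 4 : ℝ) * X ^ (1 / 4 : ℝ) = Real.sqrt X := by
      rw [Real.sqrt_eq_rpow, ← Real.rpow_add (by linarith)]
      norm_num
    have h5 : 1 ≤ X ^ (1 / 4 : ℝ) := Real.one_le_rpow hX1 (by norm_num)
    have h6 : a ≤ |a| * X ^ (1 / 4 : ℝ) := by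
      have := le_abs_self a
      have := abs_nonneg a
      nlinarith
    have h7 : A * (X ^ δ + X ^ (1 / 4 : ℝ) + X ^ δ * b) ≤ A * (2 + b) * X ^ (1 / 4 : ℝ) := by
      have h8 : X ^ δ * b ≤ X ^ (1 / 4 : ℝ) * b := mul_le_mul_of_nonneg_right h3 hb
      have h9 : X ^ δ + X ^ (1 / 4 : ℝ) + X ^ δ * b ≤ (2 + b) * X ^ (1 / 4 : ℝ) := by linarith
      calc _ ≤ A * ((2 + b) * X ^ (1 / 4 : ℝ)) := mul_le_mul_of_nonneg_left h9 hA
        _ = _ := by ring
    calc a + A * (X ^ δ + X ^ (1 / 4 : ℝ) + X ^ δ * b)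
        ≤ (|a| + A * (2 + b)) * X ^ (1 / 4 : ℝ) := by linarith
      _ ≤ X ^ (1 / 4 : ℝ) * X ^ (1 / 4 : ℝ) := by gcongr
      _ = _ := h4

theorem comb_bound : ∃ δ : ℝ, 0 < δ ∧ δ ≤ 1 / 48 ∧ ∀ (r t : ℕ) (α : Fin r → ℝ) (A c0 : ℝ), 1 ≤ A →
    0 < c0 → Typ α A c0 → ∀ f : Fin t → ℤ[X], Indep f → ∃ X0 : ℝ, ∀ L : ℕ, X0 ≤ Real.log L →
    ∀ (N K : ℕ) (H : ℝ), (K : ℝ) ≤ (Real.log L) ^ δ → 1 ≤ H →
    Real.log H ≤ (Real.log L) ^ (1 / 4 : ℝ) → ∀ l : Fin t → Fin K → Fin r → ℤ, l ≠ 0 →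
    (∀ i k j, |(l i k j : ℝ)| ≤ H) →
    ‖∑ n ∈ Finset.Ioc N (N + L), e (∑ i, ∑ k : Fin K, ∑ j,
      (l i k j : ℝ) * (α j * (((f i).eval (n : ℤ) : ℤ) : ℝ) ^ ((k : ℕ) + 1)))‖ ≤
      L * Real.exp (-Real.sqrt (Real.log L)) := by
  obtain ⟨δw, hδw0, hδw1, hweyl⟩ := weyl_win
  refine ⟨δw / 2, by linarith, by linarith, ?_⟩
  intro r t α A c0 hA hc0 htyp f hf
  obtain ⟨X1, hX1⟩ := hweyl A hA
  -- the constants of the polynomials
  obtain ⟨g, hg⟩ : ∃ g : ℕ, ∀ i, (f i).natDegree ≤ g :=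
    ⟨∑ i, (f i).natDegree, fun i => Finset.single_le_sum (f := fun i => (f i).natDegree)
      (fun _ _ => Nat.zero_le _) (mem_univ i)⟩
  choose B0 hB01 hB0 using fun i => coeff_pow_le (f i)
  obtain ⟨B, hB1, hB⟩ : ∃ B : ℕ, 1 ≤ B ∧ ∀ i, ∀ k n : ℕ, |((f i ^ k).coeff n : ℝ)| ≤ (B : ℝ) ^ k := by
    refine ⟨∑ i, B0 i + 1, by omega, fun i k n => (hB0 i k n).trans ?_⟩
    apply pow_le_pow_left₀ (Nat.cast_nonneg _)
    have : B0 i ≤ ∑ i, B0 i := Finset.single_le_sum (f := B0) (fun _ _ => Nat.zero_le _) (mem_univ i)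
    exact_mod_cast (by omega : B0 i ≤ ∑ i, B0 i + 1)
  have hBR : (1 : ℝ) ≤ B := by exact_mod_cast hB1
  have hlogB : 0 ≤ Real.log B := Real.log_nonneg hBR
  obtain ⟨X2, hX2⟩ := eventually_atTop.1 (ev_comb (δw / 2) (by linarith) (by linarith) g
    (-Real.log c0 + A * Real.log (t + 1)) A (Real.log B) (by linarith) hlogB)
  refine ⟨max (max X1 X2) 1, ?_⟩
  intro L hL N K H hK hH hlogH l hl hlH
  obtain ⟨b1, b2, b3⟩ := hX2 _ (((le_max_right X1 X2).trans (le_max_left _ _)).trans hL)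
  have hLX1 : X1 ≤ Real.log L := ((le_max_left X1 X2).trans (le_max_left _ _)).trans hL
  have hX11 : 1 ≤ Real.log L := (le_max_right _ _).trans hL
  set X : ℝ := Real.log L with hX
  have hL0 : (0 : ℝ) < L := by
    by_contra hcon
    have : (L : ℝ) = 0 := le_antisymm (not_lt.1 hcon) (Nat.cast_nonneg _)
    rw [hX, this, Real.log_zero] at hX11
    linarith
  -- the polynomial
  obtain ⟨j0, hj0⟩ : ∃ j, (fun i k => l i k j) ≠ 0 := by
    by_contra hcon
    push Not at hcon
    apply hl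
    funext i k j
    exact congrFun (congrFun (hcon j) i) k
  set d : ℕ := univ.sup fun j => (Gp f K fun i k => l i k j).natDegree with hd
  have hdj : ∀ j, (Gp f K fun i k => l i k j).natDegree ≤ d := fun j =>
    Finset.le_sup (f := fun j => (Gp f K fun i k => l i k j).natDegree) (mem_univ j)
  have hd1 : 1 ≤ d := (Gp_deg hf K _ hj0).trans (hdj j0)
  have hdg : d ≤ g * K := Finset.sup_le fun j _ => Gp_natDegree_le hg K _
  set c : Fin r → ℤ := fun j => (Gp f K fun i k => l i k j).coeff d with hc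
  have hc0' : c ≠ 0 := by
    obtain ⟨j1, _, hj1⟩ := Finset.exists_mem_eq_sup univ ⟨j0, mem_univ j0⟩
      (fun j => (Gp f K fun i k => l i k j).natDegree)
    intro h
    have h1 := congrFun h j1
    simp only [hc, Pi.zero_apply] at h1
    rw [hd, hj1, coeff_natDegree, leadingCoeff_eq_zero] at h1
    rw [← hd] at hj1
    rw [h1, natDegree_zero] at hj1
    omega
  set θ : ℝ := ∑ j, (c j : ℝ) * α j with hθ
  have hFd : (Fp f α K l).coeff d = θ := Fp_coeff f α K l d
  have hFle : (Fp f α K l).natDegree ≤ d := by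
    unfold Fp
    refine natDegree_sum_le_of_forall_le _ _ fun j _ => ?_
    refine (natDegree_C_mul_le _ _).trans ?_
    exact (natDegree_map_le).trans (hdj j)
  -- the size of the coefficients
  set Q : ℝ := Real.exp (Real.log (t + 1) + K + Real.log H + K * Real.log B) with hQ
  have hlogt : 0 ≤ Real.log ((t : ℝ) + 1) := Real.log_nonneg (by
    have : (0 : ℝ) ≤ t := Nat.cast_nonneg t
    linarith)
  have hlogH0 : 0 ≤ Real.log H := Real.log_nonneg hH
  have hK0 : (0 : ℝ) ≤ K := Nat.cast_nonneg K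
  have hQ1 : 1 ≤ Q := Real.one_le_exp (by positivity)
  have hcQ : ∀ j, |(c j : ℝ)| ≤ Q := by
    intro j
    refine (Gp_coeff_le hB1 hB K (fun i k => l i k j) H (fun i k => hlH i k j) d).trans ?_
    rw [hQ, Real.exp_add, Real.exp_add, Real.exp_add, Real.exp_log (by positivity),
      Real.exp_log (by linarith), Real.exp_nat_mul, Real.exp_log (by linarith)]
    have h1 : (t : ℝ) ≤ t + 1 := by linarith
    have h2 : (K : ℝ) ≤ Real.exp K := by
      have := Real.add_one_le_exp (K : ℝ)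
      linarith
    calc (t : ℝ) * (K * (H * (B : ℝ) ^ K)) ≤ ((t : ℝ) + 1) * (Real.exp K * (H * (B : ℝ) ^ K)) := by
          gcongr
      _ = _ := by ring
  have hQA : Real.exp (-Real.sqrt X) * Q ^ A ≤ c0 := by
    have h1 : Q ^ A = Real.exp (A * (Real.log (t + 1) + K + Real.log H + K * Real.log B)) := by
      rw [hQ, ← Real.exp_mul]
      congr 1
      ring
    rw [h1, ← Real.exp_add]
    calc Real.exp (-Real.sqrt X + A * (Real.log (t + 1) + K + Real.log H + K * Real.log B))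
        ≤ Real.exp (Real.log c0) := by
          apply Real.exp_le_exp.2
          have h2 : K * Real.log B ≤ X ^ (δw / 2) * Real.log B :=
            mul_le_mul_of_nonneg_right hK hlogB
          have h3 : A * (Real.log (t + 1) + K + Real.log H + K * Real.log B) ≤
              A * (Real.log (t + 1) + X ^ (δw / 2) + X ^ (1 / 4 : ℝ) + X ^ (δw / 2) * Real.log B) := by
            apply mul_le_mul_of_nonneg_left _ (by linarith)
            linarith
          nlinarith
      _ = c0 := Real.exp_log hc0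
  have hdio : ∀ u : ℤ, u ≠ 0 → ∀ p : ℤ, Real.exp (-Real.sqrt X) ≤ |(u : ℝ)| ^ A * |θ * u - p| := by
    intro u hu p
    have hu1 : (1 : ℝ) ≤ |(u : ℝ)| := by
      have := Int.one_le_abs hu
      exact_mod_cast this
    have h1 := htyp (|(u : ℝ)| * Q) (one_le_mul_of_one_le_of_one_le hu1 hQ1) (fun j => u * c j) (by
      intro h
      apply hc0'
      funext j
      have := congrFun h j
      simp only [Pi.zero_apply, mul_eq_zero] at this
      exact this.resolve_left hu) (fun j => by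
      push_cast
      rw [abs_mul]
      exact mul_le_mul_of_nonneg_left (hcQ j) (abs_nonneg _)) p
    have h2 : ∑ j, ((u * c j : ℤ) : ℝ) * α j = θ * u := by
      rw [hθ, Finset.sum_mul]
      refine Finset.sum_congr rfl fun j _ => ?_
      push_cast
      ring
    rw [h2, Real.mul_rpow (by positivity) (by linarith)] at h1
    have hQpos : 0 < Q ^ A := Real.rpow_pos_of_pos (by linarith) _
    have h3 : Real.exp (-Real.sqrt X) * Q ^ A ≤ |(u : ℝ)| ^ A * |θ * u - p| * Q ^ A := by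
      calc _ ≤ c0 := hQA
        _ ≤ _ := h1.trans (le_of_eq (by ring))
    exact le_of_mul_le_mul_right h3 hQpos
  have hθ0 : θ ≠ 0 := by
    intro h
    have := hdio 1 one_ne_zero 0
    rw [h] at this
    simp at this
    linarith [Real.exp_pos (-Real.sqrt X)]
  have hFdeg : (Fp f α K l).natDegree = d :=
    le_antisymm hFle (le_natDegree_of_ne_zero (by rw [hFd]; exact hθ0))
  have hsum : ∑ n ∈ Finset.Ioc N (N + L), e (∑ i, ∑ k : Fin K, ∑ j,
      (l i k j : ℝ) * (α j * (((f i).eval (n : ℤ) : ℤ) : ℝ) ^ ((k : ℕ) + 1))) =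
      ∑ n ∈ Finset.Ioc N (N + L), e ((Fp f α K l).eval (n : ℝ)) := by
    refine Finset.sum_congr rfl fun n _ => ?_
    rw [Fp_eval]
  rw [hsum]
  rcases Nat.lt_or_ge d 2 with hd2 | hd2
  · -- degree one
    have hd1' : d = 1 := by omega
    rw [hd1'] at hFd hFdeg
    have h1 : ∀ n : ℕ, (Fp f α K l).eval (n : ℝ) = θ * n + (Fp f α K l).coeff 0 := by
      intro n
      rw [eval_eq_sum_range' (show (Fp f α K l).natDegree < 2 by omega), Finset.sum_range_succ,
        Finset.sum_range_one, hFd]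
      ring
    have h2 : ∑ n ∈ Finset.Ioc N (N + L), e ((Fp f α K l).eval (n : ℝ)) =
        e (θ * N + (Fp f α K l).coeff 0) * ∑ m ∈ Finset.Icc 1 L, e (m * θ) := by
      rw [Finset.mul_sum]
      symm
      refine Finset.sum_bij (fun m _ => N + m) ?_ ?_ ?_ ?_
      · intro m hm
        rw [Finset.mem_Icc] at hm
        rw [Finset.mem_Ioc]
        omega
      · intro m _ m' _ h
        exact Nat.add_left_cancel h
      · intro n hn
        rw [Finset.mem_Ioc] at hn
        exact ⟨n - N, by rw [Finset.mem_Icc]; omega, by omega⟩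
      · intro m _
        rw [h1, ← e_add]
        congr 1
        push_cast
        ring
    have h3 := sum_e_le L (α := θ) (Real.exp_pos (-Real.sqrt X)) (fun p => by
      have := hdio 1 one_ne_zero p
      simpa using this)
    rw [h2, norm_mul, norm_e, one_mul]
    refine h3.trans ?_
    have h4 : (L : ℝ) = Real.exp X := by rw [hX, Real.exp_log hL0]
    rw [h4, ← Real.exp_add, div_le_iff₀ (by positivity)]
    have h5 : Real.exp (X + -Real.sqrt X) * (2 * Real.exp (-Real.sqrt X)) =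
        2 * Real.exp (X - 2 * Real.sqrt X) := by
      have : Real.exp (X - 2 * Real.sqrt X) = Real.exp (X + -Real.sqrt X) * Real.exp (-Real.sqrt X) := by
        rw [← Real.exp_add]
        congr 1
        ring
      rw [this]
      ring
    rw [h5]
    have h6 : 1 ≤ Real.exp (X - 2 * Real.sqrt X) := Real.one_le_exp (by linarith [Real.sqrt_nonneg X])
    linarith
  · refine hX1 L hLX1 N d (Fp f α K l) hd2 ?_ hFdeg ?_
    · have h1 : (d : ℝ) ≤ g * K := by exact_mod_cast hdg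
      have h2 : X ^ (δw / 2) * X ^ (δw / 2) = X ^ δw := by
        rw [← Real.rpow_add (by linarith)]
        congr 1
        ring
      calc (d : ℝ) ≤ g * K := h1
        _ ≤ X ^ (δw / 2) * X ^ (δw / 2) := mul_le_mul b1 hK hK0 (Real.rpow_nonneg (by linarith) _)
        _ = X ^ δw := h2
    · intro u hu
      rw [hFd]
      exact hdio u hu (round (θ * u))

end Pool.Agent.J6H36.RB
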