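import Mathlib

set_option autoImplicit false

/-!
# Sets of density one
-/

namespace Pool.Agent.J6H36.RB

/-- almost all natural numbers are in `S` -/
def Dens (S : Set ℕ) : Prop :=
  ∀ η : ℝ, 0 < η → ∃ X₀ : ℕ, ∀ X : ℕ, X₀ ≤ X → ({n : ℕ | n ≤ X ∧ n ∉ S}.ncard : ℝ) ≤ η * X

theorem dens_inter {A B : Set ℕ} (hA : Dens A) (hB : Dens B) : Dens (A ∩ B) := by
  intro η hη
  obtain ⟨X1, h1⟩ := hA (η / 2) (by positivity)
  obtain ⟨X2, h2⟩ := hB (η / 2) (by positivity)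
  refine ⟨max X1 X2, fun X hX => ?_⟩
  have h3 := h1 X ((le_max_left _ _).trans hX)
  have h4 := h2 X ((le_max_right _ _).trans hX)
  have h5 : {n : ℕ | n ≤ X ∧ n ∉ A ∩ B}.ncard ≤ {n : ℕ | n ≤ X ∧ n ∉ A}.ncard +
      {n : ℕ | n ≤ X ∧ n ∉ B}.ncard := by
    refine le_trans (Set.ncard_le_ncard ?_ ?_) (Set.ncard_union_le _ _)
    · rintro n ⟨h6, h7⟩
      by_cases h8 : n ∈ A
      · exact Or.inr ⟨h6, fun h9 => h7 ⟨h8, h9⟩⟩
      · exact Or.inl ⟨h6, h8⟩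
    · exact (Set.finite_Iic X).subset (by
        rintro n (h6 | h6)
        · exact h6.1
        · exact h6.1)
  have h6 : ({n : ℕ | n ≤ X ∧ n ∉ A ∩ B}.ncard : ℝ) ≤ {n : ℕ | n ≤ X ∧ n ∉ A}.ncard +
      {n : ℕ | n ≤ X ∧ n ∉ B}.ncard := by exact_mod_cast h5
  linarith

theorem dens_mono {A B : Set ℕ} (h : A ⊆ B) (hA : Dens A) : Dens B := by
  intro η hη
  obtain ⟨X1, h1⟩ := hA η hη
  refine ⟨X1, fun X hX => le_trans ?_ (h1 X hX)⟩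
  rw [Nat.cast_le]
  exact Set.ncard_le_ncard (fun n hn => ⟨hn.1, fun h2 => hn.2 (h h2)⟩)
    ((Set.finite_Iic X).subset fun n hn => hn.1)

/-- The diagonal argument. -/
theorem dens_diag (A : ℕ → Set ℕ) (hA : ∀ j, Dens (A j)) :
    ∃ S : Set ℕ, Dens S ∧ ∀ j, ∃ n₀ : ℕ, ∀ n ∈ S, n₀ ≤ n → n ∈ A j := by
  have hB : ∀ J : ℕ, Dens {n | ∀ j ≤ J, n ∈ A j} := by
    intro J
    induction J with
    | zero =>
      exact dens_mono (fun n hn j hj => by rw [Nat.le_zero.1 hj]; exact hn) (hA 0)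
    | succ J ih =>
      refine dens_mono ?_ (dens_inter ih (hA (J + 1)))
      rintro n ⟨h1, h2⟩ j hj
      rcases Nat.eq_or_lt_of_le hj with h | h
      · rw [h]; exact h2
      · exact h1 j (by omega)
  have hc : ∀ J : ℕ, ∃ X₀ : ℕ, J ≤ X₀ ∧ ∀ X : ℕ, X₀ ≤ X →
      ({n : ℕ | n ≤ X ∧ n ∉ {n | ∀ j ≤ J, n ∈ A j}}.ncard : ℝ) ≤ 1 / ((J : ℝ) + 1) * X := by
    intro J
    obtain ⟨X1, h1⟩ := hB J (1 / ((J : ℝ) + 1)) (by positivity)
    exact ⟨max J X1, le_max_left _ _, fun X hX => h1 X ((le_max_right _ _).trans hX)⟩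
  choose Y hY1 hY2 using hc
  refine ⟨{n | ∀ J, Y J ≤ n → ∀ j ≤ J, n ∈ A j}, ?_, fun j => ⟨Y j, fun n hn hY => hn j hY j le_rfl⟩⟩
  intro η hη
  obtain ⟨J0, hJ0⟩ := exists_nat_ge (1 / η)
  refine ⟨Y J0, fun X hX => ?_⟩
  have hne : ((Finset.range (X + 1)).filter (fun J => Y J ≤ X)).Nonempty :=
    ⟨J0, by
      rw [Finset.mem_filter, Finset.mem_range]
      have := hY1 J0
      exact ⟨by omega, hX⟩⟩
  obtain ⟨J, hJ, hJmax⟩ := Finset.exists_max_image _ (fun J => J) hne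
  rw [Finset.mem_filter, Finset.mem_range] at hJ
  have hJJ0 : J0 ≤ J := hJmax J0 (by
    rw [Finset.mem_filter, Finset.mem_range]
    have := hY1 J0
    exact ⟨by omega, hX⟩)
  have h1 := hY2 J X hJ.2
  have h2 : {n : ℕ | n ≤ X ∧ n ∉ {n | ∀ J, Y J ≤ n → ∀ j ≤ J, n ∈ A j}}.ncard ≤
      {n : ℕ | n ≤ X ∧ n ∉ {n | ∀ j ≤ J, n ∈ A j}}.ncard := by
    refine Set.ncard_le_ncard ?_ ((Set.finite_Iic X).subset fun n hn => hn.1)
    rintro n ⟨h3, h4⟩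
    refine ⟨h3, fun h5 => h4 ?_⟩
    intro J' hJ' j hj
    have h6 : J' ≤ J := hJmax J' (by
      rw [Finset.mem_filter, Finset.mem_range]
      have := hY1 J'
      exact ⟨by omega, by omega⟩)
    exact h5 j (by omega)
  have h3 : ({n : ℕ | n ≤ X ∧ n ∉ {n | ∀ J, Y J ≤ n → ∀ j ≤ J, n ∈ A j}}.ncard : ℝ) ≤
      {n : ℕ | n ≤ X ∧ n ∉ {n | ∀ j ≤ J, n ∈ A j}}.ncard := by exact_mod_cast h2
  refine h3.trans (h1.trans ?_)
  apply mul_le_mul_of_nonneg_right _ (Nat.cast_nonneg X)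
  rw [div_le_iff₀ hη] at hJ0
  rw [div_le_iff₀ (by positivity)]
  have : (J0 : ℝ) ≤ J := by exact_mod_cast hJJ0
  nlinarith

/-- the same for a countable index set -/
theorem dens_diag_countable {ι : Type*} [Countable ι] (A : ι → Set ℕ) (hA : ∀ j, Dens (A j)) :
    ∃ S : Set ℕ, Dens S ∧ ∀ j, ∃ n₀ : ℕ, ∀ n ∈ S, n₀ ≤ n → n ∈ A j := by
  rcases isEmpty_or_nonempty ι with h | h
  · refine ⟨Set.univ, ?_, fun j => h.elim j⟩
    intro η hη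
    refine ⟨0, fun X _ => ?_⟩
    have : {n : ℕ | n ≤ X ∧ n ∉ (Set.univ : Set ℕ)} = ∅ := by
      ext n
      simp
    rw [this, Set.ncard_empty]
    push_cast
    positivity
  · obtain ⟨e, he⟩ := exists_surjective_nat ι
    obtain ⟨S, hS, h1⟩ := dens_diag (fun j => A (e j)) (fun j => hA _)
    refine ⟨S, hS, fun j => ?_⟩
    obtain ⟨i, rfl⟩ := he j
    exact h1 i

/-- how a family of window statements gives a set of density one -/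
theorem dens_of_windows (P : ℕ → ℕ → Prop) (κ : ℕ → ℕ) (hκ : Filter.Tendsto κ Filter.atTop Filter.atTop)
    (δ : ℝ) (hδ : 0 < δ) (hP : ∀ η : ℝ, 0 < η → ∃ K₁ L₀ : ℕ, ∀ L : ℕ, L₀ ≤ L →
      ({n : ℕ | 0 < n ∧ n ≤ L ∧ ¬ ∀ K : ℕ, K₁ ≤ K → (K : ℝ) ≤ (Real.log L) ^ δ → P n K}.ncard : ℝ) ≤
        η * L) :
    Dens {n | ∀ K : ℕ, κ n ≤ K → (K : ℝ) ≤ (Real.log n) ^ δ → P n K} := by
  intro η hη
  obtain ⟨K1, L0, h1⟩ := hP (η / 2) (by positivity)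
  obtain ⟨n1, hn1⟩ := Filter.eventually_atTop.1 (hκ.eventually_ge_atTop K1)
  obtain ⟨X1, hX1⟩ := exists_nat_ge ((n1 + 1 : ℕ) / (η / 2))
  refine ⟨max L0 X1, fun X hX => ?_⟩
  have h2 := h1 X ((le_max_left _ _).trans hX)
  have h3 : {n : ℕ | n ≤ X ∧ n ∉ {n | ∀ K : ℕ, κ n ≤ K → (K : ℝ) ≤ (Real.log n) ^ δ → P n K}}.ncard ≤
      (n1 + 1) + {n : ℕ | 0 < n ∧ n ≤ X ∧ ¬ ∀ K : ℕ, K1 ≤ K → (K : ℝ) ≤ (Real.log X) ^ δ →
        P n K}.ncard := by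
    have h4 : (Set.Iic n1).ncard = n1 + 1 := by
      rw [← Finset.coe_Iic, Set.ncard_coe_finset, Nat.card_Iic]
    rw [← h4]
    refine le_trans (Set.ncard_le_ncard ?_ ?_) (Set.ncard_union_le _ _)
    · rintro n ⟨h5, h6⟩
      rcases Nat.lt_or_ge n1 n with h7 | h7
      · refine Or.inr ⟨by omega, h5, fun hcon => h6 ?_⟩
        intro K hK1 hK2
        refine hcon K ((hn1 n h7.le).trans hK1) (hK2.trans ?_)
        have hn0 : (1 : ℝ) ≤ n := by exact_mod_cast (by omega : 1 ≤ n)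
        apply Real.rpow_le_rpow (Real.log_nonneg hn0) _ hδ.le
        apply Real.log_le_log (by linarith)
        exact_mod_cast h5
      · exact Or.inl h7
    · refine (Set.finite_Iic n1).union ((Set.finite_Iic X).subset fun n hn => hn.2.1)
  have h4 : ({n : ℕ | n ≤ X ∧ n ∉ {n | ∀ K : ℕ, κ n ≤ K → (K : ℝ) ≤ (Real.log n) ^ δ →
      P n K}}.ncard : ℝ) ≤ ((n1 + 1 : ℕ) : ℝ) +
      ({n : ℕ | 0 < n ∧ n ≤ X ∧ ¬ ∀ K : ℕ, K1 ≤ K → (K : ℝ) ≤ (Real.log X) ^ δ → P n K}.ncard : ℝ) := by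
    exact_mod_cast h3
  have h5 : ((n1 + 1 : ℕ) : ℝ) ≤ η / 2 * X := by
    rw [div_le_iff₀ (by positivity)] at hX1
    have h6 : (X1 : ℝ) ≤ X := by exact_mod_cast (le_max_right _ _).trans hX
    calc ((n1 + 1 : ℕ) : ℝ) ≤ X1 * (η / 2) := hX1
      _ ≤ X * (η / 2) := by gcongr
      _ = _ := by ring
  linarith

end Pool.Agent.J6H36.RB
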