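import Pool.Agent.J6H36.RB.Diag

set_option autoImplicit false
set_option maxHeartbeats 4000000

/-!
# Sets with very few exceptions
-/

namespace Pool.Agent.J6H36.RB

open Filter

/-- at most `X / (log X) ^ A` of the natural numbers up to `X` are not in `S`, for every `A` -/
def DensL (S : Set ℕ) : Prop :=
  ∀ A : ℕ, ∃ X₀ : ℕ, ∀ X : ℕ, X₀ ≤ X → ({n : ℕ | n ≤ X ∧ n ∉ S}.ncard : ℝ) ≤ X / (Real.log X) ^ A

theorem densl_mono {A B : Set ℕ} (h : A ⊆ B) (hA : DensL A) : DensL B := by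
  intro η
  obtain ⟨X1, h1⟩ := hA η
  refine ⟨X1, fun X hX => le_trans ?_ (h1 X hX)⟩
  rw [Nat.cast_le]
  exact Set.ncard_le_ncard (fun n hn => ⟨hn.1, fun h2 => hn.2 (h h2)⟩)
    ((Set.finite_Iic X).subset fun n hn => hn.1)

theorem densl_inter {A B : Set ℕ} (hA : DensL A) (hB : DensL B) : DensL (A ∩ B) := by
  intro η
  obtain ⟨X1, h1⟩ := hA (η + 1)
  obtain ⟨X2, h2⟩ := hB (η + 1)
  obtain ⟨X3, h3'⟩ := exists_nat_ge (Real.exp 2)
  refine ⟨max (max X1 X2) X3, fun X hX => ?_⟩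
  have h3 := h1 X ((le_max_left _ _).trans ((le_max_left _ _).trans hX))
  have h4 := h2 X ((le_max_right _ _).trans ((le_max_left _ _).trans hX))
  have hlog : 2 ≤ Real.log X := by
    rw [Real.le_log_iff_exp_le]
    · exact h3'.trans (by exact_mod_cast (le_max_right _ _).trans hX)
    · exact lt_of_lt_of_le (Real.exp_pos 2) (h3'.trans (by exact_mod_cast (le_max_right _ _).trans hX))
  have h5 : {n : ℕ | n ≤ X ∧ n ∉ A ∩ B}.ncard ≤ {n : ℕ | n ≤ X ∧ n ∉ A}.ncard +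
      {n : ℕ | n ≤ X ∧ n ∉ B}.ncard := by
    refine le_trans (Set.ncard_le_ncard ?_ ?_) (Set.ncard_union_le _ _)
    · rintro n ⟨h6, h7⟩
      by_cases h8 : n ∈ A
      · exact Or.inr ⟨h6, fun h9 => h7 ⟨h8, h9⟩⟩
      · exact Or.inl ⟨h6, h8⟩
    · exact (Set.finite_Iic X).subset (by
        rintro n (h6 | h6)
        · exact h6.1
        · exact h6.1)
  have h6 : ({n : ℕ | n ≤ X ∧ n ∉ A ∩ B}.ncard : ℝ) ≤ {n : ℕ | n ≤ X ∧ n ∉ A}.ncard +
      {n : ℕ | n ≤ X ∧ n ∉ B}.ncard := by exact_mod_cast h5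
  have h7 : (X : ℝ) / (Real.log X) ^ (η + 1) + X / (Real.log X) ^ (η + 1) ≤ X / (Real.log X) ^ η := by
    have h8 : 0 < (Real.log X) ^ η := by positivity
    rw [← add_div, pow_succ, div_le_div_iff₀ (by positivity) h8]
    have h9 : (0 : ℝ) ≤ X := Nat.cast_nonneg X
    have h10 : 0 ≤ (X : ℝ) * (Real.log X) ^ η := by positivity
    nlinarith
  linarith

/-- The diagonal argument. -/
theorem densl_diag (A : ℕ → Set ℕ) (hA : ∀ j, DensL (A j)) :
    ∃ S : Set ℕ, DensL S ∧ ∀ j, ∃ n₀ : ℕ, ∀ n ∈ S, n₀ ≤ n → n ∈ A j := by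
  have hB : ∀ J : ℕ, DensL {n | ∀ j ≤ J, n ∈ A j} := by
    intro J
    induction J with
    | zero =>
      exact densl_mono (fun n hn j hj => by rw [Nat.le_zero.1 hj]; exact hn) (hA 0)
    | succ J ih =>
      refine densl_mono ?_ (densl_inter ih (hA (J + 1)))
      rintro n ⟨h1, h2⟩ j hj
      rcases Nat.eq_or_lt_of_le hj with h | h
      · rw [h]; exact h2
      · exact h1 j (by omega)
  have hc : ∀ J : ℕ, ∃ X₀ : ℕ, J ≤ X₀ ∧ ∀ X : ℕ, X₀ ≤ X →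
      ({n : ℕ | n ≤ X ∧ n ∉ {n | ∀ j ≤ J, n ∈ A j}}.ncard : ℝ) ≤ X / (Real.log X) ^ J := by
    intro J
    obtain ⟨X1, h1⟩ := hB J J
    exact ⟨max J X1, le_max_left _ _, fun X hX => h1 X ((le_max_right _ _).trans hX)⟩
  choose Y hY1 hY2 using hc
  refine ⟨{n | ∀ J, Y J ≤ n → ∀ j ≤ J, n ∈ A j}, ?_, fun j => ⟨Y j, fun n hn hY => hn j hY j le_rfl⟩⟩
  intro J0
  obtain ⟨X3, h3'⟩ := exists_nat_ge (Real.exp 1)
  refine ⟨max (Y J0) X3, fun X hX => ?_⟩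
  have hX1 : Y J0 ≤ X := (le_max_left _ _).trans hX
  have hlog : 1 ≤ Real.log X := by
    rw [Real.le_log_iff_exp_le]
    · exact h3'.trans (by exact_mod_cast (le_max_right _ _).trans hX)
    · exact lt_of_lt_of_le (Real.exp_pos 1) (h3'.trans (by exact_mod_cast (le_max_right _ _).trans hX))
  have hne : ((Finset.range (X + 1)).filter (fun J => Y J ≤ X)).Nonempty :=
    ⟨J0, by
      rw [Finset.mem_filter, Finset.mem_range]
      have := hY1 J0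
      exact ⟨by omega, hX1⟩⟩
  obtain ⟨J, hJ, hJmax⟩ := Finset.exists_max_image _ (fun J => J) hne
  rw [Finset.mem_filter, Finset.mem_range] at hJ
  have hJJ0 : J0 ≤ J := hJmax J0 (by
    rw [Finset.mem_filter, Finset.mem_range]
    have := hY1 J0
    exact ⟨by omega, hX1⟩)
  have h1 := hY2 J X hJ.2
  have h2 : {n : ℕ | n ≤ X ∧ n ∉ {n | ∀ J, Y J ≤ n → ∀ j ≤ J, n ∈ A j}}.ncard ≤
      {n : ℕ | n ≤ X ∧ n ∉ {n | ∀ j ≤ J, n ∈ A j}}.ncard := by
    refine Set.ncard_le_ncard ?_ ((Set.finite_Iic X).subset fun n hn => hn.1)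
    rintro n ⟨h3, h4⟩
    refine ⟨h3, fun h5 => h4 ?_⟩
    intro J' hJ' j hj
    have h6 : J' ≤ J := hJmax J' (by
      rw [Finset.mem_filter, Finset.mem_range]
      have := hY1 J'
      exact ⟨by omega, by omega⟩)
    exact h5 j (by omega)
  have h3 : ({n : ℕ | n ≤ X ∧ n ∉ {n | ∀ J, Y J ≤ n → ∀ j ≤ J, n ∈ A j}}.ncard : ℝ) ≤
      {n : ℕ | n ≤ X ∧ n ∉ {n | ∀ j ≤ J, n ∈ A j}}.ncard := by exact_mod_cast h2
  refine h3.trans (h1.trans ?_)
  apply div_le_div_of_nonneg_left (Nat.cast_nonneg X) (by positivity)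
  exact pow_le_pow_right₀ hlog hJJ0

/-- the same for a countable index set -/
theorem densl_diag_countable {ι : Type*} [Countable ι] (A : ι → Set ℕ) (hA : ∀ j, DensL (A j)) :
    ∃ S : Set ℕ, DensL S ∧ ∀ j, ∃ n₀ : ℕ, ∀ n ∈ S, n₀ ≤ n → n ∈ A j := by
  rcases isEmpty_or_nonempty ι with h | h
  · refine ⟨Set.univ, ?_, fun j => h.elim j⟩
    intro η
    refine ⟨1, fun X hX => ?_⟩
    have : {n : ℕ | n ≤ X ∧ n ∉ (Set.univ : Set ℕ)} = ∅ := by
      ext n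
      simp
    have h1 : 0 ≤ Real.log X := Real.log_nonneg (by exact_mod_cast hX)
    rw [this, Set.ncard_empty]
    push_cast
    positivity
  · obtain ⟨e, he⟩ := exists_surjective_nat ι
    obtain ⟨S, hS, h1⟩ := densl_diag (fun j => A (e j)) (fun j => hA _)
    refine ⟨S, hS, fun j => ?_⟩
    obtain ⟨i, rfl⟩ := he j
    exact h1 i

/-- how a family of quantitative window statements gives a set with few exceptions -/
theorem densl_of_windows (P : ℕ → ℕ → Prop) (δ c : ℝ) (hδ : 0 < δ) (hc : 0 < c)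
    (hP : ∀ q : ℕ, ∃ (C : ℝ) (K₀ L₀ : ℕ), 0 ≤ C ∧ ∀ L : ℕ, L₀ ≤ L → ∀ K₁ : ℕ, K₀ ≤ K₁ →
      ({n : ℕ | 0 < n ∧ n ≤ L ∧ ¬ ∀ K : ℕ, K₁ ≤ K → (K : ℝ) ≤ (Real.log L) ^ δ → P n K}.ncard : ℝ) ≤
        L * (C * ((K₁ : ℝ) ^ q)⁻¹ + ((Real.log L) ^ δ + 2) * Real.exp (-((Real.log L) ^ δ)))) :
    DensL {n : ℕ | ∀ K : ℕ, (Real.log n) ^ c ≤ K → (K : ℝ) ≤ (Real.log n) ^ δ → P n K} := by
  intro A
  obtain ⟨q, hq⟩ := exists_nat_ge (((A + 1 : ℕ) : ℝ) / (c / 2))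
  obtain ⟨C, K0, L0, hC0, hC⟩ := hP q
  have ev : ∀ᶠ y : ℝ in atTop, 1 ≤ y ∧ (K0 : ℝ) ≤ y ^ (c / 2) ∧ y ^ (c / 2) + 1 ≤ (y / 2) ^ c ∧
      2 * Real.exp (-(1 / 2 * y)) * y ^ A ≤ 1 / 3 ∧ C / y ≤ 1 / 3 ∧
      (y ^ δ + 2) * Real.exp (-(y ^ δ)) * y ^ A ≤ 1 / 3 := by
    have t1 : Tendsto (fun y : ℝ => y ^ (c / 2)) atTop atTop := tendsto_rpow_atTop (by positivity)
    have t2 : Tendsto (fun y : ℝ => y ^ δ) atTop atTop := tendsto_rpow_atTop hδ
    have t3 := tendsto_rpow_mul_exp_neg_mul_atTop_nhds_zero (A : ℝ) (1 / 2) (by norm_num)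
    have t4 := (tendsto_rpow_mul_exp_neg_mul_atTop_nhds_zero ((A : ℝ) / δ + 1) 1 (by norm_num)).comp t2
    have t5 := (tendsto_rpow_mul_exp_neg_mul_atTop_nhds_zero ((A : ℝ) / δ) 1 (by norm_num)).comp t2
    filter_upwards [eventually_ge_atTop (1 : ℝ), t1.eventually_ge_atTop (K0 : ℝ),
      t1.eventually_ge_atTop ((2 : ℝ) ^ c * 2), t1.eventually_ge_atTop (1 : ℝ),
      t3.eventually_le_const (show (0 : ℝ) < 1 / 6 by norm_num),
      t4.eventually_le_const (show (0 : ℝ) < 1 / 9 by norm_num),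
      t5.eventually_le_const (show (0 : ℝ) < 1 / 9 by norm_num),
      eventually_ge_atTop (3 * C)] with y h1 h2 h3 h4 h5 h6 h7 h8
    have hy : 0 < y := by linarith
    refine ⟨h1, h2, ?_, ?_, ?_, ?_⟩
    · have e : y ^ c = y ^ (c / 2) * y ^ (c / 2) := by
        rw [← Real.rpow_add hy]
        congr 1
        ring
      rw [Real.div_rpow hy.le (by norm_num), e, le_div_iff₀ (by positivity)]
      have : (0 : ℝ) < 2 ^ c := by positivity
      nlinarith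
    · rw [Real.rpow_natCast] at h5
      have e : -(1 / 2 * y) = -(1 / 2) * y := by ring
      rw [e]
      nlinarith
    · rw [div_le_iff₀ hy]
      linarith
    · simp only [Function.comp_apply] at h6 h7
      have e1 : (y ^ δ) ^ ((A : ℝ) / δ) = y ^ A := by
        rw [← Real.rpow_mul hy.le, mul_div_cancel₀ _ hδ.ne', Real.rpow_natCast]
      have e2 : (y ^ δ) ^ ((A : ℝ) / δ + 1) = y ^ A * y ^ δ := by
        rw [Real.rpow_add (by positivity), e1, Real.rpow_one]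
      rw [e2] at h6
      rw [e1] at h7
      have e3 : -1 * y ^ δ = -(y ^ δ) := by ring
      rw [e3] at h6 h7
      nlinarith
  obtain ⟨y0, hy0⟩ := eventually_atTop.1 ev
  obtain ⟨X3, h3'⟩ := exists_nat_ge (Real.exp (max y0 1))
  refine ⟨max L0 X3, fun X hX => ?_⟩
  have hXe : Real.exp (max y0 1) ≤ X := h3'.trans (by exact_mod_cast (le_max_right _ _).trans hX)
  have hX0 : (0 : ℝ) < X := lt_of_lt_of_le (Real.exp_pos _) hXe
  have hlogy : max y0 1 ≤ Real.log X := by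
    rw [Real.le_log_iff_exp_le hX0]
    exact hXe
  obtain ⟨h1, h2, h3, h4, h5, h6⟩ := hy0 _ ((le_max_left _ _).trans hlogy)
  set y : ℝ := Real.log X with hy
  have hy0' : 0 < y := by linarith
  have hXy : (X : ℝ) = Real.exp y := (Real.exp_log hX0).symm
  obtain ⟨K1, hK1⟩ : ∃ K1 : ℕ, K1 = ⌈y ^ (c / 2)⌉₊ := ⟨_, rfl⟩
  have hK1a : y ^ (c / 2) ≤ K1 := by rw [hK1]; exact Nat.le_ceil _
  have hK1b : (K1 : ℝ) ≤ y ^ (c / 2) + 1 := by
    rw [hK1]
    exact (Nat.ceil_lt_add_one (by positivity)).le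
  have hK01 : K0 ≤ K1 := by
    have : (K0 : ℝ) ≤ K1 := h2.trans hK1a
    exact_mod_cast this
  have h7 := hC X ((le_max_left _ _).trans hX) K1 hK01
  obtain ⟨R, hR⟩ : ∃ R : ℕ, R = ⌊Real.exp (y / 2)⌋₊ := ⟨_, rfl⟩
  have hR1 : (R : ℝ) ≤ Real.exp (y / 2) := by rw [hR]; exact Nat.floor_le (Real.exp_pos _).le
  have hR2 : Real.exp (y / 2) < R + 1 := by rw [hR]; exact Nat.lt_floor_add_one _
  have h8 : {n : ℕ | n ≤ X ∧ n ∉ {n : ℕ | ∀ K : ℕ, (Real.log n) ^ c ≤ K → (K : ℝ) ≤ (Real.log n) ^ δ →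
      P n K}}.ncard ≤ (R + 1) + {n : ℕ | 0 < n ∧ n ≤ X ∧ ¬ ∀ K : ℕ, K1 ≤ K → (K : ℝ) ≤ y ^ δ →
        P n K}.ncard := by
    have h4 : (Set.Iic R).ncard = R + 1 := by
      rw [← Finset.coe_Iic, Set.ncard_coe_finset, Nat.card_Iic]
    rw [← h4]
    refine le_trans (Set.ncard_le_ncard ?_ ?_) (Set.ncard_union_le _ _)
    · rintro n ⟨h5, h6⟩
      rcases Nat.lt_or_ge R n with h7 | h7
      · refine Or.inr ⟨by omega, h5, fun hcon => h6 ?_⟩
        have hn1 : ((R : ℝ) + 1) ≤ n := by exact_mod_cast h7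
        have hn0 : (0 : ℝ) < n := by
          have := Real.exp_pos (y / 2)
          linarith
        have hlogn : y / 2 ≤ Real.log n := by
          rw [Real.le_log_iff_exp_le hn0]
          linarith
        intro K hK1' hK2
        refine hcon K ?_ (hK2.trans ?_)
        · have h9 : (K1 : ℝ) ≤ K := by
            calc (K1 : ℝ) ≤ y ^ (c / 2) + 1 := hK1b
              _ ≤ (y / 2) ^ c := h3
              _ ≤ (Real.log n) ^ c := Real.rpow_le_rpow (by positivity) hlogn hc.le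
              _ ≤ K := hK1'
          exact_mod_cast h9
        · apply Real.rpow_le_rpow (by linarith) _ hδ.le
          apply Real.log_le_log hn0
          exact_mod_cast h5
      · exact Or.inl h7
    · exact (Set.finite_Iic R).union ((Set.finite_Iic X).subset fun n hn => hn.2.1)
  have h9 : ({n : ℕ | n ≤ X ∧ n ∉ {n : ℕ | ∀ K : ℕ, (Real.log n) ^ c ≤ K → (K : ℝ) ≤ (Real.log n) ^ δ →
      P n K}}.ncard : ℝ) ≤ ((R : ℝ) + 1) +
      ({n : ℕ | 0 < n ∧ n ≤ X ∧ ¬ ∀ K : ℕ, K1 ≤ K → (K : ℝ) ≤ y ^ δ → P n K}.ncard : ℝ) := by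
    exact_mod_cast h8
  refine h9.trans ((add_le_add_right h7 _).trans ?_)
  have hyA : (0 : ℝ) < y ^ A := by positivity
  rw [le_div_iff₀ hyA]
  have b1 : ((R : ℝ) + 1) * y ^ A ≤ 1 / 3 * X := by
    have e1 : (1 : ℝ) ≤ Real.exp (y / 2) := Real.one_le_exp (by positivity)
    have e2 : Real.exp (y / 2) = X * Real.exp (-(1 / 2 * y)) := by
      rw [hXy, ← Real.exp_add]
      congr 1
      ring
    calc ((R : ℝ) + 1) * y ^ A ≤ (2 * Real.exp (y / 2)) * y ^ A := by gcongr; linarith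
      _ = X * (2 * Real.exp (-(1 / 2 * y)) * y ^ A) := by rw [e2]; ring
      _ ≤ X * (1 / 3) := by gcongr
      _ = _ := by ring
  have b2 : (X : ℝ) * (C * ((K1 : ℝ) ^ q)⁻¹) * y ^ A ≤ 1 / 3 * X := by
    have e1 : y ^ (A + 1) ≤ (K1 : ℝ) ^ q := by
      calc y ^ (A + 1) = y ^ (((A + 1 : ℕ) : ℝ)) := (Real.rpow_natCast _ _).symm
        _ ≤ y ^ (c / 2 * q) := by
          apply Real.rpow_le_rpow_of_exponent_le h1
          rw [div_le_iff₀ (by positivity)] at hq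
          linarith
        _ = (y ^ (c / 2)) ^ q := by rw [Real.rpow_mul hy0'.le, Real.rpow_natCast]
        _ ≤ (K1 : ℝ) ^ q := by gcongr
    have e2 : ((K1 : ℝ) ^ q)⁻¹ ≤ (y ^ (A + 1))⁻¹ := inv_anti₀ (by positivity) e1
    calc (X : ℝ) * (C * ((K1 : ℝ) ^ q)⁻¹) * y ^ A ≤ X * (C * (y ^ (A + 1))⁻¹) * y ^ A := by gcongr
      _ = X * (C / y) := by
        rw [pow_succ]
        field_simp
      _ ≤ X * (1 / 3) := by gcongr
      _ = _ := by ring
  have b3 : (X : ℝ) * ((y ^ δ + 2) * Real.exp (-(y ^ δ))) * y ^ A ≤ 1 / 3 * X := by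
    calc (X : ℝ) * ((y ^ δ + 2) * Real.exp (-(y ^ δ))) * y ^ A =
        X * ((y ^ δ + 2) * Real.exp (-(y ^ δ)) * y ^ A) := by ring
      _ ≤ X * (1 / 3) := by gcongr
      _ = _ := by ring
  have e : ((R : ℝ) + 1 + X * (C * ((K1 : ℝ) ^ q)⁻¹ + (y ^ δ + 2) * Real.exp (-(y ^ δ)))) * y ^ A =
      ((R : ℝ) + 1) * y ^ A + (X : ℝ) * (C * ((K1 : ℝ) ^ q)⁻¹) * y ^ A +
      (X : ℝ) * ((y ^ δ + 2) * Real.exp (-(y ^ δ))) * y ^ A := by ring
  rw [e]
  linarith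

end Pool.Agent.J6H36.RB
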