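import Pool.Agent.J6H36.RB.TV

set_option autoImplicit false
set_option maxHeartbeats 4000000

/-!
# Digits in random bases
-/

namespace Pool.Agent.J6H36.RB

open Finset Polynomial Filter

theorem count_value (p : ℤ[X]) (hp : 1 ≤ p.natDegree) (s : Finset ℕ) (v : ℤ) :
    (s.filter (fun n : ℕ => p.eval (n : ℤ) = v)).card ≤ p.natDegree := by
  have hne : p - C v ≠ 0 := by
    intro h
    have h1 : p = C v := sub_eq_zero.1 h
    rw [h1, natDegree_C] at hp
    omega
  have h1 : (s.filter (fun n : ℕ => p.eval (n : ℤ) = v)).card ≤ (p - C v).roots.toFinset.card := by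
    refine Finset.card_le_card_of_injOn (fun n : ℕ => (n : ℤ)) ?_ ?_
    · intro n hn
      rw [mem_coe, mem_filter] at hn
      rw [mem_coe, Multiset.mem_toFinset, mem_roots hne, IsRoot.def, eval_sub, eval_C, hn.2, sub_self]
    · intro a _ b _ hab
      have : (a : ℤ) = b := hab
      exact_mod_cast this
  refine h1.trans ((Multiset.toFinset_card_le _).trans ((card_roots' _).trans ?_))
  rw [natDegree_sub_C]

theorem count_small (p : ℤ[X]) (hp : 1 ≤ p.natDegree) (s : Finset ℕ) (b : ℕ) :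
    (s.filter (fun n : ℕ => 0 ≤ p.eval (n : ℤ) ∧ p.eval (n : ℤ) < b)).card ≤ b * p.natDegree := by
  classical
  have h1 : s.filter (fun n : ℕ => 0 ≤ p.eval (n : ℤ) ∧ p.eval (n : ℤ) < b) ⊆
      (Finset.range b).biUnion fun v => s.filter (fun n : ℕ => p.eval (n : ℤ) = (v : ℕ)) := by
    intro n hn
    rw [mem_filter] at hn
    rw [mem_biUnion]
    refine ⟨(p.eval (n : ℤ)).toNat, ?_, ?_⟩
    · rw [Finset.mem_range]
      omega
    · rw [mem_filter]
      exact ⟨hn.1, by omega⟩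
  refine (card_le_card h1).trans (card_biUnion_le.trans ?_)
  refine (Finset.sum_le_sum fun v _ => count_value p hp s ((v : ℕ) : ℤ)).trans ?_
  rw [Finset.sum_const, Finset.card_range, smul_eq_mul]

/-- the `k`-th digit behind the point of `x` in base `b` -/
noncomputable def digit (b k : ℕ) (x : ℝ) : ℕ := ⌊(b : ℝ) * Int.fract ((b : ℝ) ^ (k - 1) * x)⌋₊

theorem digit_class {b M k : ℕ} (hb : 1 ≤ b) (hM : 1 ≤ M) (x : ℝ) :
    M * digit b (k + 1) x / b < M ∧
    ((M * digit b (k + 1) x / b : ℕ) : ℝ) / M ≤ Int.fract ((b : ℝ) ^ k * x) ∧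
    Int.fract ((b : ℝ) ^ k * x) < (((M * digit b (k + 1) x / b : ℕ) : ℝ) + 1) / M + 1 / b := by
  have hbR : (0 : ℝ) < b := by exact_mod_cast hb
  have hMR : (0 : ℝ) < M := by exact_mod_cast hM
  unfold digit
  rw [Nat.add_sub_cancel]
  set y : ℝ := Int.fract ((b : ℝ) ^ k * x) with hy
  have hy0 : 0 ≤ y := Int.fract_nonneg _
  have hy1 : y < 1 := Int.fract_lt_one _
  set a : ℕ := ⌊(b : ℝ) * y⌋₊ with ha
  have ha1 : (a : ℝ) ≤ b * y := Nat.floor_le (by positivity)
  have ha2 : (b : ℝ) * y < a + 1 := Nat.lt_floor_add_one _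
  have hab : a < b := by
    have : (a : ℝ) < b := by nlinarith
    exact_mod_cast this
  have hc1 : ((M * a / b : ℕ) : ℝ) * b ≤ M * a := by
    exact_mod_cast Nat.div_mul_le_self (M * a) b
  have hc2 : (M * a : ℝ) < (((M * a / b : ℕ) : ℝ) + 1) * b := by
    have := Nat.lt_div_mul_add (a := M * a) (b := b) hb
    have h2 : M * a < (M * a / b + 1) * b := by rw [Nat.add_mul, one_mul]; exact this
    exact_mod_cast h2
  refine ⟨?_, ?_, ?_⟩
  · rw [Nat.div_lt_iff_lt_mul hb]
    exact Nat.mul_lt_mul_of_pos_left hab hM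
  · rw [div_le_iff₀ hMR]
    have h1 : ((M * a / b : ℕ) : ℝ) * b ≤ y * M * b := by nlinarith
    exact le_of_mul_le_mul_right h1 hbR
  · have h1 : y * b < (((M * a / b : ℕ) : ℝ) + 1) / M * b + 1 := by
      have h2 : (a : ℝ) < (((M * a / b : ℕ) : ℝ) + 1) / M * b := by
        rw [div_mul_eq_mul_div, lt_div_iff₀ hMR]
        linarith
      linarith
    have h3 : y * b < ((((M * a / b : ℕ) : ℝ) + 1) / M + 1 / b) * b := by
      rw [add_mul, one_div_mul_cancel hbR.ne']
      exact h1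
    exact lt_of_mul_lt_mul_right h3 hbR.le

theorem Indep.one_le {t : ℕ} {f : Fin t → ℤ[X]} (hf : Indep f) (i : Fin t) : 1 ≤ (f i).natDegree := by
  by_contra hcon
  have h0 : (f i).natDegree = 0 := by omega
  classical
  have h1 := hf (fun j => if j = i then X else 0) (by
    rw [Finset.sum_eq_single i]
    · rw [if_pos rfl, X_comp, h0]
    · intro j _ hj
      rw [if_neg hj, zero_comp]
    · intro h
      exact absurd (mem_univ i) h) i
  rw [if_pos rfl, natDegree_X] at h1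
  exact one_ne_zero h1

/-- the base with the index `i` -/
def bs {t : ℕ} (f : Fin t → ℤ[X]) (i : Fin t) (n : ℕ) : ℕ := ((f i).eval (n : ℤ)).toNat

open Classical in
/-- total variation distance between digits in random bases and independent digits -/
theorem tv_digits : ∃ δ : ℝ, 0 < δ ∧ δ ≤ 1 / 48 ∧ ∀ (r t : ℕ) (α : Fin r → ℝ) (A c0 : ℝ), 1 ≤ A →
    0 < c0 → Typ α A c0 → ∀ f : Fin t → ℤ[X], Indep f → ∃ X0 : ℝ, ∀ L : ℕ, X0 ≤ Real.log L →
    ∀ N : ℕ, (∀ n ∈ Finset.Ioc N (N + L), ∀ i, 1 ≤ (f i).eval (n : ℤ)) →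
    ∀ K M : ℕ, (K : ℝ) ≤ (Real.log L) ^ δ → 1 ≤ M → (M : ℝ) ≤ Real.exp ((Real.log L) ^ δ) →
    ∀ W : Finset (Fin t → Fin K → Fin r → Fin M),
    |(((Finset.Ioc N (N + L)).filter (fun n => ∃ w ∈ W, ∀ i (k : Fin K) j,
        M * digit (bs f i n) ((k : ℕ) + 2) (α j) / bs f i n = w i k j)).card : ℝ) -
      L * (W.card / (M : ℝ) ^ (t * (K * r)))| ≤ L * Real.exp (-((Real.log L) ^ δ)) := by
  obtain ⟨δ, hδ0, hδ1, htv⟩ := tv_gen
  refine ⟨δ, hδ0, hδ1, ?_⟩
  intro r t α A c0 hA hc0 htyp f hf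
  obtain ⟨X1, hX1⟩ := htv r t α A c0 hA hc0 htyp f hf
  set G : ℕ := ∑ i, (f i).natDegree with hG
  have hev : ∀ᶠ X : ℝ in atTop, 2 * (G : ℝ) ≤ X := eventually_ge_atTop _
  obtain ⟨X2, hX2⟩ := eventually_atTop.1 hev
  refine ⟨max (max X1 X2) 2, ?_⟩
  intro L hL N hpos K M hK hM hMX W
  have hLX1 : X1 ≤ Real.log L := ((le_max_left X1 X2).trans (le_max_left _ _)).trans hL
  have hG2 := hX2 _ (((le_max_right X1 X2).trans (le_max_left _ _)).trans hL)
  have hX2' : 2 ≤ Real.log L := (le_max_right _ _).trans hL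
  set X : ℝ := Real.log L with hX
  have hL0 : (0 : ℝ) < L := by
    by_contra hcon
    have : (L : ℝ) = 0 := le_antisymm (not_lt.1 hcon) (Nat.cast_nonneg _)
    rw [hX, this, Real.log_zero] at hX2'
    linarith
  have hLX : (L : ℝ) = Real.exp X := by rw [hX, Real.exp_log hL0]
  -- small bases
  set b0 : ℕ := ⌈Real.exp (X / 4)⌉₊ with hb0
  have hb1 : Real.exp (X / 4) ≤ b0 := Nat.le_ceil _
  have hb2 : (b0 : ℝ) ≤ 2 * Real.exp (X / 4) := by
    have h1 := Nat.ceil_lt_add_one (Real.exp_pos (X / 4)).le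
    have h2 : 1 ≤ Real.exp (X / 4) := Real.one_le_exp (by linarith)
    rw [← hb0] at h1
    linarith
  set E : Finset ℕ := univ.biUnion fun i : Fin t =>
    (Finset.Ioc N (N + L)).filter (fun n : ℕ => 0 ≤ (f i).eval (n : ℤ) ∧ (f i).eval (n : ℤ) < b0) with hE
  have hEc : (E.card : ℝ) ≤ L * Real.exp (-(X / 4)) := by
    have h1 : E.card ≤ b0 * G := by
      refine card_biUnion_le.trans ?_
      refine (Finset.sum_le_sum fun i _ => count_small (f i) (hf.one_le i) _ b0).trans ?_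
      rw [hG, Finset.mul_sum]
    have h2 : (E.card : ℝ) ≤ b0 * G := by exact_mod_cast h1
    have h3 : X ≤ Real.exp (X / 2) := by
      have := Real.quadratic_le_exp_of_nonneg (show 0 ≤ X / 2 by linarith)
      nlinarith [sq_nonneg (X - 4)]
    calc (E.card : ℝ) ≤ b0 * G := h2
      _ ≤ 2 * Real.exp (X / 4) * G := by gcongr
      _ = Real.exp (X / 4) * (2 * G) := by ring
      _ ≤ Real.exp (X / 4) * Real.exp (X / 2) := by
        have := hG2.trans h3
        gcongr
      _ = L * Real.exp (-(X / 4)) := by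
        rw [hLX, ← Real.exp_add, ← Real.exp_add]
        congr 1
        ring
  by_cases hMne : M = 0
  · omega
  have : NeZero M := ⟨hMne⟩
  have hbase : ∀ n ∈ Finset.Ioc N (N + L), ∀ i, 1 ≤ bs f i n := fun n hn i => by
    have := hpos n hn i
    unfold bs
    omega
  have hbsR : ∀ n ∈ Finset.Ioc N (N + L), ∀ i, ((bs f i n : ℕ) : ℝ) = (((f i).eval (n : ℤ) : ℤ) : ℝ) := by
    intro n hn i
    have h1 := hpos n hn i
    have h2 : ((bs f i n : ℕ) : ℤ) = (f i).eval (n : ℤ) := by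
      unfold bs
      exact Int.toNat_of_nonneg (by omega)
    rw [← h2]
    push_cast
    rfl
  set cl : ℕ → Fin t × Fin K × Fin r → Fin M := fun n x =>
    Fin.ofNat M (M * digit (bs f x.1 n) (x.2.1 + 2) (α x.2.2) / bs f x.1 n) with hcl
  have hclv : ∀ n ∈ Finset.Ioc N (N + L), ∀ x, (cl n x : ℕ) =
      M * digit (bs f x.1 n) (x.2.1 + 2) (α x.2.2) / bs f x.1 n := by
    intro n hn x
    rw [hcl]
    simp only [Fin.val_ofNat]
    exact Nat.mod_eq_of_lt (digit_class (k := (x.2.1 : ℕ) + 1) (hbase n hn x.1) hM (α x.2.2)).1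
  have hmain := hX1 L hLX1 N K M hK hM hMX cl E hEc (fun n hn hnE x => by
    have h1 := digit_class (k := (x.2.1 : ℕ) + 1) (hbase n hn x.1) hM (α x.2.2)
    have h2 : yy f α n K x = ((bs f x.1 n : ℕ) : ℝ) ^ ((x.2.1 : ℕ) + 1) * α x.2.2 := by
      rw [hbsR n hn]
      unfold yy
      ring
    rw [hclv n hn x, h2]
    refine ⟨h1.2.1, h1.2.2.trans_le ?_⟩
    have h3 : (1 : ℝ) / (bs f x.1 n : ℕ) ≤ Real.exp (-(X / 4)) := by
      rw [Real.exp_neg, ← one_div]
      apply one_div_le_one_div_of_le (Real.exp_pos _)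
      have h4 : (b0 : ℤ) ≤ (f x.1).eval (n : ℤ) := by
        by_contra hcon
        apply hnE
        rw [hE, mem_biUnion]
        refine ⟨x.1, mem_univ _, ?_⟩
        rw [mem_filter]
        have := hpos n hn x.1
        exact ⟨hn, by omega, by omega⟩
      rw [hbsR n hn]
      calc Real.exp (X / 4) ≤ (b0 : ℝ) := hb1
        _ ≤ _ := by exact_mod_cast h4
    exact add_le_add le_rfl h3)
    (W.image fun w => fun x => w x.1 x.2.1 x.2.2)
  have hWc : (W.image fun w => fun x : Fin t × Fin K × Fin r => w x.1 x.2.1 x.2.2).card = W.card := by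
    refine card_image_of_injective _ fun w w' h => ?_
    funext i k j
    exact congrFun h (i, k, j)
  rw [hWc] at hmain
  have hfil : (Finset.Ioc N (N + L)).filter
      (fun n => cl n ∈ W.image fun w => fun x : Fin t × Fin K × Fin r => w x.1 x.2.1 x.2.2) =
      (Finset.Ioc N (N + L)).filter (fun n => ∃ w ∈ W, ∀ i (k : Fin K) j,
        M * digit (bs f i n) ((k : ℕ) + 2) (α j) / bs f i n = w i k j) := by
    refine Finset.filter_congr fun n hn => ?_
    rw [mem_image]
    constructor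
    · rintro ⟨w, hw, h⟩
      refine ⟨w, hw, fun i k j => ?_⟩
      have h1 := congrFun h (i, k, j)
      have h2 := hclv n hn (i, k, j)
      simp only at h1 h2
      rw [← h2, ← h1]
    · rintro ⟨w, hw, h⟩
      refine ⟨w, hw, ?_⟩
      funext x
      apply Fin.ext
      rw [hclv n hn x]
      exact (h x.1 x.2.1 x.2.2).symm
  rw [hfil] at hmain
  exact hmain

end Pool.Agent.J6H36.RB
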