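import Pool.Agent.J6H36.RB.Chern
import Pool.Agent.Y933.KD.Test

set_option autoImplicit false
set_option maxHeartbeats 4000000

/-!
# From grid boxes to boxes
-/

namespace Pool.Agent.J6H36.RB

open Finset
open Pool.Agent.Y933.KD (prod_diff)

variable {ρ : Type} [Fintype ρ]

open Classical in
/-- the word is evenly distributed in the boxes of the grid -/
def Good (K M : ℕ) (A : ℝ) (w : Fin K → ρ → Fin M) : Prop :=
  ∀ a b : ρ → ℕ, (∀ x, a x ≤ b x) → (∀ x, b x ≤ M) →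
    |((univ.filter (fun k => ∀ x, a x ≤ (w k x : ℕ) ∧ (w k x : ℕ) < b x)).card : ℝ) -
      K * ∏ x, (((b x : ℝ) - a x) / M)| ≤ A

theorem prod_close (p q : ρ → ℝ) (ε : ℝ) (hp0 : ∀ x, 0 ≤ p x) (hp1 : ∀ x, p x ≤ 1)
    (hq0 : ∀ x, 0 ≤ q x) (hq1 : ∀ x, q x ≤ 1) (h : ∀ x, |p x - q x| ≤ ε) :
    |∏ x, p x - ∏ x, q x| ≤ Fintype.card ρ * ε := by
  refine (prod_diff univ p q (fun x _ => hp0 x) (fun x _ => hp1 x) (fun x _ => hq0 x)
    (fun x _ => hq1 x)).trans ?_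
  refine (Finset.sum_le_sum fun x _ => h x).trans ?_
  rw [Finset.sum_const, card_univ, nsmul_eq_mul]

open Classical in
theorem grid_to_box {K M : ℕ} (hM : 1 ≤ M) {A : ℝ} (hA : 0 ≤ A) (w : Fin K → ρ → Fin M)
    (y : Fin K → ρ → ℝ) (hy0 : ∀ k x, 0 ≤ y k x) (_hy1 : ∀ k x, y k x < 1)
    (hw : ∀ k x, (w k x : ℕ) = ⌊(M : ℝ) * y k x⌋₊) (hg : Good K M A w) (u v : ρ → ℝ)
    (hu : ∀ x, 0 ≤ u x) (huv : ∀ x, u x ≤ v x) (hv : ∀ x, v x ≤ 1) :
    |((univ.filter (fun k => ∀ x, u x ≤ y k x ∧ y k x < v x)).card : ℝ) - K * ∏ x, (v x - u x)| ≤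
      A + K * (Fintype.card ρ * (2 / M)) := by
  have hMR : (0 : ℝ) < M := by exact_mod_cast hM
  have hw1 : ∀ k x, ((w k x : ℕ) : ℝ) ≤ M * y k x := fun k x => by
    rw [hw]
    exact Nat.floor_le (mul_nonneg hMR.le (hy0 k x))
  have hw2 : ∀ k x, (M : ℝ) * y k x < ((w k x : ℕ) : ℝ) + 1 := fun k x => by
    rw [hw]
    exact Nat.lt_floor_add_one _
  have hd0 : ∀ x, 0 ≤ v x - u x := fun x => sub_nonneg.2 (huv x)
  have hd1 : ∀ x, v x - u x ≤ 1 := fun x => by linarith [hu x, hv x]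
  have hKR : (0 : ℝ) ≤ K := Nat.cast_nonneg K
  rw [abs_le]
  constructor
  · -- lower bound
    by_cases hab : ∀ x, ⌈(M : ℝ) * u x⌉₊ ≤ ⌊(M : ℝ) * v x⌋₊
    · have hbM : ∀ x, ⌊(M : ℝ) * v x⌋₊ ≤ M := fun x => by
        have h1 : (⌊(M : ℝ) * v x⌋₊ : ℝ) ≤ M := by
          refine (Nat.floor_le (mul_nonneg hMR.le ((hu x).trans (huv x)))).trans ?_
          have := hv x
          nlinarith
        exact_mod_cast h1
      have h1 := (abs_le.1 (hg (fun x => ⌈(M : ℝ) * u x⌉₊) (fun x => ⌊(M : ℝ) * v x⌋₊) hab hbM)).1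
      have h2 : ((univ.filter (fun k => ∀ x, ⌈(M : ℝ) * u x⌉₊ ≤ (w k x : ℕ) ∧
          (w k x : ℕ) < ⌊(M : ℝ) * v x⌋₊)).card : ℝ) ≤
          ((univ.filter (fun k => ∀ x, u x ≤ y k x ∧ y k x < v x)).card : ℝ) := by
        have h3 : univ.filter (fun k => ∀ x, ⌈(M : ℝ) * u x⌉₊ ≤ (w k x : ℕ) ∧
          (w k x : ℕ) < ⌊(M : ℝ) * v x⌋₊) ⊆ univ.filter (fun k => ∀ x, u x ≤ y k x ∧ y k x < v x) := by
          intro k hk
          rw [mem_filter] at hk ⊢
          refine ⟨hk.1, fun x => ?_⟩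
          obtain ⟨h4, h5⟩ := hk.2 x
          constructor
          · have h6 : (M : ℝ) * u x ≤ ((w k x : ℕ) : ℝ) := (Nat.le_ceil _).trans (by exact_mod_cast h4)
            exact le_of_mul_le_mul_left (h6.trans (hw1 k x)) hMR
          · have h6 : ((w k x : ℕ) : ℝ) + 1 ≤ (⌊(M : ℝ) * v x⌋₊ : ℝ) := by exact_mod_cast h5
            have h7 : (⌊(M : ℝ) * v x⌋₊ : ℝ) ≤ M * v x :=
              Nat.floor_le (mul_nonneg hMR.le ((hu x).trans (huv x)))
            exact lt_of_mul_lt_mul_left ((hw2 k x).trans_le (h6.trans h7)) hMR.le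
        exact_mod_cast card_le_card h3
      have h3 := prod_close (fun x => ((⌊(M : ℝ) * v x⌋₊ : ℝ) - (⌈(M : ℝ) * u x⌉₊ : ℝ)) / M)
        (fun x => v x - u x) (2 / M)
        (fun x => by
          have : (⌈(M : ℝ) * u x⌉₊ : ℝ) ≤ ⌊(M : ℝ) * v x⌋₊ := by exact_mod_cast hab x
          exact div_nonneg (by linarith) hMR.le)
        (fun x => by
          rw [div_le_one hMR]
          have h1 : (⌊(M : ℝ) * v x⌋₊ : ℝ) ≤ M := by exact_mod_cast hbM x
          have h2 : (0 : ℝ) ≤ (⌈(M : ℝ) * u x⌉₊ : ℝ) := Nat.cast_nonneg _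
          linarith) hd0 hd1
        (fun x => by
          have h1 : (⌊(M : ℝ) * v x⌋₊ : ℝ) ≤ M * v x :=
            Nat.floor_le (mul_nonneg hMR.le ((hu x).trans (huv x)))
          have h2 := Nat.lt_floor_add_one ((M : ℝ) * v x)
          have h3 := Nat.le_ceil ((M : ℝ) * u x)
          have h4 := Nat.ceil_lt_add_one (mul_nonneg hMR.le (hu x))
          have e1 : ((⌊(M : ℝ) * v x⌋₊ : ℝ) - (⌈(M : ℝ) * u x⌉₊ : ℝ)) / M - (v x - u x) =
              (((⌊(M : ℝ) * v x⌋₊ : ℝ) - M * v x) - ((⌈(M : ℝ) * u x⌉₊ : ℝ) - M * u x)) / M := by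
            field_simp
            ring
          rw [e1, abs_div, abs_of_pos hMR]
          gcongr
          rw [abs_le]
          constructor <;> linarith)
      have h4 := (abs_le.1 h3).1
      have h5 : (K : ℝ) * ∏ x, (v x - u x) ≤ K * ∏ x, (((⌊(M : ℝ) * v x⌋₊ : ℝ) - (⌈(M : ℝ) * u x⌉₊ : ℝ)) / M)
          + K * (Fintype.card ρ * (2 / M)) := by
        rw [← mul_add]
        apply mul_le_mul_of_nonneg_left _ hKR
        linarith
      linarith
    · push Not at hab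
      obtain ⟨x, hx⟩ := hab
      have h1 : (M : ℝ) * v x - M * u x < 1 := by
        have h2 := Nat.lt_floor_add_one ((M : ℝ) * v x)
        have h3 : (⌊(M : ℝ) * v x⌋₊ : ℝ) + 1 ≤ (⌈(M : ℝ) * u x⌉₊ : ℝ) := by exact_mod_cast hx
        have h4 := Nat.ceil_lt_add_one (mul_nonneg hMR.le (hu x))
        linarith
      have h2 : v x - u x ≤ 1 / M := by
        rw [le_div_iff₀ hMR]
        linarith
      have h3 : ∏ x, (v x - u x) ≤ 1 / M := by
        rw [← Finset.mul_prod_erase univ _ (mem_univ x)]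
        have h4 : ∏ y ∈ univ.erase x, (v y - u y) ≤ 1 :=
          prod_le_one (fun y _ => hd0 y) fun y _ => hd1 y
        have h5 : 0 ≤ ∏ y ∈ univ.erase x, (v y - u y) := prod_nonneg fun y _ => hd0 y
        calc (v x - u x) * ∏ y ∈ univ.erase x, (v y - u y) ≤ 1 / M * 1 :=
              mul_le_mul h2 h4 h5 (by positivity)
          _ = 1 / M := mul_one _
      have h4 : (1 : ℝ) ≤ Fintype.card ρ := by
        exact_mod_cast Fintype.card_pos_iff.2 ⟨x⟩
      have h5 : (K : ℝ) * ∏ x, (v x - u x) ≤ K * (Fintype.card ρ * (2 / M)) := by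
        apply mul_le_mul_of_nonneg_left _ hKR
        refine h3.trans ?_
        calc (1 : ℝ) / M ≤ 1 * (2 / M) := by
              rw [one_mul]
              gcongr
              norm_num
          _ ≤ Fintype.card ρ * (2 / M) := by gcongr
      have h6 : (0 : ℝ) ≤ ((univ.filter (fun k => ∀ x, u x ≤ y k x ∧ y k x < v x)).card : ℝ) :=
        Nat.cast_nonneg _
      linarith
  · -- upper bound
    have hbM : ∀ x, ⌈(M : ℝ) * v x⌉₊ ≤ M := fun x => by
      rw [Nat.ceil_le]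
      have := hv x
      nlinarith
    have hab : ∀ x, ⌊(M : ℝ) * u x⌋₊ ≤ ⌈(M : ℝ) * v x⌉₊ := fun x => by
      have h1 : (⌊(M : ℝ) * u x⌋₊ : ℝ) ≤ (⌈(M : ℝ) * v x⌉₊ : ℝ) := by
        refine (Nat.floor_le (mul_nonneg hMR.le (hu x))).trans (le_trans ?_ (Nat.le_ceil _))
        have := huv x
        nlinarith
      exact_mod_cast h1
    have h1 := (abs_le.1 (hg (fun x => ⌊(M : ℝ) * u x⌋₊) (fun x => ⌈(M : ℝ) * v x⌉₊) hab hbM)).2
    have h2 : ((univ.filter (fun k => ∀ x, u x ≤ y k x ∧ y k x < v x)).card : ℝ) ≤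
        ((univ.filter (fun k => ∀ x, ⌊(M : ℝ) * u x⌋₊ ≤ (w k x : ℕ) ∧
          (w k x : ℕ) < ⌈(M : ℝ) * v x⌉₊)).card : ℝ) := by
      have h3 : univ.filter (fun k => ∀ x, u x ≤ y k x ∧ y k x < v x) ⊆
          univ.filter (fun k => ∀ x, ⌊(M : ℝ) * u x⌋₊ ≤ (w k x : ℕ) ∧
          (w k x : ℕ) < ⌈(M : ℝ) * v x⌉₊) := by
        intro k hk
        rw [mem_filter] at hk ⊢
        refine ⟨hk.1, fun x => ?_⟩
        obtain ⟨h4, h5⟩ := hk.2 x
        constructor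
        · rw [hw]
          exact Nat.floor_le_floor (mul_le_mul_of_nonneg_left h4 hMR.le)
        · have h6 : ((w k x : ℕ) : ℝ) < (⌈(M : ℝ) * v x⌉₊ : ℝ) :=
            (hw1 k x).trans_lt ((mul_lt_mul_of_pos_left h5 hMR).trans_le (Nat.le_ceil _))
          exact_mod_cast h6
      exact_mod_cast card_le_card h3
    have h3 := prod_close (fun x => ((⌈(M : ℝ) * v x⌉₊ : ℝ) - (⌊(M : ℝ) * u x⌋₊ : ℝ)) / M)
      (fun x => v x - u x) (2 / M)
      (fun x => by
        have : (⌊(M : ℝ) * u x⌋₊ : ℝ) ≤ ⌈(M : ℝ) * v x⌉₊ := by exact_mod_cast hab x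
        exact div_nonneg (by linarith) hMR.le)
      (fun x => by
        rw [div_le_one hMR]
        have h1 : (⌈(M : ℝ) * v x⌉₊ : ℝ) ≤ M := by exact_mod_cast hbM x
        have h2 : (0 : ℝ) ≤ (⌊(M : ℝ) * u x⌋₊ : ℝ) := Nat.cast_nonneg _
        linarith) hd0 hd1
      (fun x => by
        have h1 : (⌊(M : ℝ) * u x⌋₊ : ℝ) ≤ M * u x :=
          Nat.floor_le (mul_nonneg hMR.le (hu x))
        have h2 := Nat.lt_floor_add_one ((M : ℝ) * u x)
        have h3 := Nat.le_ceil ((M : ℝ) * v x)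
        have h4 := Nat.ceil_lt_add_one (mul_nonneg hMR.le ((hu x).trans (huv x)))
        have e1 : ((⌈(M : ℝ) * v x⌉₊ : ℝ) - (⌊(M : ℝ) * u x⌋₊ : ℝ)) / M - (v x - u x) =
            (((⌈(M : ℝ) * v x⌉₊ : ℝ) - M * v x) - ((⌊(M : ℝ) * u x⌋₊ : ℝ) - M * u x)) / M := by
          field_simp
          ring
        rw [e1, abs_div, abs_of_pos hMR]
        gcongr
        rw [abs_le]
        constructor <;> linarith)
    have h4 := (abs_le.1 h3).2
    have h5 : (K : ℝ) * ∏ x, (((⌈(M : ℝ) * v x⌉₊ : ℝ) - (⌊(M : ℝ) * u x⌋₊ : ℝ)) / M) ≤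
        K * ∏ x, (v x - u x) + K * (Fintype.card ρ * (2 / M)) := by
      rw [← mul_add]
      apply mul_le_mul_of_nonneg_left _ hKR
      linarith
    linarith

/-- the boxes of the grid -/
noncomputable def Sb (M : ℕ) [DecidableEq ρ] (a b : ρ → ℕ) : Finset (ρ → Fin M) :=
  Fintype.piFinset fun x => univ.filter (fun c : Fin M => a x ≤ (c : ℕ) ∧ (c : ℕ) < b x)

theorem mem_Sb (M : ℕ) [DecidableEq ρ] (a b : ρ → ℕ) (τ : ρ → Fin M) :
    τ ∈ Sb M a b ↔ ∀ x, a x ≤ (τ x : ℕ) ∧ (τ x : ℕ) < b x := by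
  unfold Sb
  rw [Fintype.mem_piFinset]
  simp

theorem card_Sb (M : ℕ) [DecidableEq ρ] (a b : ρ → ℕ) (hab : ∀ x, a x ≤ b x) (hb : ∀ x, b x ≤ M) :
    ((Sb M a b).card : ℝ) / (M : ℝ) ^ Fintype.card ρ = ∏ x, (((b x : ℝ) - a x) / M) := by
  have h7 : ∀ x, ((univ.filter (fun c : Fin M => a x ≤ (c : ℕ) ∧ (c : ℕ) < b x)).card : ℝ) =
      (b x : ℝ) - a x := by
    intro x
    have h8 : (univ.filter (fun c : Fin M => a x ≤ (c : ℕ) ∧ (c : ℕ) < b x)).card =
        (Finset.Ico (a x) (b x)).card := by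
      refine Finset.card_bij (fun c _ => (c : ℕ)) ?_ ?_ ?_
      · intro c hc
        rw [mem_filter] at hc
        rw [Finset.mem_Ico]
        exact hc.2
      · intro c _ c' _ h
        exact Fin.ext h
      · intro c hc
        rw [Finset.mem_Ico] at hc
        have := hb x
        exact ⟨⟨c, by omega⟩, by rw [mem_filter]; exact ⟨mem_univ _, hc⟩, rfl⟩
    rw [h8, Nat.card_Ico, Nat.cast_sub (hab x)]
  unfold Sb
  rw [Fintype.card_piFinset]
  push_cast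
  rw [Finset.prod_congr rfl fun x _ => h7 x, Finset.prod_div_distrib, Finset.prod_const, card_univ]

open Classical in
/-- the words which are not evenly distributed in a box -/
noncomputable def Fb (K M : ℕ) [DecidableEq ρ] (A : ℝ) (a b : ρ → ℕ) : Finset (Fin K → ρ → Fin M) :=
  univ.filter (fun w => A < |((univ.filter (fun k => w k ∈ Sb M a b)).card : ℝ) -
    K * ((Sb M a b).card / Fintype.card (ρ → Fin M))|)

theorem card_Fb (K M : ℕ) [DecidableEq ρ] (hK : 1 ≤ K) (hM : 1 ≤ M) (A : ℝ) (hA : 0 < A)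
    (a b : ρ → ℕ) : ((Fb K M A a b).card : ℝ) ≤
      2 * Real.exp (-(A ^ 2) / (2 * K)) * ((M : ℝ) ^ Fintype.card ρ) ^ K := by
  have : Nonempty (ρ → Fin M) := ⟨fun _ => ⟨0, hM⟩⟩
  have h1 := words_dev K hK (Sb M a b) A hA
  have hT : (Fintype.card (ρ → Fin M) : ℝ) = (M : ℝ) ^ Fintype.card ρ := by simp
  unfold Fb
  rw [hT] at h1
  rw [hT]
  convert h1

open Classical in
/-- most words are good -/
theorem bad_words (K M : ℕ) (hK : 1 ≤ K) (hM : 1 ≤ M) (A : ℝ) (hA : 0 < A) :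
    (((univ : Finset (Fin K → ρ → Fin M)).filter (fun w => ¬ Good K M A w)).card : ℝ) ≤
      ((M : ℝ) + 1) ^ (2 * Fintype.card ρ) *
        (2 * Real.exp (-(A ^ 2) / (2 * K)) * ((M : ℝ) ^ Fintype.card ρ) ^ K) := by
  have hT : (Fintype.card (ρ → Fin M) : ℝ) = (M : ℝ) ^ Fintype.card ρ := by simp
  obtain ⟨G, hG⟩ : ∃ G : Finset (Fin K → ρ → Fin M), G = univ.filter (fun w => ¬ Good K M A w) :=
    ⟨_, rfl⟩
  obtain ⟨F, hF⟩ : ∃ F : (ρ → Fin (M + 1)) × (ρ → Fin (M + 1)) → Finset (Fin K → ρ → Fin M),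
      F = fun ab => Fb K M A (fun x => (ab.1 x : ℕ)) (fun x => (ab.2 x : ℕ)) := ⟨_, rfl⟩
  have h1 : G ⊆ univ.biUnion F := by
    intro w hw
    rw [hG, mem_filter] at hw
    have h2 := hw.2
    unfold Good at h2
    push Not at h2
    obtain ⟨a, b, hab, hb, h3⟩ := h2
    rw [mem_biUnion]
    refine ⟨(fun x => ⟨a x, by have := hab x; have := hb x; omega⟩,
      fun x => ⟨b x, by have := hb x; omega⟩), mem_univ _, ?_⟩
    rw [hF]
    simp only
    unfold Fb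
    rw [mem_filter, hT, card_Sb M a b hab hb]
    refine ⟨mem_univ _, ?_⟩
    have h4 : (univ.filter (fun k => w k ∈ Sb M a b)) =
        univ.filter (fun k => ∀ x, a x ≤ (w k x : ℕ) ∧ (w k x : ℕ) < b x) :=
      Finset.filter_congr fun k _ => mem_Sb M a b (w k)
    rw [h4]
    exact h3
  have h2 := (card_le_card h1).trans card_biUnion_le
  have h3 : (G.card : ℝ) ≤ ∑ ab, ((F ab).card : ℝ) := by exact_mod_cast h2
  rw [← hG]
  refine h3.trans ?_
  have h5 : ∀ ab ∈ (univ : Finset ((ρ → Fin (M + 1)) × (ρ → Fin (M + 1)))), ((F ab).card : ℝ) ≤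
      2 * Real.exp (-(A ^ 2) / (2 * K)) * ((M : ℝ) ^ Fintype.card ρ) ^ K := by
    intro ab _
    rw [hF]
    exact card_Fb K M hK hM A hA _ _
  refine (Finset.sum_le_sum h5).trans ?_
  rw [Finset.sum_const, card_univ, nsmul_eq_mul]
  have h4 : ((Fintype.card ((ρ → Fin (M + 1)) × (ρ → Fin (M + 1))) : ℕ) : ℝ) =
      ((M : ℝ) + 1) ^ (2 * Fintype.card ρ) := by
    rw [Fintype.card_prod]
    simp
    ring
  rw [h4]

end Pool.Agent.J6H36.RB
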