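import Pool.Agent.J6H36.RB.TV
import Pool.Agent.J6H36.RB.Grid

set_option autoImplicit false
set_option maxHeartbeats 4000000

/-!
# In almost all bases the numbers are well distributed up to the depth
-/

namespace Pool.Agent.J6H36.RB

open Finset Polynomial Filter

theorem beta_small (m : ℕ) (ε : ℝ) (hε : 0 < ε) : ∃ C : ℝ, 0 ≤ C ∧ ∀ K : ℕ, 1 ≤ K →
    ((K : ℝ) + 1) ^ (2 * m) * (2 * Real.exp (-(((K : ℝ) ^ (1 / 2 + ε) / 2) ^ 2) / (2 * K))) ≤
      C * ((K : ℝ) ^ 2)⁻¹ := by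
  obtain ⟨q, hq⟩ := exists_nat_ge (((2 * m + 2 : ℕ) : ℝ) / (2 * ε))
  refine ⟨2 * 2 ^ (2 * m) * (q.factorial * 8 ^ q), by positivity, fun K hK => ?_⟩
  have hKR : (1 : ℝ) ≤ K := by exact_mod_cast hK
  have hK0 : (0 : ℝ) < K := by linarith
  set x : ℝ := (K : ℝ) ^ (2 * ε) / 8 with hx
  have hx0 : 0 < x := by positivity
  have e1 : -(((K : ℝ) ^ (1 / 2 + ε) / 2) ^ 2) / (2 * K) = -x := by
    have h1 : ((K : ℝ) ^ (1 / 2 + ε)) ^ 2 = K * (K : ℝ) ^ (2 * ε) := by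
      rw [← Real.rpow_natCast, ← Real.rpow_mul hK0.le]
      have : (1 / 2 + ε) * ((2 : ℕ) : ℝ) = 1 + 2 * ε := by push_cast; ring
      rw [this, Real.rpow_add hK0, Real.rpow_one]
    rw [div_pow, h1, hx]
    field_simp
    norm_num
  rw [e1]
  have h2 := Real.pow_div_factorial_le_exp x hx0.le q
  have h3 : Real.exp (-x) ≤ q.factorial / x ^ q := by
    rw [Real.exp_neg, ← one_div, div_le_div_iff₀ (Real.exp_pos x) (by positivity)]
    rw [div_le_iff₀ (by positivity)] at h2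
    linarith
  have h4 : (K : ℝ) ^ (2 * m + 2) / 8 ^ q ≤ x ^ q := by
    rw [hx, div_pow]
    gcongr
    rw [← Real.rpow_natCast ((K : ℝ) ^ (2 * ε)) q, ← Real.rpow_mul hK0.le,
      ← Real.rpow_natCast (K : ℝ) (2 * m + 2)]
    apply Real.rpow_le_rpow_of_exponent_le hKR
    rw [div_le_iff₀ (by linarith)] at hq
    linarith
  have h5 : Real.exp (-x) ≤ q.factorial * 8 ^ q / (K : ℝ) ^ (2 * m + 2) := by
    refine h3.trans ?_
    rw [div_le_div_iff₀ (by positivity) (by positivity)]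
    rw [div_le_iff₀ (by positivity)] at h4
    have : (0 : ℝ) ≤ (q.factorial : ℝ) := by positivity
    nlinarith
  have h6 : ((K : ℝ) + 1) ^ (2 * m) ≤ 2 ^ (2 * m) * (K : ℝ) ^ (2 * m) := by
    rw [← mul_pow]
    exact pow_le_pow_left₀ (by linarith) (by linarith) _
  calc ((K : ℝ) + 1) ^ (2 * m) * (2 * Real.exp (-x)) ≤
      (2 ^ (2 * m) * (K : ℝ) ^ (2 * m)) * (2 * (q.factorial * 8 ^ q / (K : ℝ) ^ (2 * m + 2))) := by
        gcongr
    _ = _ := by
      rw [pow_add]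
      field_simp

open Classical in
/-- In a proportion close to one of the bases of every long window the numbers are jointly well
distributed up to the depth. -/
theorem disc_all : ∃ δ : ℝ, 0 < δ ∧ δ ≤ 1 / 48 ∧ ∀ (r t : ℕ) (α : Fin r → ℝ) (A c0 : ℝ), 1 ≤ A →
    0 < c0 → Typ α A c0 → ∀ f : Fin t → ℤ[X], Indep f → ∀ ε η : ℝ, 0 < ε → 0 < η →
    ∃ (K1 : ℕ) (X0 : ℝ), ∀ L : ℕ, X0 ≤ Real.log L → ∀ N : ℕ,
    (((Finset.Ioc N (N + L)).filter (fun n => ¬ ∀ K : ℕ, K1 ≤ K → (K : ℝ) ≤ (Real.log L) ^ δ →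
      ∀ u v : Fin t × Fin r → ℝ, (∀ x, 0 ≤ u x) → (∀ x, u x ≤ v x) → (∀ x, v x ≤ 1) →
      |((univ.filter (fun k : Fin K => ∀ x : Fin t × Fin r,
          u x ≤ Int.fract (yy f α n K (x.1, k, x.2)) ∧
          Int.fract (yy f α n K (x.1, k, x.2)) < v x)).card : ℝ) - K * ∏ x, (v x - u x)| ≤
        (K : ℝ) ^ (1 / 2 + ε))).card : ℝ) ≤ η * L := by
  obtain ⟨δ, hδ0, hδ1, htv⟩ := tv_gen
  refine ⟨δ, hδ0, hδ1, ?_⟩
  intro r t α A c0 hA hc0 htyp f hf ε η hε hη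
  obtain ⟨X1, hX1⟩ := htv r t α A c0 hA hc0 htyp f hf
  obtain ⟨C, hC0, hC⟩ := beta_small (t * r) ε hε
  -- the starting point
  have ev1 : ∀ᶠ K : ℕ in atTop, 2 * C * (2 / ((K : ℝ) + 1)) ≤ η / 2 ∧
      4 * ((t * r : ℕ) : ℝ) ≤ (K : ℝ) ^ (1 / 2 + ε) ∧ 1 ≤ K := by
    have t1 : Tendsto (fun K : ℕ => (K : ℝ) ^ (1 / 2 + ε)) atTop atTop :=
      (tendsto_rpow_atTop (by linarith)).comp tendsto_natCast_atTop_atTop
    have t2 : ∀ᶠ K : ℕ in atTop, 8 * C / η ≤ (K : ℝ) :=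
      tendsto_natCast_atTop_atTop.eventually_ge_atTop _
    filter_upwards [t1.eventually_ge_atTop (4 * ((t * r : ℕ) : ℝ)), t2, eventually_ge_atTop 1]
      with K h1 h2 h3
    refine ⟨?_, h1, h3⟩
    rw [div_le_iff₀ hη] at h2
    have hK : (0 : ℝ) < (K : ℝ) + 1 := by positivity
    rw [← mul_div_assoc, div_le_iff₀ hK]
    nlinarith
  obtain ⟨K0, hK0⟩ := eventually_atTop.1 ev1
  have ev2 : ∀ᶠ X : ℝ in atTop, 1 ≤ X ∧ (X ^ δ + 1) * Real.exp (-(X ^ δ)) ≤ η / 2 := by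
    have t1 : Tendsto (fun X : ℝ => X ^ δ) atTop atTop := tendsto_rpow_atTop hδ0
    filter_upwards [eventually_ge_atTop (1 : ℝ), t1.eventually_ge_atTop (1 : ℝ),
      t1.eventually_ge_atTop (8 / η)] with X hX h1 h2
    refine ⟨hX, ?_⟩
    set w := X ^ δ with hw
    have h3 := Real.quadratic_le_exp_of_nonneg (show 0 ≤ w by linarith)
    rw [Real.exp_neg, ← div_eq_mul_inv, div_le_iff₀ (Real.exp_pos w)]
    rw [div_le_iff₀ hη] at h2
    have h4 : w ^ 2 / 2 ≤ Real.exp w := by linarith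
    have h5 : η / 2 * (w ^ 2 / 2) ≤ η / 2 * Real.exp w := by gcongr
    have h6 : 8 * w ≤ w * η * w := by nlinarith
    nlinarith
  obtain ⟨X2, hX2⟩ := eventually_atTop.1 ev2
  refine ⟨K0, max X1 X2, ?_⟩
  intro L hL N
  have hLX1 : X1 ≤ Real.log L := (le_max_left _ _).trans hL
  obtain ⟨a1, a2⟩ := hX2 _ ((le_max_right _ _).trans hL)
  set X : ℝ := Real.log L with hX
  have hL0 : (0 : ℝ) < L := by
    by_contra hcon
    have : (L : ℝ) = 0 := le_antisymm (not_lt.1 hcon) (Nat.cast_nonneg _)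
    rw [hX, this, Real.log_zero] at a1
    linarith
  set Kmax : ℕ := ⌊X ^ δ⌋₊ with hKmax
  have hXd0 : 0 ≤ X ^ δ := Real.rpow_nonneg (by linarith) _
  have hKm : (Kmax : ℝ) ≤ X ^ δ := Nat.floor_le hXd0
  -- the bad bases for one depth
  have hone : ∀ K ∈ Finset.Ioo (K0 - 1) (Kmax + 1),
      (((Finset.Ioc N (N + L)).filter (fun n => ¬ ∀ u v : Fin t × Fin r → ℝ, (∀ x, 0 ≤ u x) →
      (∀ x, u x ≤ v x) → (∀ x, v x ≤ 1) →
      |((univ.filter (fun k : Fin K => ∀ x : Fin t × Fin r,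
          u x ≤ Int.fract (yy f α n K (x.1, k, x.2)) ∧
          Int.fract (yy f α n K (x.1, k, x.2)) < v x)).card : ℝ) - K * ∏ x, (v x - u x)| ≤
        (K : ℝ) ^ (1 / 2 + ε))).card : ℝ) ≤
      L * (C * ((K : ℝ) ^ 2)⁻¹) + L * Real.exp (-(X ^ δ)) := by
    intro K hK
    rw [Finset.mem_Ioo] at hK
    obtain ⟨c1, c2, c3⟩ := hK0 K (by omega)
    have hKn : K ≤ Kmax := by omega
    have hKX : (K : ℝ) ≤ X ^ δ := le_trans (by exact_mod_cast hKn) hKm
    have hKR : (1 : ℝ) ≤ K := by exact_mod_cast c3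
    have hKp : (0 : ℝ) < K := by linarith
    set B : ℝ := (K : ℝ) ^ (1 / 2 + ε) / 2 with hB
    have hB0 : 0 < B := by positivity
    have hlt : ∀ n x, ⌊(K : ℝ) * Int.fract (yy f α n K x)⌋₊ < K := fun n x => by
      rw [Nat.floor_lt (by positivity)]
      have := Int.fract_lt_one (yy f α n K x)
      nlinarith
    set cl : ℕ → Fin t × Fin K × Fin r → Fin K := fun n x =>
      ⟨⌊(K : ℝ) * Int.fract (yy f α n K x)⌋₊, hlt n x⟩ with hcl
    obtain ⟨tw, htw⟩ : ∃ tw : (Fin t × Fin K × Fin r → Fin K) → Fin K → Fin t × Fin r → Fin K,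
      tw = fun c k x => c (x.1, k, x.2) := ⟨_, rfl⟩
    obtain ⟨Wb, hWb⟩ : ∃ Wb : Finset (Fin K → Fin t × Fin r → Fin K),
      Wb = univ.filter (fun w => ¬ Good K K B w) := ⟨_, rfl⟩
    obtain ⟨W, hW⟩ : ∃ W : Finset (Fin t × Fin K × Fin r → Fin K),
      W = univ.filter (fun c => tw c ∈ Wb) := ⟨_, rfl⟩
    have hWc : W.card ≤ Wb.card := by
      refine Finset.card_le_card_of_injOn tw ?_ ?_
      · intro c hc
        rw [hW, mem_coe, mem_filter] at hc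
        exact hc.2
      · intro c _ c' _ h
        rw [htw] at h
        funext x
        exact congrFun (congrFun h x.2.1) (x.1, x.2.2)
    have hcardρ : Fintype.card (Fin t × Fin r) = t * r := by simp
    have hbad : (Wb.card : ℝ) ≤ ((K : ℝ) + 1) ^ (2 * (t * r)) *
        (2 * Real.exp (-(B ^ 2) / (2 * K)) * ((K : ℝ) ^ (t * r)) ^ K) := by
      rw [hWb, ← hcardρ]
      have hbw := bad_words (ρ := Fin t × Fin r) K K c3 c3 B hB0
      refine le_trans (le_of_eq ?_) hbw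
      rw [Nat.cast_inj]
      apply congrArg Finset.card
      ext w
      simp only [mem_filter, mem_univ, true_and]
    have hmain := hX1 L hLX1 N K K hKX c3 (by
        have := Real.add_one_le_exp (X ^ δ)
        linarith) cl ∅ (by
        rw [card_empty]
        push_cast
        positivity) (fun n _ _ x => by
        have h1 : ((cl n x : ℕ) : ℝ) = (⌊(K : ℝ) * Int.fract (yy f α n K x)⌋₊ : ℝ) := rfl
        rw [h1]
        constructor
        · rw [div_le_iff₀ hKp]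
          have := Nat.floor_le (show 0 ≤ (K : ℝ) * Int.fract (yy f α n K x) by positivity)
          linarith
        · have h2 := Nat.lt_floor_add_one ((K : ℝ) * Int.fract (yy f α n K x))
          have h3 : Int.fract (yy f α n K x) < ((⌊(K : ℝ) * Int.fract (yy f α n K x)⌋₊ : ℝ) + 1) / K := by
            rw [lt_div_iff₀ hKp]
            linarith
          have := Real.exp_pos (-(Real.log L / 4))
          linarith) W
    have h1 := (abs_le.1 hmain).2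
    have hsub : (Finset.Ioc N (N + L)).filter (fun n => ¬ ∀ u v : Fin t × Fin r → ℝ, (∀ x, 0 ≤ u x) →
      (∀ x, u x ≤ v x) → (∀ x, v x ≤ 1) →
      |((univ.filter (fun k : Fin K => ∀ x : Fin t × Fin r,
          u x ≤ Int.fract (yy f α n K (x.1, k, x.2)) ∧
          Int.fract (yy f α n K (x.1, k, x.2)) < v x)).card : ℝ) - K * ∏ x, (v x - u x)| ≤
        (K : ℝ) ^ (1 / 2 + ε)) ⊆ (Finset.Ioc N (N + L)).filter (fun n => cl n ∈ W) := by
      intro n hn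
      rw [mem_filter] at hn ⊢
      refine ⟨hn.1, ?_⟩
      by_contra hcon
      apply hn.2
      intro u v hu huv hv
      have hg : Good K K B (tw (cl n)) := by
        by_contra hg
        apply hcon
        rw [hW, mem_filter]
        refine ⟨mem_univ _, ?_⟩
        rw [hWb, mem_filter]
        exact ⟨mem_univ _, hg⟩
      have h2 := grid_to_box c3 hB0.le (tw (cl n)) (fun k x => yy f α n K (x.1, k, x.2) |> Int.fract)
        (fun k x => Int.fract_nonneg _) (fun k x => Int.fract_lt_one _) (fun k x => by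
          rw [htw]) hg u v hu huv hv
      rw [hcardρ] at h2
      refine h2.trans ?_
      have h3 : (K : ℝ) * (((t * r : ℕ) : ℝ) * (2 / K)) = 2 * ((t * r : ℕ) : ℝ) := by
        field_simp
      rw [h3]
      linarith
    have h2 : (((Finset.Ioc N (N + L)).filter (fun n => ¬ ∀ u v : Fin t × Fin r → ℝ, (∀ x, 0 ≤ u x) →
      (∀ x, u x ≤ v x) → (∀ x, v x ≤ 1) →
      |((univ.filter (fun k : Fin K => ∀ x : Fin t × Fin r,
          u x ≤ Int.fract (yy f α n K (x.1, k, x.2)) ∧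
          Int.fract (yy f α n K (x.1, k, x.2)) < v x)).card : ℝ) - K * ∏ x, (v x - u x)| ≤
        (K : ℝ) ^ (1 / 2 + ε))).card : ℝ) ≤ ((Finset.Ioc N (N + L)).filter (fun n => cl n ∈ W)).card := by
      exact_mod_cast card_le_card hsub
    refine h2.trans ?_
    have h3 : (W.card : ℝ) / (K : ℝ) ^ (t * (K * r)) ≤ C * ((K : ℝ) ^ 2)⁻¹ := by
      refine le_trans ?_ (hC K c3)
      have h4 : (K : ℝ) ^ (t * (K * r)) = ((K : ℝ) ^ (t * r)) ^ K := by
        rw [← pow_mul]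
        congr 1
        ring
      rw [h4, div_le_iff₀ (by positivity)]
      have h5 : (W.card : ℝ) ≤ Wb.card := by exact_mod_cast hWc
      refine h5.trans (hbad.trans (le_of_eq ?_))
      ring
    have h4 : (L : ℝ) * (W.card / (K : ℝ) ^ (t * (K * r))) ≤ L * (C * ((K : ℝ) ^ 2)⁻¹) := by gcongr
    linarith
  -- the union
  obtain ⟨Bad, hBad⟩ : ∃ Bad : ℕ → Finset ℕ, Bad = fun K => (Finset.Ioc N (N + L)).filter (fun n =>
      ¬ ∀ u v : Fin t × Fin r → ℝ, (∀ x, 0 ≤ u x) → (∀ x, u x ≤ v x) → (∀ x, v x ≤ 1) →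
      |((univ.filter (fun k : Fin K => ∀ x : Fin t × Fin r,
          u x ≤ Int.fract (yy f α n K (x.1, k, x.2)) ∧
          Int.fract (yy f α n K (x.1, k, x.2)) < v x)).card : ℝ) - K * ∏ x, (v x - u x)| ≤
        (K : ℝ) ^ (1 / 2 + ε)) := ⟨_, rfl⟩
  have hK01 : 1 ≤ K0 := (hK0 K0 le_rfl).2.2
  have hsub : (Finset.Ioc N (N + L)).filter (fun n => ¬ ∀ K : ℕ, K0 ≤ K → (K : ℝ) ≤ X ^ δ →
      ∀ u v : Fin t × Fin r → ℝ, (∀ x, 0 ≤ u x) → (∀ x, u x ≤ v x) → (∀ x, v x ≤ 1) →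
      |((univ.filter (fun k : Fin K => ∀ x : Fin t × Fin r,
          u x ≤ Int.fract (yy f α n K (x.1, k, x.2)) ∧
          Int.fract (yy f α n K (x.1, k, x.2)) < v x)).card : ℝ) - K * ∏ x, (v x - u x)| ≤
        (K : ℝ) ^ (1 / 2 + ε)) ⊆ (Finset.Ioo (K0 - 1) (Kmax + 1)).biUnion Bad := by
    intro n hn
    rw [mem_filter] at hn
    obtain ⟨hn1, hn2⟩ := hn
    by_contra hcon
    apply hn2
    intro K hK1 hK2
    by_contra hK3
    apply hcon
    rw [mem_biUnion]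
    refine ⟨K, ?_, ?_⟩
    · rw [Finset.mem_Ioo]
      have : K ≤ Kmax := Nat.le_floor hK2
      omega
    · rw [hBad]
      simp only
      rw [mem_filter]
      exact ⟨hn1, hK3⟩
  have h1 := (card_le_card hsub).trans card_biUnion_le
  have h2 : (((Finset.Ioc N (N + L)).filter (fun n => ¬ ∀ K : ℕ, K0 ≤ K → (K : ℝ) ≤ X ^ δ →
      ∀ u v : Fin t × Fin r → ℝ, (∀ x, 0 ≤ u x) → (∀ x, u x ≤ v x) → (∀ x, v x ≤ 1) →
      |((univ.filter (fun k : Fin K => ∀ x : Fin t × Fin r,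
          u x ≤ Int.fract (yy f α n K (x.1, k, x.2)) ∧
          Int.fract (yy f α n K (x.1, k, x.2)) < v x)).card : ℝ) - K * ∏ x, (v x - u x)| ≤
        (K : ℝ) ^ (1 / 2 + ε))).card : ℝ) ≤ ∑ K ∈ Finset.Ioo (K0 - 1) (Kmax + 1), ((Bad K).card : ℝ) := by
    exact_mod_cast h1
  refine h2.trans ?_
  have h3 : ∀ K ∈ Finset.Ioo (K0 - 1) (Kmax + 1), ((Bad K).card : ℝ) ≤
      L * (C * ((K : ℝ) ^ 2)⁻¹) + L * Real.exp (-(X ^ δ)) := by
    intro K hK
    rw [hBad]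
    exact hone K hK
  refine (Finset.sum_le_sum h3).trans ?_
  rw [Finset.sum_add_distrib, ← Finset.mul_sum, ← Finset.mul_sum, Finset.sum_const, nsmul_eq_mul]
  have h4 := sum_Ioo_inv_sq_le (α := ℝ) (K0 - 1) (Kmax + 1)
  have h5 : C * ∑ K ∈ Finset.Ioo (K0 - 1) (Kmax + 1), ((K : ℝ) ^ 2)⁻¹ ≤ η / 2 := by
    have h6 : C * ∑ K ∈ Finset.Ioo (K0 - 1) (Kmax + 1), ((K : ℝ) ^ 2)⁻¹ ≤
        C * (2 / (((K0 - 1 : ℕ) : ℝ) + 1)) := by gcongr
    refine h6.trans ?_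
    have h7 : (((K0 - 1 : ℕ) : ℝ) + 1) = K0 := by
      rw [Nat.cast_sub hK01]
      push_cast
      ring
    rw [h7]
    have h8 := (hK0 K0 le_rfl).1
    have hK0R : (1 : ℝ) ≤ K0 := by exact_mod_cast hK01
    have h9 : (2 : ℝ) / K0 ≤ 2 * (2 / ((K0 : ℝ) + 1)) := by
      rw [← mul_div_assoc, div_le_div_iff₀ (by linarith) (by linarith)]
      linarith
    calc C * (2 / (K0 : ℝ)) ≤ C * (2 * (2 / ((K0 : ℝ) + 1))) := by gcongr
      _ = 2 * C * (2 / ((K0 : ℝ) + 1)) := by ring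
      _ ≤ η / 2 := h8
  have h6 : ((Finset.Ioo (K0 - 1) (Kmax + 1)).card : ℝ) ≤ X ^ δ + 1 := by
    rw [Nat.card_Ioo]
    have : ((Kmax + 1 - (K0 - 1) - 1 : ℕ) : ℝ) ≤ Kmax := by
      exact_mod_cast (by omega : Kmax + 1 - (K0 - 1) - 1 ≤ Kmax)
    linarith
  calc (L : ℝ) * (C * ∑ K ∈ Finset.Ioo (K0 - 1) (Kmax + 1), ((K : ℝ) ^ 2)⁻¹) +
      ((Finset.Ioo (K0 - 1) (Kmax + 1)).card : ℝ) * (L * Real.exp (-(X ^ δ)))
      ≤ L * (η / 2) + (X ^ δ + 1) * (L * Real.exp (-(X ^ δ))) := by gcongr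
    _ = L * (η / 2) + L * ((X ^ δ + 1) * Real.exp (-(X ^ δ))) := by ring
    _ ≤ L * (η / 2) + L * (η / 2) := by gcongr
    _ = η * L := by ring

end Pool.Agent.J6H36.RB
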