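import Pool.Agent.J6H36.RB.WJ

set_option autoImplicit false

/-!
# Vinogradov's bound for the bilinear sum, using only the leading coefficient
-/

namespace Pool.Agent.J6H36.RB

open Finset
open Pool.Agent.Y957.VK (J TT dz mn WJ S_VMVT S_DBL S_WB)

theorem one_sub_pow_le (k t : ℕ) (hk : 2 ≤ k) (ht : 1 ≤ t) : (1 - 1 / (k : ℝ)) ^ (k * t) ≤ 1 / t := by
  have hkR : (2 : ℝ) ≤ k := by exact_mod_cast hk
  have htR : (1 : ℝ) ≤ t := by exact_mod_cast ht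
  have h0 : 0 ≤ 1 - 1 / (k : ℝ) := by
    rw [sub_nonneg, div_le_one (by linarith)]
    linarith
  have h1 : 1 - 1 / (k : ℝ) ≤ Real.exp (-(1 / (k : ℝ))) := by
    have := Real.add_one_le_exp (-(1 / (k : ℝ)))
    linarith
  calc (1 - 1 / (k : ℝ)) ^ (k * t) ≤ (Real.exp (-(1 / (k : ℝ)))) ^ (k * t) :=
        pow_le_pow_left₀ h0 h1 _
    _ = Real.exp (-(t : ℝ)) := by
        rw [← Real.exp_nat_mul]
        congr 1
        push_cast
        field_simp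
    _ ≤ 1 / t := by
        rw [Real.exp_neg, ← one_div]
        apply one_div_le_one_div_of_le (by linarith)
        have := Real.add_one_le_exp (t : ℝ)
        linarith

theorem prod_WJ (s k M V : ℕ) (α : ℕ → ℝ) (ψ : ℝ) (hk : 2 ≤ k) (hs : 1 ≤ s) (hM : 1 ≤ M) (hV : 1 ≤ V)
    (hψ : 0 < ψ) (hV2 : V ≤ 2 * (s * M ^ k) + 1)
    (hV3 : V * (1 / ψ) ≤ (2 * (s * M ^ k : ℕ) + 1 : ℝ))
    (h : ∀ u : ℤ, u ≠ 0 → |u| ≤ V → ψ ≤ dz (α k * u)) :
    ∏ j ∈ Finset.Icc 1 k, WJ s M j (α j) ≤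
      4 / V * Real.exp (2 * k * Real.log (3 * s) + k * (k + 1) * Real.log M) := by
  have hMR : (1 : ℝ) ≤ M := by exact_mod_cast hM
  have hsR : (1 : ℝ) ≤ s := by exact_mod_cast hs
  have hVR : (1 : ℝ) ≤ V := by exact_mod_cast hV
  have hsq : ∀ j : ℕ, (2 * ((s * M ^ j : ℕ) : ℝ) + 1) ^ 2 ≤
      Real.exp (2 * Real.log (3 * s) + 2 * j * Real.log M) := by
    intro j
    have h1 : (2 * ((s * M ^ j : ℕ) : ℝ) + 1) ≤ 3 * s * M ^ j := by
      have : (1 : ℝ) ≤ (s : ℝ) * (M : ℝ) ^ j := one_le_mul_of_one_le_of_one_le hsR (one_le_pow₀ hMR)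
      push_cast
      nlinarith
    have h2 : Real.exp (2 * Real.log (3 * s) + 2 * j * Real.log M) = (3 * s * (M : ℝ) ^ j) ^ 2 := by
      have e1 : 2 * Real.log (3 * s) + 2 * j * Real.log M =
          (2 : ℕ) * (Real.log (3 * s * (M : ℝ) ^ j)) := by
        rw [Real.log_mul (x := 3 * (s : ℝ)) (y := (M : ℝ) ^ j) (by positivity) (by positivity),
          Real.log_pow]
        push_cast
        ring
      rw [e1, Real.exp_nat_mul, Real.exp_log (by positivity)]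
    rw [h2]
    have : (0 : ℝ) ≤ 2 * ((s * M ^ j : ℕ) : ℝ) + 1 := by positivity
    exact pow_le_pow_left₀ this h1 2
  have hone : ∀ j ∈ Finset.Icc 1 k, WJ s M j (α j) ≤ (if j = k then 4 / (V : ℝ) else 1) *
      Real.exp (2 * Real.log (3 * s) + 2 * j * Real.log M) := by
    intro j hj
    by_cases hjk : j = k
    · rw [if_pos hjk, hjk]
      refine (WJ_le s M k V (α k) ψ hV hψ hV2 hV3 h).trans ?_
      have := hsq k
      calc 4 * (2 * ((s * M ^ k : ℕ) : ℝ) + 1) ^ 2 / V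
          = 4 / V * (2 * ((s * M ^ k : ℕ) : ℝ) + 1) ^ 2 := by ring
        _ ≤ _ := by gcongr
    · rw [if_neg hjk, one_mul]
      exact ((Pool.Agent.Y331.VK.wb s M j (α j) hs hM).1).trans (hsq j)
  have hnn : ∀ j ∈ Finset.Icc 1 k, 0 ≤ WJ s M j (α j) := fun j _ => by
    rw [WJ]
    exact Finset.sum_nonneg fun u _ => mn_nonneg _ _
  refine (Finset.prod_le_prod hnn hone).trans (le_of_eq ?_)
  rw [Finset.prod_mul_distrib, ← Real.exp_sum]
  have h1 : ∏ j ∈ Finset.Icc 1 k, (if j = k then 4 / (V : ℝ) else 1) = 4 / V := by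
    rw [Finset.prod_ite_eq' (Finset.Icc 1 k) k (fun _ => 4 / (V : ℝ)),
      if_pos (Finset.mem_Icc.2 ⟨by omega, le_rfl⟩)]
  have h2 : ∑ j ∈ Finset.Icc 1 k, (2 * Real.log (3 * (s : ℝ)) + 2 * (j : ℝ) * Real.log M) =
      2 * k * Real.log (3 * s) + k * (k + 1) * Real.log M := by
    rw [Finset.sum_add_distrib, Finset.sum_const, Nat.card_Icc, nsmul_eq_mul, ← Finset.sum_mul,
      ← Finset.mul_sum]
    have h3 : ∀ n : ℕ, 2 * ∑ j ∈ Finset.Icc 1 n, (j : ℝ) = n * (n + 1) := by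
      intro n
      induction n with
      | zero => simp
      | succ n ih =>
        rw [Finset.sum_Icc_succ_top (by omega), mul_add, ih]
        push_cast
        ring
    rw [h3 k]
    have : ((k + 1 - 1 : ℕ) : ℝ) = k := by simp
    rw [this]
    ring
  rw [h1, h2]

/-- the constant of the mean value theorem -/
theorem exists_C : ∃ C : ℕ, 1 ≤ C ∧ ∀ r m X : ℕ, 2 ≤ r → 1 ≤ X →
    (J (r ^ 2 + r * m) r X : ℝ) ≤ Real.exp (C * ((r : ℝ) + m) ^ C) *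
    (X : ℝ) ^ (2 * ((r : ℝ) ^ 2 + r * m) - r * (r + 1) / 2 + r * (r + 1) / 2 * (1 - 1 / (r : ℝ)) ^ m : ℝ) := by
  obtain ⟨C, hC⟩ := vmvt
  refine ⟨C + 1, by omega, fun r m X hr hX => (hC r m X hr hX).trans ?_⟩
  have hrR : (2 : ℝ) ≤ r := by exact_mod_cast hr
  have h1 : (1 : ℝ) ≤ (r : ℝ) + m := by
    have : (0 : ℝ) ≤ m := Nat.cast_nonneg m
    linarith
  have h2 : ((r : ℝ) + m) ^ C ≤ ((r : ℝ) + m) ^ (C + 1) := pow_le_pow_right₀ h1 (by omega)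
  have h3 : (0 : ℝ) ≤ ((r : ℝ) + m) ^ C := by positivity
  gcongr
  nlinarith

theorem TT_bound (C : ℕ) (hC : ∀ r m X : ℕ, 2 ≤ r → 1 ≤ X →
    (J (r ^ 2 + r * m) r X : ℝ) ≤ Real.exp (C * ((r : ℝ) + m) ^ C) *
    (X : ℝ) ^ (2 * ((r : ℝ) ^ 2 + r * m) - r * (r + 1) / 2 + r * (r + 1) / 2 * (1 - 1 / (r : ℝ)) ^ m : ℝ))
    (k t M V s : ℕ) (α : ℕ → ℝ) (ψ Y : ℝ) (hk : 2 ≤ k) (ht : 1 ≤ t) (hM : 1 ≤ M) (hV : 1 ≤ V)
    (hs : s = k ^ 2 + k * (k * t))
    (hψ : 0 < ψ) (hV2 : V ≤ 2 * (s * M ^ k) + 1)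
    (hV3 : V * (1 / ψ) ≤ (2 * (s * M ^ k : ℕ) + 1 : ℝ))
    (h : ∀ u : ℤ, u ≠ 0 → |u| ≤ V → ψ ≤ dz (α k * u))
    (hE : 2 * (C * ((k : ℝ) + (k * t : ℕ)) ^ C) + 2 * k * Real.log (3 * s) + Real.log 4 +
      k * (k + 1) / t * Real.log M + 4 * s ^ 2 * Y ≤ Real.log V) :
    ‖TT k M α‖ ≤ (M : ℝ) ^ 2 * Real.exp (-Y) := by
  have hMR : (1 : ℝ) ≤ M := by exact_mod_cast hM
  have hM0 : (0 : ℝ) < M := by linarith
  have hs1 : 1 ≤ s := by
    rw [hs]
    have : 1 ≤ k ^ 2 := Nat.one_le_pow _ _ (by omega)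
    omega
  have hkR : (2 : ℝ) ≤ k := by exact_mod_cast hk
  have htR : (1 : ℝ) ≤ t := by exact_mod_cast ht
  have hVR : (1 : ℝ) ≤ V := by exact_mod_cast hV
  have hX : 0 ≤ Real.log M := Real.log_nonneg hMR
  have h1 := dbl s k M α hs1 (by omega) hM
  have h2 := prod_WJ s k M V α ψ hk hs1 hM hV hψ hV2 hV3 h
  have h3 := hC k (k * t) M hk hM
  rw [← hs] at h3
  have hρ := one_sub_pow_le k t hk ht
  have h4 : (J s k M : ℝ) ≤ Real.exp (C * ((k : ℝ) + (k * t : ℕ)) ^ C +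
      (2 * s - k * (k + 1) / 2 + k * (k + 1) / 2 * (1 / t)) * Real.log M) := by
    refine h3.trans ?_
    rw [Real.exp_add, Real.rpow_def_of_pos hM0]
    refine mul_le_mul_of_nonneg_left (Real.exp_le_exp.2 ?_) (Real.exp_pos _).le
    rw [mul_comm]
    have hs' : (2 * (s : ℝ)) = 2 * ((k : ℝ) ^ 2 + k * ((k * t : ℕ) : ℝ)) := by
      rw [hs]; push_cast; ring
    rw [hs']
    apply mul_le_mul_of_nonneg_right _ hX
    have : (k : ℝ) * (k + 1) / 2 * (1 - 1 / (k : ℝ)) ^ (k * t) ≤ k * (k + 1) / 2 * (1 / t) := by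
      gcongr
    linarith
  have hexpM : ∀ n : ℕ, (M : ℝ) ^ n = Real.exp (n * Real.log M) := by
    intro n
    rw [Real.exp_nat_mul, Real.exp_log hM0]
  have h5 : ‖TT k M α‖ ^ (4 * s ^ 2) ≤ ((M : ℝ) ^ 2 * Real.exp (-Y)) ^ (4 * s ^ 2) := by
    refine h1.trans ?_
    have hJ0 : (0 : ℝ) ≤ J s k M := Nat.cast_nonneg _
    have h6 : ((J s k M : ℝ)) ^ 2 ≤ Real.exp (2 * (C * ((k : ℝ) + (k * t : ℕ)) ^ C +
      (2 * s - k * (k + 1) / 2 + k * (k + 1) / 2 * (1 / t)) * Real.log M)) := by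
      rw [show (2 : ℝ) * (C * ((k : ℝ) + (k * t : ℕ)) ^ C +
        (2 * s - k * (k + 1) / 2 + k * (k + 1) / 2 * (1 / t)) * Real.log M) =
        (2 : ℕ) * (C * ((k : ℝ) + (k * t : ℕ)) ^ C +
        (2 * s - k * (k + 1) / 2 + k * (k + 1) / 2 * (1 / t)) * Real.log M) by push_cast; ring,
        Real.exp_nat_mul]
      exact pow_le_pow_left₀ hJ0 h4 2
    have hnn : 0 ≤ ∏ j ∈ Finset.Icc 1 k, WJ s M j (α j) :=
      Finset.prod_nonneg fun j _ => by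
        rw [WJ]
        exact Finset.sum_nonneg fun u _ => mn_nonneg _ _
    have h7 : (M : ℝ) ^ (8 * s ^ 2 - 4 * s) * (J s k M : ℝ) ^ 2 * ∏ j ∈ Finset.Icc 1 k, WJ s M j (α j) ≤
        Real.exp (((8 * s ^ 2 - 4 * s : ℕ) : ℝ) * Real.log M) *
        Real.exp (2 * (C * ((k : ℝ) + (k * t : ℕ)) ^ C +
          (2 * s - k * (k + 1) / 2 + k * (k + 1) / 2 * (1 / t)) * Real.log M)) *
        (4 / V * Real.exp (2 * k * Real.log (3 * s) + k * (k + 1) * Real.log M)) := by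
      rw [hexpM]
      gcongr
    refine h7.trans ?_
    have h8 : (4 / (V : ℝ)) = Real.exp (Real.log 4 - Real.log V) := by
      rw [Real.exp_sub, Real.exp_log (by norm_num), Real.exp_log (by linarith)]
    have h9 : ((M : ℝ) ^ 2 * Real.exp (-Y)) ^ (4 * s ^ 2) =
        Real.exp ((4 * s ^ 2 : ℕ) * (2 * Real.log M - Y)) := by
      rw [Real.exp_nat_mul, Real.exp_sub, hexpM 2, Real.exp_neg]
      push_cast
      rfl
    rw [h8, h9, ← Real.exp_add, ← Real.exp_add, ← Real.exp_add]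
    apply Real.exp_le_exp.2
    have h10 : ((8 * s ^ 2 - 4 * s : ℕ) : ℝ) = 8 * (s : ℝ) ^ 2 - 4 * s := by
      have : 4 * s ≤ 8 * s ^ 2 := by nlinarith
      rw [Nat.cast_sub this]
      push_cast
      ring
    rw [h10]
    push_cast
    push_cast at hE
    have e1 : (k : ℝ) * (k + 1) / t * Real.log M = k * (k + 1) * (1 / t) * Real.log M := by ring
    rw [e1] at hE
    linarith
  have hs0 : 4 * s ^ 2 ≠ 0 := by positivity
  exact (pow_le_pow_iff_left₀ (norm_nonneg _) (by positivity) hs0).1 h5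

end Pool.Agent.J6H36.RB
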