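import Pool.Agent.J6H36.RB.WinBox

set_option autoImplicit false
set_option maxHeartbeats 4000000

/-!
# Total variation bounds
-/

namespace Pool.Agent.J6H36.RB

open Finset Polynomial Filter

open Classical in
theorem tv_abs {ι : Type} [Fintype ι] (s : Finset ℕ) (M : ℕ) (hM : 1 ≤ M)
    (cl : ℕ → ι → Fin M) (ε : ℝ) (hε : 0 ≤ ε)
    (hup : ∀ w : ι → Fin M, ((s.filter (fun n => cl n = w)).card : ℝ) ≤
      s.card * (1 / (M : ℝ) ^ (Fintype.card ι) + ε)) (W : Finset (ι → Fin M)) :
    |((s.filter (fun n => cl n ∈ W)).card : ℝ) - s.card * (W.card / (M : ℝ) ^ (Fintype.card ι))| ≤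
      s.card * ((M : ℝ) ^ (Fintype.card ι) * ε) := by
  have hMR : (0 : ℝ) < (M : ℝ) ^ (Fintype.card ι) := by
    have : (0 : ℝ) < M := by exact_mod_cast hM
    positivity
  have hs0 : (0 : ℝ) ≤ s.card := Nat.cast_nonneg _
  have hcardT : ((univ : Finset (ι → Fin M)).card : ℝ) = (M : ℝ) ^ (Fintype.card ι) := by
    rw [card_univ]
    simp
  have hsum : ∀ V : Finset (ι → Fin M), ((s.filter (fun n => cl n ∈ V)).card : ℝ) ≤
      s.card * (V.card / (M : ℝ) ^ (Fintype.card ι)) + s.card * ((M : ℝ) ^ (Fintype.card ι) * ε) := by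
    intro V
    have h1 : ((s.filter (fun n => cl n ∈ V)).card : ℝ) =
        ∑ w ∈ V, ((s.filter (fun n => cl n = w)).card : ℝ) := by
      have h2 : s.filter (fun n => cl n ∈ V) = V.biUnion fun w => s.filter (fun n => cl n = w) := by
        ext n
        simp only [mem_filter, mem_biUnion]
        constructor
        · rintro ⟨h1, h2⟩
          exact ⟨_, h2, h1, rfl⟩
        · rintro ⟨w, hw, h1, h2⟩
          exact ⟨h1, h2 ▸ hw⟩
      rw [h2, card_biUnion]
      · push_cast; rfl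
      · intro w _ w' _ hww
        rw [Function.onFun, Finset.disjoint_left]
        intro n hn hn'
        rw [mem_filter] at hn hn'
        exact hww (hn.2.symm.trans hn'.2)
    rw [h1]
    refine (Finset.sum_le_sum fun w _ => hup w).trans ?_
    rw [Finset.sum_const, nsmul_eq_mul]
    have h3 : (V.card : ℝ) ≤ (M : ℝ) ^ (Fintype.card ι) := by
      rw [← hcardT]
      exact_mod_cast card_le_card (subset_univ V)
    have h4 : (V.card : ℝ) * (s.card * (1 / (M : ℝ) ^ (Fintype.card ι) + ε)) =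
        s.card * (V.card / (M : ℝ) ^ (Fintype.card ι)) + s.card * (V.card * ε) := by
      ring
    rw [h4]
    gcongr
  have h1 := hsum W
  have h2 := hsum Wᶜ
  have h3 : ((s.filter (fun n => cl n ∈ W)).card : ℝ) + ((s.filter (fun n => cl n ∈ Wᶜ)).card : ℝ) =
      s.card := by
    have h4 := card_filter_add_card_filter_not (s := s) (fun n => cl n ∈ W)
    simp only [mem_compl]
    exact_mod_cast h4
  have h4 : ((Wᶜ : Finset (ι → Fin M)).card : ℝ) = (M : ℝ) ^ (Fintype.card ι) - W.card := by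
    rw [card_compl, Nat.cast_sub (card_le_univ _), ← card_univ, hcardT]
  rw [h4] at h2
  have h5 : (s.card : ℝ) * (((M : ℝ) ^ (Fintype.card ι) - W.card) / (M : ℝ) ^ (Fintype.card ι)) =
      s.card - s.card * (W.card / (M : ℝ) ^ (Fintype.card ι)) := by
    field_simp
  rw [h5] at h2
  rw [abs_le]
  constructor <;> linarith

theorem prod_le_add {ι : Type} [DecidableEq ι] (s : Finset ι) (q : ι → ℝ) (a η : ℝ) (ha : 0 ≤ a)
    (ha1 : a ≤ 1) (hη : 0 ≤ η) (hq0 : ∀ x ∈ s, 0 ≤ q x) (hq1 : ∀ x ∈ s, q x ≤ 1)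
    (hq : ∀ x ∈ s, q x ≤ a + η) : ∏ x ∈ s, q x ≤ a ^ s.card + s.card * η := by
  induction s using Finset.induction_on with
  | empty => simp
  | insert x s hx ih =>
    rw [Finset.prod_insert hx, Finset.card_insert_of_notMem hx]
    have h1 := ih (fun y hy => hq0 y (mem_insert_of_mem hy)) (fun y hy => hq1 y (mem_insert_of_mem hy))
      (fun y hy => hq y (mem_insert_of_mem hy))
    have h2 := hq0 x (mem_insert_self x s)
    have h3 := hq1 x (mem_insert_self x s)
    have h4 := hq x (mem_insert_self x s)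
    have h5 : a ^ s.card ≤ 1 := pow_le_one₀ ha ha1
    have h6 : 0 ≤ a ^ s.card := by positivity
    have h7 : (0 : ℝ) ≤ s.card * η := by positivity
    push_cast
    calc q x * ∏ y ∈ s, q y ≤ q x * (a ^ s.card + s.card * η) := by gcongr
      _ = q x * a ^ s.card + q x * (s.card * η) := by ring
      _ ≤ (a + η) * a ^ s.card + 1 * (s.card * η) := by gcongr
      _ ≤ a ^ (s.card + 1) + ((s.card : ℝ) + 1) * η := by
        rw [pow_succ]
        nlinarith

theorem ev_tv (δ : ℝ) (hδ : 0 < δ) (c : ℝ) :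
    ∀ᶠ X : ℝ in atTop, 16 ≤ X ∧ c * X ^ (2 * δ) + X ^ δ + 1 ≤ X ^ (3 * δ) / 2 := by
  have t1 : Tendsto (fun X : ℝ => X ^ δ) atTop atTop := tendsto_rpow_atTop hδ
  filter_upwards [eventually_ge_atTop (16 : ℝ), t1.eventually_ge_atTop (2 * (c + 2)),
    t1.eventually_ge_atTop (1 : ℝ)] with X hX h1 h2
  refine ⟨hX, ?_⟩
  have e2 : X ^ (2 * δ) = X ^ δ * X ^ δ := by
    rw [← Real.rpow_add (by linarith)]
    congr 1
    ring
  have e3 : X ^ (3 * δ) = X ^ δ * X ^ δ * X ^ δ := by
    rw [← Real.rpow_add (by linarith), ← Real.rpow_add (by linarith)]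
    congr 1
    ring
  rw [e2, e3]
  set w := X ^ δ with hw
  have h3 : 2 * (c + 2) * (w * w) ≤ w * (w * w) := by
    apply mul_le_mul_of_nonneg_right h1
    positivity
  nlinarith

open Classical in
theorem tv_gen : ∃ δ : ℝ, 0 < δ ∧ δ ≤ 1 / 48 ∧ ∀ (r t : ℕ) (α : Fin r → ℝ) (A c0 : ℝ), 1 ≤ A →
    0 < c0 → Typ α A c0 → ∀ f : Fin t → ℤ[X], Indep f → ∃ X0 : ℝ, ∀ L : ℕ, X0 ≤ Real.log L →
    ∀ N K M : ℕ, (K : ℝ) ≤ (Real.log L) ^ δ → 1 ≤ M → (M : ℝ) ≤ Real.exp ((Real.log L) ^ δ) →
    ∀ (cl : ℕ → Fin t × Fin K × Fin r → Fin M) (E : Finset ℕ),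
    (E.card : ℝ) ≤ L * Real.exp (-(Real.log L / 4)) →
    (∀ n ∈ Finset.Ioc N (N + L), n ∉ E → ∀ x, ((cl n x : ℕ) : ℝ) / M ≤ Int.fract (yy f α n K x) ∧
      Int.fract (yy f α n K x) < (((cl n x : ℕ) : ℝ) + 1) / M + Real.exp (-(Real.log L / 4))) →
    ∀ W : Finset (Fin t × Fin K × Fin r → Fin M),
    |(((Finset.Ioc N (N + L)).filter (fun n => cl n ∈ W)).card : ℝ) -
      L * (W.card / (M : ℝ) ^ (t * (K * r)))| ≤ L * Real.exp (-((Real.log L) ^ δ)) := by
  obtain ⟨δ, hδ0, hδ1, hbox⟩ := win_box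
  refine ⟨δ, hδ0, hδ1, ?_⟩
  intro r t α A c0 hA hc0 htyp f hf
  obtain ⟨X1, hX1⟩ := hbox r t α A c0 hA hc0 htyp f hf
  obtain ⟨X2, hX2⟩ := eventually_atTop.1 (ev_err δ hδ0 hδ1 (t * r) (by positivity))
  obtain ⟨X3, hX3⟩ := eventually_atTop.1 (ev_tv δ hδ0 (t * r))
  refine ⟨max (max X1 X2) X3, ?_⟩
  intro L hL N K M hK hM hMX cl E hE hcl W
  have hb := hX1 L (((le_max_left _ _).trans (le_max_left _ _)).trans hL) N K hK
  obtain ⟨a1, a2, a3, a4, a5, a6⟩ := hX2 _ (((le_max_right X1 X2).trans (le_max_left _ _)).trans hL)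
  obtain ⟨b1, b2⟩ := hX3 _ ((le_max_right _ _).trans hL)
  set X : ℝ := Real.log L with hX
  set z : ℝ := X ^ (3 * δ) with hz
  set η : ℝ := Real.exp (-(X / 4)) with hη
  have hη0 : 0 < η := Real.exp_pos _
  have hX0 : 0 ≤ X := by linarith
  have hz0 : 0 ≤ z := Real.rpow_nonneg hX0 _
  have hL0 : (0 : ℝ) < L := by
    by_contra hcon
    have : (L : ℝ) = 0 := le_antisymm (not_lt.1 hcon) (Nat.cast_nonneg _)
    rw [hX, this, Real.log_zero] at a1
    linarith
  have hcard : (Finset.Ioc N (N + L)).card = L := by simp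
  have hκ : Fintype.card (Fin t × Fin K × Fin r) = t * (K * r) := by simp
  have hMR : (1 : ℝ) ≤ M := by exact_mod_cast hM
  have hM0 : (0 : ℝ) < M := by linarith
  have hκz : ((t * (K * r) : ℕ) : ℝ) ≤ t * r * X ^ δ := by
    push_cast
    have : (t : ℝ) * (K * r) = t * r * K := by ring
    rw [this]
    gcongr
  set ε : ℝ := (t * (K * r) : ℕ) * η + η + Real.exp (-(z / 2)) with hε
  have hε0 : 0 ≤ ε := by positivity
  have hup : ∀ w : Fin t × Fin K × Fin r → Fin M,
      (((Finset.Ioc N (N + L)).filter (fun n => cl n = w)).card : ℝ) ≤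
      (Finset.Ioc N (N + L)).card * (1 / (M : ℝ) ^ (Fintype.card (Fin t × Fin K × Fin r)) + ε) := by
    intro w
    rw [hcard, hκ]
    set u : Fin t × Fin K × Fin r → ℝ := fun x => ((w x : ℕ) : ℝ) / M with hu
    set v : Fin t × Fin K × Fin r → ℝ := fun x => min 1 ((((w x : ℕ) : ℝ) + 1) / M + η) with hv
    have hu0 : ∀ x, 0 ≤ u x := fun x => by positivity
    have hw1 : ∀ x, ((w x : ℕ) : ℝ) + 1 ≤ M := fun x => by exact_mod_cast (w x).2
    have huv : ∀ x, u x ≤ v x := fun x => by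
      refine le_min ?_ ?_
      · rw [hu]
        simp only
        rw [div_le_one hM0]
        linarith [hw1 x]
      · have h1 : ((w x : ℕ) : ℝ) / M ≤ (((w x : ℕ) : ℝ) + 1) / M := by gcongr; linarith
        simp only [hu]
        linarith
    have h1 := (abs_le.1 (hb u v hu0 huv (fun x => min_le_left _ _))).2
    have h2 : ∏ x, (v x - u x) ≤ 1 / (M : ℝ) ^ (t * (K * r)) + (t * (K * r) : ℕ) * η := by
      have h3 := prod_le_add univ (fun x => v x - u x) (1 / M) η (by positivity)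
        (by rw [div_le_one hM0]; exact hMR) hη0.le (fun x _ => sub_nonneg.2 (huv x))
        (fun x _ => by
          have := min_le_left 1 ((((w x : ℕ) : ℝ) + 1) / M + η)
          have := hu0 x
          simp only [hv]
          linarith)
        (fun x _ => by
          have h4 := min_le_right 1 ((((w x : ℕ) : ℝ) + 1) / M + η)
          have h5 : (((w x : ℕ) : ℝ) + 1) / M = ((w x : ℕ) : ℝ) / M + 1 / M := add_div _ _ _
          simp only [hv, hu]
          linarith)
      rw [card_univ, hκ, div_pow, one_pow] at h3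
      exact h3
    have h3 : (((Finset.Ioc N (N + L)).filter (fun n => cl n = w)).card : ℝ) ≤ E.card +
        ((Finset.Ioc N (N + L)).filter (fun n => ∀ x, u x ≤ Int.fract (yy f α n K x) ∧
          Int.fract (yy f α n K x) < v x)).card := by
      have h4 : (Finset.Ioc N (N + L)).filter (fun n => cl n = w) ⊆
          E ∪ (Finset.Ioc N (N + L)).filter (fun n => ∀ x, u x ≤ Int.fract (yy f α n K x) ∧
          Int.fract (yy f α n K x) < v x) := by
        intro n hn
        rw [mem_filter] at hn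
        rw [mem_union]
        by_cases hnE : n ∈ E
        · exact Or.inl hnE
        · right
          rw [mem_filter]
          refine ⟨hn.1, fun x => ?_⟩
          have h5 := hcl n hn.1 hnE x
          rw [hn.2] at h5
          exact ⟨h5.1, lt_min (Int.fract_lt_one _) h5.2⟩
      have h5 := (card_le_card h4).trans (card_union_le _ _)
      exact_mod_cast h5
    have h4 : (((Finset.Ioc N (N + L)).filter (fun n => ∀ x, u x ≤ Int.fract (yy f α n K x) ∧
          Int.fract (yy f α n K x) < v x)).card : ℝ) ≤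
          L * (1 / (M : ℝ) ^ (t * (K * r)) + (t * (K * r) : ℕ) * η + Real.exp (-(z / 2))) := by
      have h5 : (((Finset.Ioc N (N + L)).filter (fun n => ∀ x, u x ≤ Int.fract (yy f α n K x) ∧
          Int.fract (yy f α n K x) < v x)).card : ℝ) / L ≤
          1 / (M : ℝ) ^ (t * (K * r)) + (t * (K * r) : ℕ) * η + Real.exp (-(z / 2)) := by
        linarith
      rw [div_le_iff₀ hL0] at h5
      linarith
    calc _ ≤ _ := h3
      _ ≤ L * η + L * (1 / (M : ℝ) ^ (t * (K * r)) + (t * (K * r) : ℕ) * η + Real.exp (-(z / 2))) :=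
          add_le_add hE h4
      _ = _ := by rw [hε]; ring
  have hfin := tv_abs (Finset.Ioc N (N + L)) M hM cl ε hε0 hup W
  rw [hcard, hκ] at hfin
  refine hfin.trans ?_
  apply mul_le_mul_of_nonneg_left _ hL0.le
  -- the size
  have hXd1 : 1 ≤ X ^ δ := Real.one_le_rpow a1 hδ0.le
  have hMκ : (M : ℝ) ^ (t * (K * r)) ≤ Real.exp (t * r * X ^ (2 * δ)) := by
    calc (M : ℝ) ^ (t * (K * r)) ≤ Real.exp (X ^ δ) ^ (t * (K * r)) :=
          pow_le_pow_left₀ hM0.le hMX _
      _ = Real.exp ((t * (K * r) : ℕ) * X ^ δ) := by rw [← Real.exp_nat_mul]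
      _ ≤ Real.exp (t * r * X ^ (2 * δ)) := by
        apply Real.exp_le_exp.2
        have e2 : X ^ (2 * δ) = X ^ δ * X ^ δ := by
          rw [← Real.rpow_add (by linarith)]
          congr 1
          ring
        rw [e2]
        have := mul_le_mul_of_nonneg_right hκz (show 0 ≤ X ^ δ by linarith)
        linarith
  have hsX : Real.sqrt X ≤ X / 4 := by
    have hs := Real.sq_sqrt hX0
    have hs4 : 4 ≤ Real.sqrt X := Real.le_sqrt_of_sq_le (by linarith)
    nlinarith
  have h1 : ε ≤ 2 * Real.exp (-(z / 2)) := by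
    have h2 : (t * (K * r) : ℕ) * η + η ≤ Real.exp (-(z / 2)) := by
      have h3 : ((t * (K * r) : ℕ) : ℝ) ≤ t * r * z := hκz.trans (by gcongr)
      have h4 : (1 : ℝ) ≤ Real.exp (z / 2) / 2 + 1 / 2 := by
        have := Real.add_one_le_exp (z / 2)
        linarith
      have h4' : ((t * (K * r) : ℕ) : ℝ) + 1 ≤ Real.exp (z / 2) * 2 := by
        have h6 : 1 ≤ Real.exp (z / 2) := Real.one_le_exp (by linarith)
        have h7 : (t : ℝ) * r * z ≤ Real.exp (z / 2) / 36 := by linarith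
        linarith
      have h5 : Real.exp (z / 2) * 2 * η ≤ Real.exp (-(z / 2)) := by
        have h6 : (2 : ℝ) ≤ Real.exp 1 := by
          have := Real.add_one_le_exp (1 : ℝ)
          linarith
        calc Real.exp (z / 2) * 2 * η ≤ Real.exp (z / 2) * Real.exp 1 * η := by gcongr
          _ = Real.exp (z / 2 + 1 + -(X / 4)) := by rw [hη, ← Real.exp_add, ← Real.exp_add]
          _ ≤ Real.exp (-(z / 2)) := by
            apply Real.exp_le_exp.2
            linarith
      calc ((t * (K * r) : ℕ) : ℝ) * η + η = (((t * (K * r) : ℕ) : ℝ) + 1) * η := by ring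
        _ ≤ Real.exp (z / 2) * 2 * η := by gcongr
        _ ≤ _ := h5
    linarith
  have h2 : (2 : ℝ) ≤ Real.exp 1 := by
    have := Real.add_one_le_exp (1 : ℝ)
    linarith
  calc (M : ℝ) ^ (t * (K * r)) * ε ≤ Real.exp (t * r * X ^ (2 * δ)) * (2 * Real.exp (-(z / 2))) := by
        gcongr
    _ ≤ Real.exp (t * r * X ^ (2 * δ)) * (Real.exp 1 * Real.exp (-(z / 2))) := by gcongr
    _ = Real.exp (t * r * X ^ (2 * δ) + (1 + -(z / 2))) := by rw [← Real.exp_add, ← Real.exp_add]
    _ ≤ Real.exp (-(X ^ δ)) := by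
      apply Real.exp_le_exp.2
      linarith

end Pool.Agent.J6H36.RB
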