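import Pool.Agent.J6H36.RB.Blk3
import Pool.Agent.J6H36.RB.Diag

set_option autoImplicit false
set_option maxHeartbeats 4000000

/-!
# One set of bases for all algebraic numbers
-/

namespace Pool.Agent.J6H36.RB

open Polynomial

theorem irr_of_lin {r : ℕ} {α : Fin r → ℝ} (hlin : LinearIndependent ℚ (Matrix.vecCons (1 : ℝ) α)) :
    ∀ c : Fin r → ℤ, c ≠ 0 → Irrational (∑ j, (c j : ℝ) * α j) := by
  intro c hc
  rintro ⟨q, hq⟩
  apply hc
  rw [Fintype.linearIndependent_iff] at hlin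
  have h1 := hlin (Matrix.vecCons (-q) (fun j => (c j : ℚ))) (by
    rw [Fin.sum_univ_succ]
    simp only [Matrix.cons_val_zero, Matrix.cons_val_succ]
    have h2 : ∀ j, ((c j : ℚ) • α j : ℝ) = (c j : ℝ) * α j := fun j => by
      rw [Rat.smul_def]
      push_cast
      rfl
    rw [Finset.sum_congr rfl fun j _ => h2 j, ← hq, Rat.smul_def]
    push_cast
    ring)
  funext j
  have h3 := h1 j.succ
  simp only [Matrix.cons_val_succ] at h3
  exact_mod_cast h3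

/-- the block counts are right -/
def BlockOK {r : ℕ} (α : Fin r → ℝ) (m M : ℕ) (ε : ℝ) (b K : ℕ) : Prop :=
  ∀ D : Fin r → Fin m → Fin M,
    |({i : ℕ | 1 ≤ i ∧ i ≤ K ∧ ∀ (j : Fin r) (h : Fin m),
        M * digit b (i + h) (α j) / b = (D j h : ℕ)}.ncard : ℝ) -
        K * (1 / (M : ℝ) ^ (r * m))| ≤ (K : ℝ) ^ (1 / 2 + ε)

/-- the box counts are right -/
def BoxOK {r : ℕ} (α : Fin r → ℝ) (ε : ℝ) (b K : ℕ) : Prop :=
  ∀ u v : Fin r → ℝ, (∀ j, 0 ≤ u j ∧ u j ≤ v j ∧ v j ≤ 1) →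
    |({k : ℕ | 1 ≤ k ∧ k ≤ K ∧ ∀ j, u j ≤ Int.fract (α j * (b : ℝ) ^ k) ∧
        Int.fract (α j * (b : ℝ) ^ k) < v j}.ncard : ℝ) - K * ∏ j, (v j - u j)| ≤
      (K : ℝ) ^ (1 / 2 + ε)

theorem univ_main : ∃ δ : ℝ, 0 < δ ∧ ∀ κ : ℕ → ℕ, Filter.Tendsto κ Filter.atTop Filter.atTop →
    ∃ S : Set ℕ, Dens S ∧ ∀ (r : ℕ) (α : Fin r → ℝ), (∀ j, IsAlgebraic ℚ (α j)) →
    LinearIndependent ℚ (Matrix.vecCons (1 : ℝ) α) → ∀ m M : ℕ, 1 ≤ m → 1 ≤ M → ∀ ε : ℝ, 0 < ε →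
    ∃ b₀ : ℕ, ∀ b ∈ S, b₀ ≤ b → ∀ K : ℕ, κ b ≤ K → (K : ℝ) ≤ (Real.log b) ^ δ →
      BlockOK α m M ε b K ∧ BoxOK α ε b K := by
  obtain ⟨δ, hδ0, hδ⟩ := blocks_all
  refine ⟨δ, hδ0, fun κ hκ => ?_⟩
  obtain ⟨P, hP⟩ : ∃ P : (Σ r : ℕ, (Fin r → {x : ℝ // IsAlgebraic ℚ x}) × ℕ × ℕ × ℕ) → ℕ → ℕ → Prop,
      P = fun x n K => 1 ≤ x.2.2.1 → 1 ≤ x.2.2.2.1 →
        LinearIndependent ℚ (Matrix.vecCons (1 : ℝ) (fun j => (x.2.1 j : ℝ))) →
        BlockOK (fun j => (x.2.1 j : ℝ)) x.2.2.1 x.2.2.2.1 (1 / ((x.2.2.2.2 : ℝ) + 1)) n K ∧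
        BoxOK (fun j => (x.2.1 j : ℝ)) (1 / ((x.2.2.2.2 : ℝ) + 1)) n K := ⟨_, rfl⟩
  have hcount : Countable {x : ℝ // IsAlgebraic ℚ x} := by
    have := Algebraic.countable ℚ ℝ
    exact this.to_subtype
  have hdens : ∀ x, Dens {n | ∀ K : ℕ, κ n ≤ K → (K : ℝ) ≤ (Real.log n) ^ δ → P x n K} := by
    intro x
    apply dens_of_windows (P x) κ hκ δ hδ0
    intro η hη
    obtain ⟨r, α', m, M, q⟩ := x
    by_cases hyp : 1 ≤ m ∧ 1 ≤ M ∧ LinearIndependent ℚ (Matrix.vecCons (1 : ℝ) (fun j => (α' j : ℝ)))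
    · obtain ⟨hm, hM, hlin⟩ := hyp
      set α : Fin r → ℝ := fun j => (α' j : ℝ) with hα
      obtain ⟨A, c0, hA, hc0, htyp⟩ := typ_of_alg α (fun j => (α' j).2) (irr_of_lin hlin)
      obtain ⟨_, h2, h3⟩ := hδ r 1 α A c0 hA hc0 htyp (fun _ => X) (indep_one X (by simp))
      have hq : (0 : ℝ) < 1 / ((q : ℝ) + 1) := by positivity
      obtain ⟨K2, L2, h4⟩ := h2 m M hm hM (1 / ((q : ℝ) + 1)) (η / 2) hq (by positivity)
      obtain ⟨K3, L3, h5⟩ := h3 (1 / ((q : ℝ) + 1)) (η / 2) hq (by positivity)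
      refine ⟨max K2 K3, max L2 L3, fun L hL => ?_⟩
      have hpos : ∀ n : ℕ, 0 < n → n ≤ 0 + L → ∀ _ : Fin 1, 0 < (X : ℤ[X]).eval (n : ℤ) := by
        intro n hn _ _
        rw [eval_X]
        exact_mod_cast hn
      have h6 := h4 L ((le_max_left _ _).trans hL) 0 hpos
      have h7 := h5 L ((le_max_right _ _).trans hL) 0 hpos
      have hbs : ∀ (i : Fin 1) (n : ℕ), bs (fun _ : Fin 1 => (X : ℤ[X])) i n = n := by
        intro i n
        unfold bs
        rw [eval_X]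
        simp
      have h8 : {n : ℕ | 0 < n ∧ n ≤ L ∧ ¬ ∀ K : ℕ, max K2 K3 ≤ K → (K : ℝ) ≤ (Real.log L) ^ δ →
          P ⟨r, α', m, M, q⟩ n K}.ncard ≤
          {n : ℕ | 0 < n ∧ n ≤ 0 + L ∧ ¬ ∀ K : ℕ, K2 ≤ K → (K : ℝ) ≤ (Real.log L) ^ δ →
        ∀ D : Fin 1 → Fin r → Fin m → Fin M,
        |({k : ℕ | 1 ≤ k ∧ k ≤ K ∧ ∀ (i : Fin 1) (j : Fin r) (h : Fin m),
            M * digit (bs (fun _ : Fin 1 => (X : ℤ[X])) i n) (k + h) (α j) /
              bs (fun _ : Fin 1 => (X : ℤ[X])) i n = (D i j h : ℕ)}.ncard : ℝ) -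
            K * (1 / (M : ℝ) ^ (1 * (r * m)))| ≤ (K : ℝ) ^ (1 / 2 + 1 / ((q : ℝ) + 1))}.ncard +
          {n : ℕ | 0 < n ∧ n ≤ 0 + L ∧ ¬ ∀ K : ℕ, K3 ≤ K → (K : ℝ) ≤ (Real.log L) ^ δ →
        ∀ u v : Fin 1 → Fin r → ℝ, (∀ i j, 0 ≤ u i j ∧ u i j ≤ v i j ∧ v i j ≤ 1) →
        |({k : ℕ | 1 ≤ k ∧ k ≤ K ∧ ∀ i j,
            u i j ≤ Int.fract (α j * (bs (fun _ : Fin 1 => (X : ℤ[X])) i n : ℝ) ^ k) ∧
            Int.fract (α j * (bs (fun _ : Fin 1 => (X : ℤ[X])) i n : ℝ) ^ k) < v i j}.ncard : ℝ) -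
            K * ∏ i, ∏ j, (v i j - u i j)| ≤ (K : ℝ) ^ (1 / 2 + 1 / ((q : ℝ) + 1))}.ncard := by
        refine le_trans (Set.ncard_le_ncard ?_ ?_) (Set.ncard_union_le _ _)
        · rintro n ⟨g1, g2, g3⟩
          by_cases g4 : ∀ K : ℕ, K2 ≤ K → (K : ℝ) ≤ (Real.log L) ^ δ →
              BlockOK α m M (1 / ((q : ℝ) + 1)) n K
          · by_cases g5 : ∀ K : ℕ, K3 ≤ K → (K : ℝ) ≤ (Real.log L) ^ δ →
                BoxOK α (1 / ((q : ℝ) + 1)) n K
            · exfalso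
              apply g3
              intro K hK1 hK2
              rw [hP]
              intro _ _ _
              exact ⟨g4 K ((le_max_left _ _).trans hK1) hK2, g5 K ((le_max_right _ _).trans hK1) hK2⟩
            · refine Or.inr ⟨g1, by omega, fun hcon => g5 ?_⟩
              intro K hK1 hK2 u v huv
              have h9 := hcon K hK1 hK2 (fun _ j => u j) (fun _ j => v j) (fun _ j => huv j)
              simp only [hbs, Fin.prod_univ_one] at h9
              refine le_trans (le_of_eq ?_) h9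
              congr 3
              congr 1
              ext k
              refine and_congr_right fun _ => and_congr_right fun _ => ?_
              constructor
              · intro h _ j
                exact h j
              · intro h j
                exact h 0 j
          · refine Or.inl ⟨g1, by omega, fun hcon => g4 ?_⟩
            intro K hK1 hK2 D
            have h9 := hcon K hK1 hK2 (fun _ j h => D j h)
            simp only [hbs, one_mul] at h9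
            refine le_trans (le_of_eq ?_) h9
            congr 3
            congr 1
            ext k
            refine and_congr_right fun _ => and_congr_right fun _ => ?_
            constructor
            · intro h _ j h'
              exact h j h'
            · intro h j h'
              exact h 0 j h'
        · refine (Set.finite_Iic L).subset ?_
          rintro n (h9 | h9)
          · have := h9.2.1
            simpa using this
          · have := h9.2.1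
            simpa using this
      have h9 : ({n : ℕ | 0 < n ∧ n ≤ L ∧ ¬ ∀ K : ℕ, max K2 K3 ≤ K → (K : ℝ) ≤ (Real.log L) ^ δ →
          P ⟨r, α', m, M, q⟩ n K}.ncard : ℝ) ≤ _ := Nat.cast_le.2 h8
      push_cast at h9
      linarith
    · refine ⟨0, 0, fun L _ => ?_⟩
      have h1 : {n : ℕ | 0 < n ∧ n ≤ L ∧ ¬ ∀ K : ℕ, 0 ≤ K → (K : ℝ) ≤ (Real.log L) ^ δ →
          P ⟨r, α', m, M, q⟩ n K} = ∅ := by
        apply Set.eq_empty_of_forall_notMem
        rintro n ⟨_, _, h2⟩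
        apply h2
        intro K _ _
        rw [hP]
        intro g1 g2 g3
        exact absurd ⟨g1, g2, g3⟩ hyp
      rw [h1, Set.ncard_empty]
      push_cast
      positivity
  obtain ⟨S, hS, hS2⟩ := dens_diag_countable _ hdens
  refine ⟨S, hS, ?_⟩
  intro r α halg hlin m M hm hM ε hε
  obtain ⟨q, hq⟩ := exists_nat_one_div_lt hε
  obtain ⟨n0, hn0⟩ := hS2 ⟨r, fun j => ⟨α j, halg j⟩, m, M, q⟩
  refine ⟨n0, fun b hb hb0 K hK1 hK2 => ?_⟩
  have h1 := hn0 b hb hb0 K hK1 hK2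
  rw [hP] at h1
  obtain ⟨h2, h3⟩ := h1 hm hM hlin
  have hmono : (K : ℝ) ^ (1 / 2 + 1 / ((q : ℝ) + 1)) ≤ (K : ℝ) ^ (1 / 2 + ε) := by
    rcases Nat.eq_zero_or_pos K with h0 | h0
    · rw [h0, Nat.cast_zero, Real.zero_rpow (by positivity), Real.zero_rpow (by positivity)]
    · apply Real.rpow_le_rpow_of_exponent_le
      · exact_mod_cast h0
      · linarith
  exact ⟨fun D => (h2 D).trans hmono, fun u v huv => (h3 u v huv).trans hmono⟩

end Pool.Agent.J6H36.RB
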