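import Pool.Agent.J6H36.RB.BlkQ
import Pool.Agent.J6H36.RB.DiagL
import Pool.Agent.J6H36.RB.Univ

set_option autoImplicit false
set_option maxHeartbeats 4000000

/-!
# One set of bases for all algebraic numbers, few exceptions
-/

namespace Pool.Agent.J6H36.RB

open Polynomial Filter

/-- a set with few exceptions contains almost all primes -/
theorem densl_primes {S : Set ℕ} (hS : DensL S) : ∀ η : ℝ, 0 < η → ∃ X₀ : ℕ, ∀ X : ℕ, X₀ ≤ X →
    ({p : ℕ | p ≤ X ∧ p.Prime ∧ p ∉ S}.ncard : ℝ) ≤ η * {p : ℕ | p ≤ X ∧ p.Prime}.ncard := by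
  intro η hη
  obtain ⟨X1, h1⟩ := hS 2
  have ev : ∀ᶠ x : ℝ in atTop, 1 ≤ Real.log x ∧ 2 / η ≤ Real.log x ∧ Real.log (x + 1) ≤ 1 / 10 * x := by
    have t1 := Real.tendsto_log_atTop
    have t2 : Tendsto (fun x : ℝ => Real.log (x + 1) / (x + 1)) atTop (nhds 0) := by
      have h := (Real.tendsto_pow_log_div_mul_add_atTop 1 0 1 one_ne_zero).comp
        (tendsto_atTop_add_const_right atTop (1 : ℝ) tendsto_id)
      refine h.congr fun x => ?_
      simp
    filter_upwards [t1.eventually_ge_atTop 1, t1.eventually_ge_atTop (2 / η),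
      t2.eventually_le_const (show (0 : ℝ) < 1 / 20 by norm_num), eventually_ge_atTop (1 : ℝ)]
      with x h1 h2 h3 h4
    refine ⟨h1, h2, ?_⟩
    rw [div_le_iff₀ (by linarith)] at h3
    linarith
  obtain ⟨x0, hx0⟩ := eventually_atTop.1 ev
  obtain ⟨X2, hX2⟩ := exists_nat_ge x0
  refine ⟨max X1 (max X2 1), fun X hX => ?_⟩
  have hXX : x0 ≤ X := hX2.trans (by
    exact_mod_cast ((le_max_left _ _).trans (le_max_right _ _)).trans hX)
  have hX1 : 1 ≤ X := ((le_max_right _ _).trans (le_max_right _ _)).trans hX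
  obtain ⟨g1, g2, g3⟩ := hx0 _ hXX
  have hX0 : (0 : ℝ) < X := by exact_mod_cast hX1
  have h2 := h1 X ((le_max_left _ _).trans hX)
  have h3 : ({p : ℕ | p ≤ X ∧ p.Prime ∧ p ∉ S}.ncard : ℝ) ≤ {n : ℕ | n ≤ X ∧ n ∉ S}.ncard := by
    rw [Nat.cast_le]
    exact Set.ncard_le_ncard (fun n hn => ⟨hn.1, hn.2.2⟩)
      ((Set.finite_Iic X).subset fun n hn => hn.1)
  have h4 : {p : ℕ | p ≤ X ∧ p.Prime}.ncard = Nat.primeCounting X := by
    rw [Nat.primeCounting, Nat.primeCounting', Nat.count_eq_card_filter_range,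
      ← Set.ncard_coe_finset]
    congr 1
    ext p
    rw [Finset.mem_coe, Finset.mem_filter, Finset.mem_range, Set.mem_setOf_eq]
    constructor
    · rintro ⟨a, b⟩
      exact ⟨by omega, b⟩
    · rintro ⟨a, b⟩
      exact ⟨by omega, b⟩
  have h5 := Chebyshev.pi_ge X
  rw [h4]
  have hl2 : (0.6931471803 : ℝ) < Real.log 2 := Real.log_two_gt_d9
  have hlog : 0 < Real.log X := by linarith
  have h6 : (X : ℝ) / (2 * Real.log X) ≤ Nat.primeCounting X := by
    refine le_trans ?_ h5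
    rw [div_le_div_iff₀ (by positivity) hlog]
    have : (1 / 2 : ℝ) * X ≤ X * Real.log 2 - Real.log (X + 1) := by nlinarith
    nlinarith
  calc ({p : ℕ | p ≤ X ∧ p.Prime ∧ p ∉ S}.ncard : ℝ) ≤ X / (Real.log X) ^ 2 := h3.trans h2
    _ ≤ η * (X / (2 * Real.log X)) := by
      rw [div_le_iff₀ (by positivity)]
      have e : η * ((X : ℝ) / (2 * Real.log X)) * Real.log X ^ 2 = X * (η * Real.log X / 2) := by
        field_simp
      rw [e]
      rw [div_le_iff₀ hη] at g2
      nlinarith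
    _ ≤ η * Nat.primeCounting X := by gcongr

theorem univ_few : ∃ δ : ℝ, 0 < δ ∧
    ∃ S : Set ℕ, DensL S ∧ ∀ (r : ℕ) (α : Fin r → ℝ), (∀ j, IsAlgebraic ℚ (α j)) →
    LinearIndependent ℚ (Matrix.vecCons (1 : ℝ) α) → ∀ m M : ℕ, 1 ≤ m → 1 ≤ M → ∀ ε c : ℝ, 0 < ε →
    0 < c → ∃ b₀ : ℕ, ∀ b ∈ S, b₀ ≤ b → ∀ K : ℕ, (Real.log b) ^ c ≤ K → (K : ℝ) ≤ (Real.log b) ^ δ →
      BlockOK α m M ε b K ∧ BoxOK α ε b K := by
  obtain ⟨δ, hδ0, hδ⟩ := quant_all
  refine ⟨δ, hδ0, ?_⟩
  obtain ⟨P, hP⟩ : ∃ P : (Σ r : ℕ, (Fin r → {x : ℝ // IsAlgebraic ℚ x}) × ℕ × ℕ × ℕ) → ℕ → ℕ → Prop,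
      P = fun x n K => 1 ≤ x.2.2.1 → 1 ≤ x.2.2.2.1 →
        LinearIndependent ℚ (Matrix.vecCons (1 : ℝ) (fun j => (x.2.1 j : ℝ))) →
        BlockOK (fun j => (x.2.1 j : ℝ)) x.2.2.1 x.2.2.2.1 (1 / ((x.2.2.2.2 : ℝ) + 1)) n K ∧
        BoxOK (fun j => (x.2.1 j : ℝ)) (1 / ((x.2.2.2.2 : ℝ) + 1)) n K := ⟨_, rfl⟩
  have hcount : Countable {x : ℝ // IsAlgebraic ℚ x} := by
    have := Algebraic.countable ℚ ℝ
    exact this.to_subtype
  have hdens : ∀ x, DensL {n : ℕ | ∀ K : ℕ, (Real.log n) ^ (1 / ((x.2.2.2.2 : ℝ) + 1)) ≤ K →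
      (K : ℝ) ≤ (Real.log n) ^ δ → P x n K} := by
    intro x
    apply densl_of_windows (P x) δ _ hδ0 (by positivity)
    intro q'
    obtain ⟨r, α', m, M, q⟩ := x
    by_cases hyp : 1 ≤ m ∧ 1 ≤ M ∧ LinearIndependent ℚ (Matrix.vecCons (1 : ℝ) (fun j => (α' j : ℝ)))
    · obtain ⟨hm, hM, hlin⟩ := hyp
      set α : Fin r → ℝ := fun j => (α' j : ℝ) with hα
      obtain ⟨A, c0, hA, hc0, htyp⟩ := typ_of_alg α (fun j => (α' j).2) (irr_of_lin hlin)
      have hq : (0 : ℝ) < 1 / ((q : ℝ) + 1) := by positivity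
      obtain ⟨C, K0, L0, hC0, _, h2⟩ := hδ r 1 α A c0 hA hc0 htyp (fun _ => X) (indep_one X (by simp))
        m M hm hM (1 / ((q : ℝ) + 1)) hq q'
      refine ⟨C, K0, L0, hC0, fun L hL K₁ hK₁ => ?_⟩
      have hpos : ∀ n : ℕ, 0 < n → n ≤ 0 + L → ∀ _ : Fin 1, 0 < (X : ℤ[X]).eval (n : ℤ) := by
        intro n hn _ _
        rw [eval_X]
        exact_mod_cast hn
      have h6 := h2 L hL 0 hpos K₁ hK₁
      have hbs : ∀ (i : Fin 1) (n : ℕ), bs (fun _ : Fin 1 => (X : ℤ[X])) i n = n := by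
        intro i n
        unfold bs
        rw [eval_X]
        simp
      refine le_trans (Nat.cast_le.2 (Set.ncard_le_ncard ?_ ?_)) h6
      · rintro n ⟨g1, g2, g3⟩
        refine ⟨g1, by omega, fun hcon => g3 ?_⟩
        intro K hK1 hK2
        rw [hP]
        intro _ _ _
        obtain ⟨h7, h8⟩ := hcon K hK1 hK2
        constructor
        · intro D
          have h9 := h7 (fun _ j h => D j h)
          simp only [hbs, one_mul] at h9
          refine le_trans (le_of_eq ?_) h9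
          congr 3
          congr 1
          ext k
          refine and_congr_right fun _ => and_congr_right fun _ => ?_
          constructor
          · intro h _ j h'
            exact h j h'
          · intro h j h'
            exact h 0 j h'
        · intro u v huv
          have h9 := h8 (fun _ j => u j) (fun _ j => v j) (fun _ j => huv j)
          simp only [hbs, Fin.prod_univ_one] at h9
          refine le_trans (le_of_eq ?_) h9
          congr 3
          congr 1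
          ext k
          refine and_congr_right fun _ => and_congr_right fun _ => ?_
          constructor
          · intro h _ j
            exact h j
          · intro h j
            exact h 0 j
      · refine (Set.finite_Iic L).subset ?_
        rintro n h9
        have := h9.2.1
        simpa using this
    · refine ⟨0, 0, 1, le_rfl, fun L hL K₁ _ => ?_⟩
      have h1 : {n : ℕ | 0 < n ∧ n ≤ L ∧ ¬ ∀ K : ℕ, K₁ ≤ K → (K : ℝ) ≤ (Real.log L) ^ δ →
          P ⟨r, α', m, M, q⟩ n K} = ∅ := by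
        apply Set.eq_empty_of_forall_notMem
        rintro n ⟨_, _, h2⟩
        apply h2
        intro K _ _
        rw [hP]
        intro g1 g2 g3
        exact absurd ⟨g1, g2, g3⟩ hyp
      have h3 : 0 ≤ Real.log L := Real.log_nonneg (by exact_mod_cast hL)
      rw [h1, Set.ncard_empty]
      push_cast
      positivity
  obtain ⟨S, hS, hS2⟩ := densl_diag_countable _ hdens
  refine ⟨S, hS, ?_⟩
  intro r α halg hlin m M hm hM ε c hε hc
  obtain ⟨q, hq⟩ := exists_nat_one_div_lt (lt_min hε hc)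
  obtain ⟨n0, hn0⟩ := hS2 ⟨r, fun j => ⟨α j, halg j⟩, m, M, q⟩
  obtain ⟨n1, hn1⟩ := exists_L 1
  refine ⟨max n0 n1, fun b hb hb0 K hK1 hK2 => ?_⟩
  have hlog := hn1 b ((le_max_right _ _).trans hb0)
  have h1 := hn0 b hb ((le_max_left _ _).trans hb0) K (le_trans (by
    apply Real.rpow_le_rpow_of_exponent_le hlog
    exact (hq.trans_le (min_le_right _ _)).le) hK1) hK2
  rw [hP] at h1
  obtain ⟨h2, h3⟩ := h1 hm hM hlin
  have hmono : (K : ℝ) ^ (1 / 2 + 1 / ((q : ℝ) + 1)) ≤ (K : ℝ) ^ (1 / 2 + ε) := by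
    rcases Nat.eq_zero_or_pos K with h0 | h0
    · rw [h0, Nat.cast_zero, Real.zero_rpow (by positivity), Real.zero_rpow (by positivity)]
    · apply Real.rpow_le_rpow_of_exponent_le
      · exact_mod_cast h0
      · have := hq.trans_le (min_le_left _ _)
        linarith
  exact ⟨fun D => (h2 D).trans hmono, fun u v huv => (h3 u v huv).trans hmono⟩

end Pool.Agent.J6H36.RB
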