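import Pool.Agent.J6H36.RB.Disc
import Pool.Agent.J6H36.RB.Dig

set_option autoImplicit false
set_option maxHeartbeats 4000000

/-!
# Examples of families of polynomials without relations, and the forms of the theorems used in the
results
-/

namespace Pool.Agent.J6H36.RB

open Finset Polynomial Filter

theorem indep_one (g : ℤ[X]) (hg : 1 ≤ g.natDegree) : Indep (fun _ : Fin 1 => g) := by
  intro P h i
  rw [Fin.sum_univ_one] at h
  have hi : i = 0 := Subsingleton.elim _ _
  rw [hi]
  rw [natDegree_comp] at h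
  rcases Nat.mul_eq_zero.1 h with h1 | h1
  · exact h1
  · have h2 : g.natDegree = 0 := h1
    omega

/-- no relation between `X ^ 2` and `X ^ 2 + X` -/
theorem indep_two : Indep ![(X : ℤ[X]) ^ 2, X ^ 2 + X] := by
  intro P h i
  set A : ℤ[X] := P 0 with hA
  set B : ℤ[X] := P 1 with hB
  have h0 : (A.comp (X ^ 2) + B.comp (X ^ 2 + X)).natDegree = 0 := by
    have h1 := h
    rw [Fin.sum_univ_two] at h1
    simpa using h1
  obtain ⟨c, hc⟩ : ∃ c : ℤ, A.comp (X ^ 2) + B.comp (X ^ 2 + X) = C c :=
    ⟨_, eq_C_of_natDegree_eq_zero h0⟩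
  -- evaluate at `n` and `-n`
  have hev : ∀ n : ℤ, B.eval (n ^ 2 + n) = B.eval (n ^ 2 - n) := by
    intro n
    have h1 := congrArg (eval n) hc
    have h2 := congrArg (eval (-n)) hc
    simp only [eval_add, eval_comp, eval_pow, eval_X, eval_C] at h1 h2
    have e1 : (-n) ^ 2 = n ^ 2 := by ring
    have e2 : n ^ 2 + -n = n ^ 2 - n := by ring
    rw [e1, e2] at h2
    linarith
  have hB0 : B.natDegree = 0 := by
    -- the values at `m (m + 1)` are all equal
    have h1 : ∀ m : ℕ, B.eval ((m : ℤ) * (m + 1)) = B.eval 0 := by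
      intro m
      induction m with
      | zero => simp
      | succ m ih =>
        have h2 := hev ((m : ℤ) + 1)
        have e1 : ((m : ℤ) + 1) ^ 2 + ((m : ℤ) + 1) = (((m + 1 : ℕ) : ℤ)) * (((m + 1 : ℕ) : ℤ) + 1) := by
          push_cast; ring
        have e2 : ((m : ℤ) + 1) ^ 2 - ((m : ℤ) + 1) = (m : ℤ) * (m + 1) := by ring
        rw [e1, e2, ih] at h2
        exact h2
    have h2 : B = C (B.eval 0) := by
      apply Polynomial.eq_of_infinite_eval_eq
      refine Set.Infinite.mono (s := Set.range (fun m : ℕ => (m : ℤ) * (m + 1))) ?_ ?_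
      · rintro _ ⟨m, rfl⟩
        simp only [Set.mem_ofPred_eq, eval_C]
        exact h1 m
      · apply Set.infinite_range_of_injective
        intro a b hab
        simp only at hab
        have h3 : (a : ℤ) = b := by
          have ha : (0 : ℤ) ≤ a := Int.natCast_nonneg a
          have hb : (0 : ℤ) ≤ b := Int.natCast_nonneg b
          nlinarith
        exact_mod_cast h3
    rw [h2]
    exact natDegree_C _
  have hA0 : A.natDegree = 0 := by
    rw [eq_C_of_natDegree_eq_zero hB0, C_comp] at h0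
    have h1 : (A.comp (X ^ 2)).natDegree = 0 := by
      rw [natDegree_add_C] at h0
      exact h0
    rw [natDegree_comp, natDegree_X_pow] at h1
    omega
  fin_cases i
  · exact hA0
  · exact hB0

theorem typ_single {x : ℝ} (halg : IsAlgebraic ℚ x) (hirr : Irrational x) :
    ∃ A c0 : ℝ, 1 ≤ A ∧ 0 < c0 ∧ Typ (fun _ : Fin 1 => x) A c0 := by
  refine typ_of_alg _ (fun _ => halg) fun c hc => ?_
  rw [Fin.sum_univ_one]
  have h1 : c 0 ≠ 0 := by
    intro h
    apply hc
    funext j
    rw [Subsingleton.elim j 0, h]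
    rfl
  exact hirr.intCast_mul h1

theorem exists_L (X0 : ℝ) : ∃ L0 : ℕ, ∀ L : ℕ, L0 ≤ L → X0 ≤ Real.log L := by
  refine ⟨⌈Real.exp X0⌉₊, fun L hL => ?_⟩
  have h1 : Real.exp X0 ≤ L := (Nat.le_ceil _).trans (by exact_mod_cast hL)
  calc X0 = Real.log (Real.exp X0) := (Real.log_exp _).symm
    _ ≤ Real.log L := Real.log_le_log (Real.exp_pos _) h1

end Pool.Agent.J6H36.RB
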