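import Pool.Agent.Y957.VK.Triv
import Pool.Agent.Y331.VK.Lin
import Pool.Agent.Y235.VK.Hol
import Pool.Agent.Y950.VK.Cnt
import Pool.Agent.Y911.VK.Cond
import Pool.Agent.Y901.VK.Vmvt
import Pool.Agent.Y309.VK.DA
import Pool.Agent.Y93.VK.DB
import Pool.Agent.Y331.VK.WB

set_option autoImplicit false

/-!
# The factor of the leading coefficient in Vinogradov's method
-/

namespace Pool.Agent.J6H36.RB

open Finset
open Pool.Agent.Y957.VK (J TT dz mn WJ S_VMVT S_DBL S_WB)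

theorem vmvt : S_VMVT := Pool.Agent.Y901.VK.vmvt
  (Pool.Agent.Y957.VK.rec_of Pool.Agent.Y235.VK.hol (Pool.Agent.Y950.VK.cnt Pool.Agent.Y331.VK.lin))
  Pool.Agent.Y911.VK.cond

theorem dbl : S_DBL := Pool.Agent.Y957.VK.dbl_of Pool.Agent.Y309.VK.da Pool.Agent.Y93.VK.db

theorem dz_sub_int_le (x : ℝ) (m : ℤ) : dz x ≤ |x - m| := by
  rw [dz]
  exact round_le x m

theorem exists_dz (x : ℝ) : ∃ m : ℤ, dz x = |x - m| := ⟨round x, rfl⟩

theorem dz_sub_le (x y : ℝ) : dz (x - y) ≤ dz x + dz y := by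
  obtain ⟨m, hm⟩ := exists_dz x
  obtain ⟨n, hn⟩ := exists_dz y
  calc dz (x - y) ≤ |x - y - ((m - n : ℤ) : ℝ)| := dz_sub_int_le _ _
    _ = |(x - m) - (y - n)| := by congr 1; push_cast; ring
    _ ≤ |x - m| + |y - n| := abs_sub _ _
    _ = dz x + dz y := by rw [hm, hn]

theorem dz_nonneg (x : ℝ) : 0 ≤ dz x := abs_nonneg _

theorem mn_nonneg (V : ℕ) (θ : ℝ) : 0 ≤ mn V θ := by
  rw [mn]
  split_ifs
  · positivity
  · have := dz_nonneg θ
    positivity

theorem mn_le_inv (V : ℕ) (θ ψ : ℝ) (hψ : 0 < ψ) (h : ψ / 2 ≤ dz θ) : mn V θ ≤ 1 / ψ := by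
  have h3 : dz θ ≠ 0 := by linarith
  rw [mn, if_neg h3]
  refine (min_le_right _ _).trans ?_
  apply one_div_le_one_div_of_le hψ
  linarith

/-- one block -/
theorem block (U V : ℕ) (a ψ : ℝ) (hψ : 0 < ψ) (b : ℤ)
    (h : ∀ u : ℤ, u ≠ 0 → |u| ≤ V → ψ ≤ dz (a * u)) :
    ∑ u ∈ Finset.Ico b (b + V), mn U (a * u) ≤ (2 * U + 1) + V * (1 / ψ) := by
  classical
  rw [← Finset.sum_filter_add_sum_filter_not (Finset.Ico b (b + V)) (fun u : ℤ => dz (a * u) < ψ / 2)]
  have h1 : ((Finset.Ico b (b + V)).filter (fun u : ℤ => dz (a * u) < ψ / 2)).card ≤ 1 := by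
    rw [Finset.card_le_one]
    intro u hu v hv
    rw [mem_filter, mem_Ico] at hu hv
    by_contra hne
    have h2 : u - v ≠ 0 := sub_ne_zero.2 hne
    have h3 : |u - v| ≤ (V : ℤ) := by
      rw [abs_le]
      constructor <;> omega
    have h4 := h _ h2 h3
    have h5 := dz_sub_le (a * u) (a * v)
    have h6 : a * ((u - v : ℤ) : ℝ) = a * u - a * v := by push_cast; ring
    rw [h6] at h4
    linarith [hu.2, hv.2]
  have h2 : ∑ u ∈ (Finset.Ico b (b + V)).filter (fun u : ℤ => dz (a * u) < ψ / 2), mn U (a * u) ≤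
      2 * U + 1 := by
    refine (Finset.sum_le_card_nsmul _ _ (2 * (U : ℝ) + 1)
      (fun u _ => Pool.Agent.Y331.VK.mn_le U _)).trans ?_
    rw [nsmul_eq_mul]
    have : (((Finset.Ico b (b + V)).filter (fun u : ℤ => dz (a * u) < ψ / 2)).card : ℝ) ≤ 1 := by
      exact_mod_cast h1
    calc _ ≤ 1 * (2 * (U : ℝ) + 1) := by gcongr
      _ = _ := one_mul _
  have h3 : ∑ u ∈ (Finset.Ico b (b + V)).filter (fun u : ℤ => ¬ dz (a * u) < ψ / 2), mn U (a * u) ≤
      V * (1 / ψ) := by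
    refine (Finset.sum_le_card_nsmul _ _ (1 / ψ) (fun u hu => ?_)).trans ?_
    · rw [mem_filter, not_lt] at hu
      exact mn_le_inv U _ ψ hψ hu.2
    · rw [nsmul_eq_mul]
      have : (((Finset.Ico b (b + V)).filter (fun u : ℤ => ¬ dz (a * u) < ψ / 2)).card : ℝ) ≤ V := by
        have h4 := Finset.card_filter_le (Finset.Ico b (b + V)) (fun u : ℤ => ¬ dz (a * u) < ψ / 2)
        rw [Int.card_Ico] at h4
        have h5 : (b + (V : ℤ) - b).toNat = V := by omega
        rw [h5] at h4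
        exact_mod_cast h4
      gcongr
  linarith

/-- the factor of a coefficient whose multiples stay away from the integers -/
theorem WJ_le (s M j V : ℕ) (a ψ : ℝ) (hV : 1 ≤ V) (hψ : 0 < ψ)
    (hV2 : V ≤ 2 * (s * M ^ j) + 1) (hV3 : V * (1 / ψ) ≤ (2 * (s * M ^ j : ℕ) + 1 : ℝ))
    (h : ∀ u : ℤ, u ≠ 0 → |u| ≤ V → ψ ≤ dz (a * u)) :
    WJ s M j a ≤ 4 * (2 * (s * M ^ j : ℕ) + 1 : ℝ) ^ 2 / V := by
  obtain ⟨U, hU⟩ : ∃ U : ℕ, U = s * M ^ j := ⟨_, rfl⟩
  rw [← hU] at hV2 hV3 ⊢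
  rw [WJ, ← hU]
  set T : ℕ := (2 * U + 1) / V + 1 with hT
  have hVR : (0 : ℝ) < V := by exact_mod_cast hV
  have h1 : (2 * U + 1) < T * V := by
    rw [hT]
    have := Nat.lt_div_mul_add (a := 2 * U + 1) (b := V) hV
    nlinarith
  have h2 : ∑ u ∈ Finset.Icc (-(U : ℤ)) U, mn U (a * u) ≤
      ∑ i ∈ Finset.range T, ∑ u ∈ Finset.Ico (-(U : ℤ) + i * V) (-(U : ℤ) + i * V + V), mn U (a * u) := by
    rw [← Finset.sum_biUnion]
    · refine Finset.sum_le_sum_of_subset_of_nonneg ?_ fun u _ _ => mn_nonneg _ _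
      intro u hu
      rw [Finset.mem_Icc] at hu
      rw [Finset.mem_biUnion]
      have h5 : 0 ≤ u + U := by omega
      obtain ⟨w, hw⟩ := Int.eq_ofNat_of_zero_le h5
      have hdm := Nat.div_add_mod w V
      have hmod := Nat.mod_lt w hV
      refine ⟨w / V, ?_, ?_⟩
      · rw [Finset.mem_range]
        by_contra hcon
        push Not at hcon
        have : T * V ≤ w / V * V := Nat.mul_le_mul_right _ hcon
        have h6 : w / V * V ≤ w := Nat.div_mul_le_self w V
        have h7 : w < T * V := by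
          have : w ≤ 2 * U := by omega
          omega
        omega
      · rw [Finset.mem_Ico]
        have h8 : (u : ℤ) = -(U : ℤ) + w := by omega
        have h9 : (w : ℤ) = (w / V : ℕ) * V + (w % V : ℕ) := by
          have := hdm
          rw [mul_comm] at this
          exact_mod_cast this.symm
        have h10 : ((w % V : ℕ) : ℤ) < V := by exact_mod_cast hmod
        have h11 : (0 : ℤ) ≤ ((w % V : ℕ) : ℤ) := Int.natCast_nonneg _
        constructor <;> omega
    · intro i _ i' _ hii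
      rw [Function.onFun, Finset.disjoint_left]
      intro u hu hu'
      rw [Finset.mem_Ico] at hu hu'
      rcases Nat.lt_or_gt_of_ne hii with hlt | hlt
      · have : ((i : ℤ) + 1) * V ≤ (i' : ℤ) * V := by
          apply mul_le_mul_of_nonneg_right _ (Int.natCast_nonneg V)
          exact_mod_cast hlt
        nlinarith
      · have : ((i' : ℤ) + 1) * V ≤ (i : ℤ) * V := by
          apply mul_le_mul_of_nonneg_right _ (Int.natCast_nonneg V)
          exact_mod_cast hlt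
        nlinarith
  refine h2.trans ?_
  have h3 : ∀ i ∈ Finset.range T, ∑ u ∈ Finset.Ico (-(U : ℤ) + i * V) (-(U : ℤ) + i * V + V), mn U (a * u) ≤
      2 * (2 * U + 1 : ℝ) := by
    intro i _
    refine (block U V a ψ hψ _ h).trans ?_
    linarith
  refine (Finset.sum_le_sum h3).trans ?_
  rw [Finset.sum_const, Finset.card_range, nsmul_eq_mul]
  have h4 : (T : ℝ) ≤ 2 * (2 * U + 1) / V := by
    rw [le_div_iff₀ hVR]
    have h5 : T * V ≤ 2 * (2 * U + 1) := by
      rw [hT, Nat.add_mul, one_mul]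
      have := Nat.div_mul_le_self (2 * U + 1) V
      omega
    exact_mod_cast h5
  calc (T : ℝ) * (2 * (2 * U + 1)) ≤ 2 * (2 * U + 1) / V * (2 * (2 * U + 1)) := by gcongr
    _ = 4 * (2 * (U : ℝ) + 1) ^ 2 / V := by ring

end Pool.Agent.J6H36.RB
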