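import Pool.Agent.J6H36.RB.Win

set_option autoImplicit false
set_option maxHeartbeats 4000000

/-!
# The bound for exponential sums of polynomials of slowly growing degree over windows
-/

namespace Pool.Agent.J6H36.RB

open Finset Polynomial Filter
open Pool.Agent.Y957.VK (TT dz)
open Pool.Agent.Y933.KD (e e_add norm_e e_zero)

/-- the conditions on the logarithm of the length -/
theorem ev_X (B D : ℝ) (hB : 0 < B) : ∀ᶠ X : ℝ in atTop, 1 ≤ X ∧ Real.sqrt X ≤ X / 16 ∧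
    Real.exp (X / 8) + 1 ≤ Real.exp (X / 4) ∧ D * X ^ (3 / 4 : ℝ) ≤ X / B ∧
    Real.exp (-(2 * Real.sqrt X)) ≤ Real.exp (-Real.sqrt X) / 2 ∧
    2 * Real.exp (-(X / 2)) ≤ Real.exp (-Real.sqrt X) / 2 := by
  have t1 : Tendsto (fun X : ℝ => X ^ (1 / 4 : ℝ)) atTop atTop := tendsto_rpow_atTop (by norm_num)
  filter_upwards [eventually_ge_atTop (1000 : ℝ), t1.eventually_ge_atTop (B * D)] with X hX h1
  have hX0 : 0 ≤ X := by linarith
  have hs := Real.sq_sqrt hX0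
  have hs0 : 0 ≤ Real.sqrt X := Real.sqrt_nonneg X
  have hs31 : 31 ≤ Real.sqrt X := Real.le_sqrt_of_sq_le (by linarith)
  have h2 : Real.sqrt X ≤ X / 16 := by nlinarith
  refine ⟨by linarith, h2, ?_, ?_, ?_, ?_⟩
  · have h3 : Real.exp (X / 4) = Real.exp (X / 8) * Real.exp (X / 8) := by
      rw [← Real.exp_add]; congr 1; ring
    have h4 : 2 ≤ Real.exp (X / 8) := by
      have := Real.add_one_le_exp (X / 8)
      linarith
    rw [h3]
    nlinarith
  · have h3 : X ^ (3 / 4 : ℝ) * X ^ (1 / 4 : ℝ) = X := by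
      rw [← Real.rpow_add (by linarith)]
      norm_num
    have h4 : 0 ≤ X ^ (3 / 4 : ℝ) := Real.rpow_nonneg hX0 _
    rw [le_div_iff₀ hB]
    calc D * X ^ (3 / 4 : ℝ) * B = X ^ (3 / 4 : ℝ) * (B * D) := by ring
      _ ≤ X ^ (3 / 4 : ℝ) * X ^ (1 / 4 : ℝ) := by gcongr
      _ = X := h3
  · have h3 : Real.exp (-(2 * Real.sqrt X)) = Real.exp (-Real.sqrt X) * Real.exp (-Real.sqrt X) := by
      rw [← Real.exp_add]; congr 1; ring
    have h4 : Real.exp (-Real.sqrt X) ≤ 1 / 2 := by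
      rw [Real.exp_neg, ← one_div]
      apply one_div_le_one_div_of_le (by norm_num)
      have := Real.add_one_le_exp (Real.sqrt X)
      linarith
    rw [h3]
    have := Real.exp_pos (-Real.sqrt X)
    nlinarith
  · have h3 : Real.exp (-(X / 2)) ≤ Real.exp (-Real.sqrt X) * Real.exp (-(Real.sqrt X)) := by
      rw [← Real.exp_add]
      apply Real.exp_le_exp.2
      linarith
    have h4 : Real.exp (-Real.sqrt X) ≤ 1 / 4 := by
      rw [Real.exp_neg, ← one_div]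
      apply one_div_le_one_div_of_le (by norm_num)
      have := Real.add_one_le_exp (Real.sqrt X)
      linarith
    have := Real.exp_pos (-Real.sqrt X)
    nlinarith

theorem weyl_win : ∃ δ : ℝ, 0 < δ ∧ δ ≤ 1 / 24 ∧ ∀ A : ℝ, 1 ≤ A → ∃ X0 : ℝ, ∀ L : ℕ,
    X0 ≤ Real.log L → ∀ (N k : ℕ) (P : ℝ[X]), 2 ≤ k → (k : ℝ) ≤ (Real.log L) ^ δ → P.natDegree = k →
    (∀ u : ℤ, u ≠ 0 → Real.exp (-Real.sqrt (Real.log L)) ≤ |(u : ℝ)| ^ A * dz (P.coeff k * u)) →
    ‖∑ n ∈ Finset.Ioc N (N + L), e (P.eval (n : ℝ))‖ ≤ L * Real.exp (-Real.sqrt (Real.log L)) := by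
  obtain ⟨C, hC1, hC⟩ := exists_C
  have hCR : (1 : ℝ) ≤ C := by exact_mod_cast hC1
  refine ⟨1 / (4 * C + 24), by positivity, ?_, fun A hA => ?_⟩
  · apply one_div_le_one_div_of_le (by norm_num)
    linarith
  set T0 : ℕ := ⌈4 * (A + 1)⌉₊ with hT0
  have hT0R : 4 * (A + 1) ≤ (T0 : ℝ) := Nat.le_ceil _
  have hT01 : (1 : ℝ) ≤ T0 := by linarith
  have hT0n : 1 ≤ T0 := by exact_mod_cast hT01
  obtain ⟨X0, hX0⟩ := eventually_atTop.1 (ev_X (16 * (A + 1))
    (2 * C * (3 * T0) ^ C + 18 * T0 + 3 + 72 * T0 ^ 2) (by linarith))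
  refine ⟨X0, ?_⟩
  intro L hL N k P hk hkX hdeg hdio
  obtain ⟨c1, c2, c3, c4, c5, c6⟩ := hX0 _ hL
  set X : ℝ := Real.log L with hX
  set δ : ℝ := 1 / (4 * C + 24) with hδ
  have hL0 : (0 : ℝ) < L := by
    by_contra hcon
    have : (L : ℝ) = 0 := le_antisymm (not_lt.1 hcon) (Nat.cast_nonneg _)
    rw [hX, this, Real.log_zero] at c1
    linarith
  have hLX : (L : ℝ) = Real.exp X := by rw [hX, Real.exp_log hL0]
  have hX0' : 0 ≤ X := by linarith
  have hkR : (2 : ℝ) ≤ k := by exact_mod_cast hk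
  -- the parameters
  set M : ℕ := ⌊Real.exp (X / 4)⌋₊ with hM
  have hM1 : (M : ℝ) ≤ Real.exp (X / 4) := Nat.floor_le (Real.exp_pos _).le
  have hM2 : Real.exp (X / 8) ≤ M := by
    have := Nat.lt_floor_add_one (Real.exp (X / 4))
    rw [← hM] at this
    linarith
  have hMR : (1 : ℝ) ≤ M := by
    have : (1 : ℝ) ≤ Real.exp (X / 8) := Real.one_le_exp (by linarith)
    linarith
  have hMn : 1 ≤ M := by exact_mod_cast hMR
  have hM0 : (0 : ℝ) < M := by linarith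
  have hlogM : X / 8 ≤ Real.log M := by
    rw [Real.le_log_iff_exp_le hM0]
    exact hM2
  set t : ℕ := T0 * (k + 1) with ht
  have ht1 : 1 ≤ t := by
    rw [ht]
    have : 1 ≤ k + 1 := by omega
    exact Nat.mul_pos hT0n this
  set s : ℕ := k ^ 2 + k * (k * t) with hs
  have hs1 : 1 ≤ s := by
    rw [hs]
    have : 1 ≤ k ^ 2 := Nat.one_le_pow _ _ (by omega)
    omega
  have hsR : (1 : ℝ) ≤ s := by exact_mod_cast hs1
  set W : ℝ := Real.exp (k * Real.log M / (2 * (A + 1))) with hW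
  set V : ℕ := ⌊W⌋₊ with hV
  have hlogM0 : 0 ≤ Real.log M := by linarith
  have hW1 : 1 ≤ W := Real.one_le_exp (by positivity)
  have hV1 : 1 ≤ V := Nat.le_floor (by exact_mod_cast hW1)
  have hVR : (1 : ℝ) ≤ V := by exact_mod_cast hV1
  have hVW : (V : ℝ) ≤ W := Nat.floor_le (by linarith)
  have hWV : W ≤ 2 * V := by
    have := Nat.lt_floor_add_one W
    rw [← hV] at this
    linarith
  have hMk : ((M ^ k : ℕ) : ℝ) = Real.exp (k * Real.log M) := by
    rw [Real.exp_nat_mul, Real.exp_log hM0]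
    push_cast
    rfl
  have hU : ((M ^ k : ℕ) : ℝ) ≤ ((s * M ^ k : ℕ) : ℝ) := by
    exact_mod_cast Nat.le_mul_of_pos_left _ hs1
  have hWM : W ≤ ((M ^ k : ℕ) : ℝ) := by
    rw [hMk, hW]
    apply Real.exp_le_exp.2
    rw [div_le_iff₀ (by linarith)]
    have : 0 ≤ (k : ℝ) * Real.log M := by positivity
    nlinarith
  have hV2 : V ≤ 2 * (s * M ^ k) + 1 := by
    have : (V : ℝ) ≤ ((s * M ^ k : ℕ) : ℝ) := hVW.trans (hWM.trans hU)
    have h2 : V ≤ s * M ^ k := by exact_mod_cast this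
    omega
  set ψ : ℝ := Real.exp (-Real.sqrt X) / (V : ℝ) ^ A with hψ
  have hVA : (0 : ℝ) < (V : ℝ) ^ A := Real.rpow_pos_of_pos (by linarith) _
  have hψ0 : 0 < ψ := by positivity
  have hV3 : V * (1 / ψ) ≤ (2 * (s * M ^ k : ℕ) + 1 : ℝ) := by
    have h1 : (V : ℝ) * (1 / ψ) = (V : ℝ) ^ (A + 1) * Real.exp (Real.sqrt X) := by
      rw [hψ, Real.rpow_add_one (by linarith), Real.exp_neg]
      field_simp
    have h2 : (V : ℝ) ^ (A + 1) ≤ Real.exp (k * Real.log M / 2) := by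
      calc (V : ℝ) ^ (A + 1) ≤ W ^ (A + 1) := Real.rpow_le_rpow (by linarith) hVW (by linarith)
        _ = Real.exp (k * Real.log M / 2) := by
          rw [hW, ← Real.exp_mul]
          congr 1
          field_simp
    have h3 : Real.exp (Real.sqrt X) ≤ Real.exp (k * Real.log M / 2) := by
      apply Real.exp_le_exp.2
      nlinarith
    have h4 : (V : ℝ) * (1 / ψ) ≤ ((M ^ k : ℕ) : ℝ) := by
      rw [h1, hMk]
      calc (V : ℝ) ^ (A + 1) * Real.exp (Real.sqrt X) ≤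
          Real.exp (k * Real.log M / 2) * Real.exp (k * Real.log M / 2) :=
            mul_le_mul h2 h3 (Real.exp_pos _).le (Real.exp_pos _).le
        _ = Real.exp (k * Real.log M) := by rw [← Real.exp_add]; congr 1; ring
    have h5 : (0 : ℝ) ≤ ((s * M ^ k : ℕ) : ℝ) := Nat.cast_nonneg _
    linarith
  have hdz : ∀ n : ℕ, ∀ u : ℤ, u ≠ 0 → |u| ≤ V → ψ ≤ dz (tc P n k * u) := by
    intro n u hu huV
    rw [tc_top P k n hdeg]
    have h1 := hdio u hu
    have h2 : (0 : ℝ) < |(u : ℝ)| := abs_pos.2 (by exact_mod_cast hu)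
    have h3 : |(u : ℝ)| ≤ V := by exact_mod_cast huV
    have h4 : |(u : ℝ)| ^ A ≤ (V : ℝ) ^ A := Real.rpow_le_rpow h2.le h3 (by linarith)
    rw [hψ, div_le_iff₀ hVA]
    have h5 := dz_nonneg (P.coeff k * u)
    nlinarith
  -- the main inequality
  have hE : 2 * (C * ((k : ℝ) + (k * t : ℕ)) ^ C) + 2 * k * Real.log (3 * s) + Real.log 4 +
      k * (k + 1) / t * Real.log M + 4 * s ^ 2 * (2 * Real.sqrt X) ≤ Real.log V := by
    have hX1 : 1 ≤ X := c1
    set κ : ℝ := X ^ δ with hκ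
    have hκ2 : 2 ≤ κ := hkR.trans hkX
    have hlogV : k * Real.log M / (2 * (A + 1)) - Real.log 2 ≤ Real.log V := by
      have h1 : Real.log W ≤ Real.log (2 * V) := Real.log_le_log (by linarith) hWV
      rw [hW, Real.log_exp, Real.log_mul (by norm_num) (by linarith)] at h1
      linarith
    have g1 : (k : ℝ) * (k + 1) / t * Real.log M ≤ k * Real.log M / (4 * (A + 1)) := by
      have e1 : (k : ℝ) * (k + 1) / t * Real.log M = k * Real.log M / T0 := by
        rw [ht]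
        push_cast
        field_simp
      rw [e1]
      apply div_le_div_of_nonneg_left (by positivity) (by linarith) hT0R
    have g2 : X / (16 * (A + 1)) ≤ k * Real.log M / (4 * (A + 1)) := by
      rw [div_le_div_iff₀ (by linarith) (by linarith)]
      have : X / 4 ≤ k * Real.log M := by nlinarith
      nlinarith
    have g3 : k * Real.log M / (2 * (A + 1)) = k * Real.log M / (4 * (A + 1)) +
        k * Real.log M / (4 * (A + 1)) := by
      field_simp
      ring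
    have hb1 : ((k : ℝ) + (k * t : ℕ)) ≤ 3 * T0 * κ ^ 2 := by
      rw [ht]
      push_cast
      have : (k : ℝ) ^ 2 ≤ κ ^ 2 := pow_le_pow_left₀ (by linarith) hkX 2
      have h2 : (k : ℝ) ≤ k ^ 2 := by nlinarith
      have h3 : (k : ℝ) * (T0 * (k + 1)) ≤ 2 * T0 * k ^ 2 := by
        have : (k : ℝ) * (k + 1) ≤ 2 * k ^ 2 := by nlinarith
        nlinarith
      have h4 : (k : ℝ) ^ 2 ≤ T0 * k ^ 2 := by nlinarith [sq_nonneg (k : ℝ)]
      have h5 : 3 * (T0 : ℝ) * k ^ 2 ≤ 3 * T0 * κ ^ 2 := by gcongr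
      linarith
    have hb2 : (s : ℝ) ≤ 3 * T0 * κ ^ 3 := by
      rw [hs, ht]
      push_cast
      have h0 : (k : ℝ) ^ 3 ≤ κ ^ 3 := pow_le_pow_left₀ (by linarith) hkX 3
      have h2 : (k : ℝ) ^ 2 ≤ k ^ 3 := by nlinarith [sq_nonneg (k : ℝ)]
      have h3 : (k : ℝ) * (k * (T0 * (k + 1))) ≤ 2 * T0 * k ^ 3 := by
        have : (k : ℝ) * (k * (k + 1)) ≤ 2 * k ^ 3 := by nlinarith [sq_nonneg (k : ℝ)]
        nlinarith
      have h4 : (k : ℝ) ^ 3 ≤ T0 * k ^ 3 := by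
        have : (0 : ℝ) ≤ (k : ℝ) ^ 3 := by positivity
        nlinarith
      have h5 : 3 * (T0 : ℝ) * k ^ 3 ≤ 3 * T0 * κ ^ 3 := by gcongr
      linarith
    have hpow : ∀ m : ℕ, (m : ℝ) * δ ≤ 1 / 2 → κ ^ m ≤ X ^ (1 / 2 : ℝ) := by
      intro m hm
      rw [hκ, ← Real.rpow_natCast, ← Real.rpow_mul hX0']
      apply Real.rpow_le_rpow_of_exponent_le hX1
      linarith
    have hδ0 : 0 < δ := by positivity
    have hp34 : X ^ (1 / 2 : ℝ) ≤ X ^ (3 / 4 : ℝ) :=
      Real.rpow_le_rpow_of_exponent_le hX1 (by norm_num)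
    have h34 : 1 ≤ X ^ (3 / 4 : ℝ) := Real.one_le_rpow hX1 (by norm_num)
    have p1 : 2 * (C * ((k : ℝ) + (k * t : ℕ)) ^ C) ≤ 2 * C * (3 * T0) ^ C * X ^ (3 / 4 : ℝ) := by
      have h1 : ((k : ℝ) + (k * t : ℕ)) ^ C ≤ (3 * T0) ^ C * X ^ (1 / 2 : ℝ) := by
        calc ((k : ℝ) + (k * t : ℕ)) ^ C ≤ (3 * T0 * κ ^ 2) ^ C :=
              pow_le_pow_left₀ (by positivity) hb1 _
          _ = (3 * T0) ^ C * κ ^ (2 * C) := by rw [mul_pow, ← pow_mul]
          _ ≤ (3 * T0) ^ C * X ^ (1 / 2 : ℝ) := by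
              have := hpow (2 * C) (by
                rw [hδ]
                push_cast
                rw [mul_one_div, div_le_iff₀ (by linarith)]
                linarith)
              gcongr
      calc 2 * (C * ((k : ℝ) + (k * t : ℕ)) ^ C) ≤ 2 * (C * ((3 * T0) ^ C * X ^ (3 / 4 : ℝ))) := by
            gcongr
            exact h1.trans (by gcongr)
        _ = _ := by ring
    have p2 : 2 * k * Real.log (3 * s) ≤ 18 * T0 * X ^ (3 / 4 : ℝ) := by
      have h1 : Real.log (3 * s) ≤ 3 * s := by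
        have := Real.log_le_sub_one_of_pos (show (0 : ℝ) < 3 * s by linarith)
        linarith
      have h2 : 2 * (k : ℝ) * Real.log (3 * s) ≤ 2 * κ * (3 * (3 * T0 * κ ^ 3)) := by
        have h3 : 0 ≤ Real.log (3 * s) := Real.log_nonneg (by linarith)
        have h4 : Real.log (3 * s) ≤ 3 * (3 * T0 * κ ^ 3) := h1.trans (by linarith)
        have h5 : 2 * (k : ℝ) ≤ 2 * κ := by linarith
        exact mul_le_mul h5 h4 h3 (by linarith)
      have h3 : κ ^ 4 ≤ X ^ (1 / 2 : ℝ) := hpow 4 (by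
        rw [hδ]
        push_cast
        rw [mul_one_div, div_le_iff₀ (by linarith)]
        linarith)
      calc 2 * (k : ℝ) * Real.log (3 * s) ≤ 18 * T0 * κ ^ 4 := h2.trans (le_of_eq (by ring))
        _ ≤ 18 * T0 * X ^ (3 / 4 : ℝ) := by
          have := h3.trans hp34
          gcongr
    have p3 : 4 * (s : ℝ) ^ 2 * (2 * Real.sqrt X) ≤ 72 * T0 ^ 2 * X ^ (3 / 4 : ℝ) := by
      have h1 : (s : ℝ) ^ 2 ≤ (3 * T0 * κ ^ 3) ^ 2 := pow_le_pow_left₀ (by linarith) hb2 2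
      have h2 : κ ^ 6 ≤ X ^ (1 / 4 : ℝ) := by
        rw [hκ, ← Real.rpow_natCast, ← Real.rpow_mul hX0']
        apply Real.rpow_le_rpow_of_exponent_le hX1
        rw [hδ]
        push_cast
        rw [one_div_mul_eq_div, div_le_iff₀ (by linarith)]
        linarith
      have h3 : X ^ (1 / 4 : ℝ) * Real.sqrt X = X ^ (3 / 4 : ℝ) := by
        rw [Real.sqrt_eq_rpow, ← Real.rpow_add (by linarith)]
        norm_num
      calc 4 * (s : ℝ) ^ 2 * (2 * Real.sqrt X) ≤ 4 * (3 * T0 * κ ^ 3) ^ 2 * (2 * Real.sqrt X) := by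
            gcongr
        _ = 72 * T0 ^ 2 * (κ ^ 6 * Real.sqrt X) := by ring
        _ ≤ 72 * T0 ^ 2 * (X ^ (1 / 4 : ℝ) * Real.sqrt X) := by gcongr
        _ = _ := by rw [h3]
    have p4 : Real.log 4 + Real.log 2 ≤ 3 * X ^ (3 / 4 : ℝ) := by
      have h1 : Real.log 4 = 2 * Real.log 2 := by
        rw [show (4 : ℝ) = 2 ^ 2 by norm_num, Real.log_pow]
        norm_num
      have h2 := Real.log_two_lt_d9
      linarith
    have p5 : (2 * C * (3 * T0) ^ C + 18 * T0 + 3 + 72 * (T0 : ℝ) ^ 2) * X ^ (3 / 4 : ℝ) =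
        2 * C * (3 * T0) ^ C * X ^ (3 / 4 : ℝ) + 18 * T0 * X ^ (3 / 4 : ℝ) + 3 * X ^ (3 / 4 : ℝ) +
        72 * T0 ^ 2 * X ^ (3 / 4 : ℝ) := by ring
    rw [p5] at c4
    linarith
  have hTT : ∀ n ∈ Finset.Ioc N (N + L), ‖TT k M (tc P n)‖ ≤
      (M : ℝ) ^ 2 * Real.exp (-(2 * Real.sqrt X)) := fun n _ =>
    TT_bound C hC k t M V s (tc P n) ψ (2 * Real.sqrt X) hk ht1 hMn hV1 hs hψ0 hV2 hV3 (hdz n) hE
  have hfin := window P k M N L hdeg.le hMn
  refine hfin.trans ?_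
  have h1 := Finset.sum_le_sum hTT
  rw [Finset.sum_const, Nat.card_Ioc, nsmul_eq_mul, Nat.add_sub_cancel_left] at h1
  have h2 : 1 / (M : ℝ) ^ 2 * ∑ n ∈ Finset.Ioc N (N + L), ‖TT k M (tc P n)‖ ≤
      L * Real.exp (-(2 * Real.sqrt X)) := by
    calc _ ≤ 1 / (M : ℝ) ^ 2 * (L * ((M : ℝ) ^ 2 * Real.exp (-(2 * Real.sqrt X)))) := by gcongr
      _ = _ := by field_simp
  have h3 : 2 * (M : ℝ) ^ 2 ≤ L * (2 * Real.exp (-(X / 2))) := by
    have h4 : (M : ℝ) ^ 2 ≤ Real.exp (X / 2) := by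
      calc (M : ℝ) ^ 2 ≤ Real.exp (X / 4) ^ 2 := pow_le_pow_left₀ hM0.le hM1 2
        _ = Real.exp (X / 2) := by
          rw [← Real.exp_nat_mul]
          congr 1
          push_cast
          ring
    have h5 : (L : ℝ) * (2 * Real.exp (-(X / 2))) = 2 * Real.exp (X / 2) := by
      rw [hLX]
      have : Real.exp X * (2 * Real.exp (-(X / 2))) = 2 * (Real.exp X * Real.exp (-(X / 2))) := by
        ring
      rw [this, ← Real.exp_add]
      congr 2
      ring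
    linarith
  calc _ ≤ L * Real.exp (-(2 * Real.sqrt X)) + L * (2 * Real.exp (-(X / 2))) := by linarith
    _ ≤ L * (Real.exp (-Real.sqrt X) / 2) + L * (Real.exp (-Real.sqrt X) / 2) := by gcongr
    _ = _ := by ring

end Pool.Agent.J6H36.RB
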