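import Pool.Agent.J6H36.RB.TTB
import Pool.Agent.Y933.KD.Fej

set_option autoImplicit false

/-!
# Exponential sums over windows
-/

namespace Pool.Agent.J6H36.RB

open Finset Polynomial
open Pool.Agent.Y957.VK (TT dz)
open Pool.Agent.Y933.KD (e e_add norm_e e_zero)

theorem exp_eq_e (x : ℝ) : Complex.exp (2 * Real.pi * Complex.I * (x : ℂ)) = e x := by
  unfold Pool.Agent.Y933.KD.e
  congr 1
  push_cast
  ring

theorem shift_one (g : ℕ → ℂ) (hg : ∀ n, ‖g n‖ ≤ 1) (N L : ℕ) :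
    ‖∑ n ∈ Finset.Ioc N (N + L), g n - ∑ n ∈ Finset.Ioc N (N + L), g (n + 1)‖ ≤ 2 := by
  have h1 : ∑ n ∈ Finset.Ioc N (N + L), g n - ∑ n ∈ Finset.Ioc N (N + L), g (n + 1) =
      g (N + 1) - g (N + L + 1) := by
    induction L with
    | zero => simp
    | succ L ih =>
      rw [← add_assoc, Finset.sum_Ioc_succ_top (by omega), Finset.sum_Ioc_succ_top (by omega)]
      linear_combination ih
  rw [h1]
  refine (norm_sub_le _ _).trans ?_
  linarith [hg (N + 1), hg (N + L + 1)]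

theorem shift (g : ℕ → ℂ) (hg : ∀ n, ‖g n‖ ≤ 1) (N L h : ℕ) :
    ‖∑ n ∈ Finset.Ioc N (N + L), g n - ∑ n ∈ Finset.Ioc N (N + L), g (n + h)‖ ≤ 2 * h := by
  induction h with
  | zero => simp
  | succ h ih =>
    have h1 := shift_one (fun n => g (n + h)) (fun n => hg _) N L
    have h2 : ∀ n, g (n + (h + 1)) = g (n + 1 + h) := fun n => by congr 1; ring
    have h3 : ∑ n ∈ Finset.Ioc N (N + L), g n - ∑ n ∈ Finset.Ioc N (N + L), g (n + (h + 1)) =
        (∑ n ∈ Finset.Ioc N (N + L), g n - ∑ n ∈ Finset.Ioc N (N + L), g (n + h)) +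
        (∑ n ∈ Finset.Ioc N (N + L), g (n + h) - ∑ n ∈ Finset.Ioc N (N + L), g (n + 1 + h)) := by
      simp only [h2]
      ring
    rw [h3]
    refine (norm_add_le _ _).trans ?_
    push_cast
    linarith

/-- the Taylor coefficients -/
noncomputable def tc (P : ℝ[X]) (n : ℕ) (j : ℕ) : ℝ := (taylor (n : ℝ) P).coeff j

theorem eval_shift (P : ℝ[X]) (k n h : ℕ) (hk : P.natDegree ≤ k) :
    P.eval ((n : ℝ) + h) = P.eval (n : ℝ) + ∑ j ∈ Finset.Icc 1 k, tc P n j * (h : ℝ) ^ j := by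
  have h1 : (taylor (n : ℝ) P).eval (h : ℝ) = P.eval ((n : ℝ) + h) := by
    rw [taylor_eval]
    congr 1
    ring
  have h2 : (taylor (n : ℝ) P).natDegree < k + 1 := by
    rw [natDegree_taylor]
    omega
  rw [← h1, eval_eq_sum_range' h2, Finset.sum_range_succ', add_comm]
  congr 1
  · rw [pow_zero, mul_one, taylor_coeff_zero]
  · have h3 : Finset.Icc 1 k = Finset.Ico (0 + 1) (k + 1) := by
      ext j
      rw [Finset.mem_Icc, Finset.mem_Ico]
      omega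
    rw [Finset.range_eq_Ico, h3]
    exact Finset.sum_Ico_add' (fun j => tc P n j * (h : ℝ) ^ j) 0 k 1

theorem sum_TT (P : ℝ[X]) (k M n : ℕ) (hk : P.natDegree ≤ k) :
    ∑ x ∈ Finset.Icc 1 M, ∑ y ∈ Finset.Icc 1 M, e (P.eval ((n : ℝ) + ((x * y : ℕ) : ℝ))) =
      e (P.eval (n : ℝ)) * TT k M (tc P n) := by
  unfold Pool.Agent.Y957.VK.TT
  rw [Finset.mul_sum]
  refine Finset.sum_congr rfl fun x _ => ?_
  rw [Finset.mul_sum]
  refine Finset.sum_congr rfl fun y _ => ?_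
  rw [exp_eq_e, ← e_add, eval_shift P k n (x * y) hk]
  push_cast
  rfl

theorem window (P : ℝ[X]) (k M N L : ℕ) (hk : P.natDegree ≤ k) (hM : 1 ≤ M) :
    ‖∑ n ∈ Finset.Ioc N (N + L), e (P.eval (n : ℝ))‖ ≤
      1 / (M : ℝ) ^ 2 * ∑ n ∈ Finset.Ioc N (N + L), ‖TT k M (tc P n)‖ + 2 * (M : ℝ) ^ 2 := by
  have hMR : (0 : ℝ) < M := by exact_mod_cast hM
  set S : ℂ := ∑ n ∈ Finset.Ioc N (N + L), e (P.eval (n : ℝ)) with hS
  set R : ℂ := ∑ n ∈ Finset.Ioc N (N + L), ∑ x ∈ Finset.Icc 1 M, ∑ y ∈ Finset.Icc 1 M,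
    e (P.eval ((n : ℝ) + ((x * y : ℕ) : ℝ))) with hR
  have h1 : ‖(M : ℂ) ^ 2 * S - R‖ ≤ (M : ℝ) ^ 2 * (2 * (M : ℝ) ^ 2) := by
    have h2 : (M : ℂ) ^ 2 * S - R = ∑ x ∈ Finset.Icc 1 M, ∑ y ∈ Finset.Icc 1 M,
        (S - ∑ n ∈ Finset.Ioc N (N + L), e (P.eval ((n : ℝ) + ((x * y : ℕ) : ℝ)))) := by
      simp only [Finset.sum_sub_distrib, Finset.sum_const, Nat.card_Icc, nsmul_eq_mul]
      rw [hR, Finset.sum_comm]
      congr 1
      · have : M + 1 - 1 = M := by omega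
        rw [this]
        ring
      · refine Finset.sum_congr rfl fun x _ => ?_
        rw [Finset.sum_comm]
    rw [h2]
    refine (norm_sum_le _ _).trans ?_
    have h3 : ∀ x ∈ Finset.Icc 1 M, ‖∑ y ∈ Finset.Icc 1 M,
        (S - ∑ n ∈ Finset.Ioc N (N + L), e (P.eval ((n : ℝ) + ((x * y : ℕ) : ℝ))))‖ ≤
        M * (2 * (M : ℝ) ^ 2) := by
      intro x hx
      refine (norm_sum_le _ _).trans ?_
      have h4 : ∀ y ∈ Finset.Icc 1 M,
          ‖S - ∑ n ∈ Finset.Ioc N (N + L), e (P.eval ((n : ℝ) + ((x * y : ℕ) : ℝ)))‖ ≤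
          2 * (M : ℝ) ^ 2 := by
        intro y hy
        have h5 := shift (fun n => e (P.eval (n : ℝ))) (fun n => (norm_e _).le) N L (x * y)
        have h6 : ∑ n ∈ Finset.Ioc N (N + L), e (P.eval ((n : ℝ) + ((x * y : ℕ) : ℝ))) =
            ∑ n ∈ Finset.Ioc N (N + L), e (P.eval (((n + x * y : ℕ) : ℝ))) := by
          refine Finset.sum_congr rfl fun n _ => ?_
          rw [Nat.cast_add]
        rw [h6]
        refine h5.trans ?_
        have h7 : x * y ≤ M * M := Nat.mul_le_mul (Finset.mem_Icc.1 hx).2 (Finset.mem_Icc.1 hy).2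
        have h8 : ((x * y : ℕ) : ℝ) ≤ (M : ℝ) * M := by exact_mod_cast h7
        nlinarith
      refine (Finset.sum_le_sum h4).trans ?_
      rw [Finset.sum_const, Nat.card_Icc, nsmul_eq_mul]
      simp
    refine (Finset.sum_le_sum h3).trans ?_
    rw [Finset.sum_const, Nat.card_Icc, nsmul_eq_mul]
    have : ((M + 1 - 1 : ℕ) : ℝ) = M := by simp
    rw [this]
    ring_nf
    rfl
  have h2 : ‖R‖ ≤ ∑ n ∈ Finset.Ioc N (N + L), ‖TT k M (tc P n)‖ := by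
    rw [hR]
    refine (norm_sum_le _ _).trans (Finset.sum_le_sum fun n _ => ?_)
    rw [sum_TT P k M n hk, norm_mul, norm_e, one_mul]
  have h3 : (M : ℝ) ^ 2 * ‖S‖ ≤ ∑ n ∈ Finset.Ioc N (N + L), ‖TT k M (tc P n)‖ +
      (M : ℝ) ^ 2 * (2 * (M : ℝ) ^ 2) := by
    have h4 : ‖(M : ℂ) ^ 2 * S‖ = (M : ℝ) ^ 2 * ‖S‖ := by
      rw [norm_mul, norm_pow, Complex.norm_natCast]
    rw [← h4]
    have h5 : (M : ℂ) ^ 2 * S = R + ((M : ℂ) ^ 2 * S - R) := by ring
    rw [h5]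
    exact (norm_add_le _ _).trans (add_le_add h2 h1)
  have h4 : ‖S‖ = 1 / (M : ℝ) ^ 2 * ((M : ℝ) ^ 2 * ‖S‖) := by field_simp
  rw [h4]
  refine (mul_le_mul_of_nonneg_left h3 (by positivity)).trans (le_of_eq ?_)
  field_simp

theorem tc_top (P : ℝ[X]) (k n : ℕ) (hk : P.natDegree = k) : tc P n k = P.coeff k := by
  unfold tc
  have h1 := taylor_coeff (r := (n : ℝ)) (f := P) k
  have h2 : (taylor (n : ℝ) P).natDegree = k := by rw [natDegree_taylor, hk]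
  have h3 := leadingCoeff_taylor (n : ℝ) P
  rw [leadingCoeff, leadingCoeff, h2, hk] at h3
  exact h3

end Pool.Agent.J6H36.RB
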