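import Pool.Agent.J6H36.RB.Comb2

set_option autoImplicit false
set_option maxHeartbeats 4000000

/-!
# The joint distribution of the fractional parts of `f i (n) ^ k α j` over windows
-/

namespace Pool.Agent.J6H36.RB

open Finset Polynomial Filter
open Pool.Agent.Y933.KD (e e_add norm_e e_zero)

theorem ev_err (δ : ℝ) (hδ : 0 < δ) (hδ1 : δ ≤ 1 / 48) (c : ℝ) (hc : 0 ≤ c) :
    ∀ᶠ X : ℝ in atTop, 1 ≤ X ∧ X ^ δ ≤ X ^ (3 * δ) ∧ 7 * c * X ^ (4 * δ) ≤ Real.sqrt X / 2 ∧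
      X ^ (3 * δ) / 2 + 2 ≤ Real.sqrt X / 2 ∧ 36 * c * X ^ (3 * δ) ≤ Real.exp (X ^ (3 * δ) / 2) ∧
      3 * X ^ (3 * δ) + 3 ≤ X ^ (1 / 4 : ℝ) := by
  have t1 : Tendsto (fun X : ℝ => X ^ (3 * δ)) atTop atTop := tendsto_rpow_atTop (by linarith)
  have t2 : Tendsto (fun X : ℝ => X ^ (1 / 8 : ℝ)) atTop atTop := tendsto_rpow_atTop (by norm_num)
  filter_upwards [eventually_ge_atTop (1 : ℝ), t1.eventually_ge_atTop (288 * c + 10),
    t2.eventually_ge_atTop (14 * c + 6)] with X hX1 h1 h2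
  have hX0 : 0 ≤ X := by linarith
  have h12 : Real.sqrt X = X ^ (1 / 2 : ℝ) := Real.sqrt_eq_rpow X
  have e18 : X ^ (1 / 8 : ℝ) * X ^ (1 / 8 : ℝ) = X ^ (1 / 4 : ℝ) := by
    rw [← Real.rpow_add (by linarith)]
    norm_num
  have e14 : X ^ (1 / 4 : ℝ) * X ^ (1 / 4 : ℝ) = X ^ (1 / 2 : ℝ) := by
    rw [← Real.rpow_add (by linarith)]
    norm_num
  have h3 : X ^ (3 * δ) ≤ X ^ (1 / 8 : ℝ) := Real.rpow_le_rpow_of_exponent_le hX1 (by linarith)
  have h4 : X ^ (4 * δ) ≤ X ^ (1 / 8 : ℝ) := Real.rpow_le_rpow_of_exponent_le hX1 (by linarith)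
  have h5 : 1 ≤ X ^ (1 / 8 : ℝ) := Real.one_le_rpow hX1 (by norm_num)
  have h6 : 1 ≤ X ^ (1 / 4 : ℝ) := Real.one_le_rpow hX1 (by norm_num)
  have h7 : 0 ≤ X ^ (3 * δ) := Real.rpow_nonneg hX0 _
  have h8 : X ^ (1 / 8 : ℝ) ≤ X ^ (1 / 4 : ℝ) := Real.rpow_le_rpow_of_exponent_le hX1 (by norm_num)
  refine ⟨hX1, Real.rpow_le_rpow_of_exponent_le hX1 (by linarith), ?_, ?_, ?_, ?_⟩
  · rw [h12, ← e14, ← e18]
    have h9 : 7 * c * X ^ (4 * δ) ≤ 7 * c * X ^ (1 / 8 : ℝ) :=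
      mul_le_mul_of_nonneg_left h4 (by linarith)
    have h10 : 14 * c * X ^ (1 / 8 : ℝ) ≤ X ^ (1 / 8 : ℝ) * X ^ (1 / 8 : ℝ) := by
      apply mul_le_mul_of_nonneg_right _ (by linarith)
      linarith
    have h11 : X ^ (1 / 8 : ℝ) * X ^ (1 / 8 : ℝ) ≤
        X ^ (1 / 8 : ℝ) * X ^ (1 / 8 : ℝ) * (X ^ (1 / 8 : ℝ) * X ^ (1 / 8 : ℝ)) := by
      rw [e18]
      nlinarith
    linarith
  · rw [h12, ← e14, ← e18]
    have h9 : 6 ≤ X ^ (1 / 8 : ℝ) := by linarith
    have h10 : 6 * X ^ (1 / 8 : ℝ) ≤ X ^ (1 / 8 : ℝ) * X ^ (1 / 8 : ℝ) :=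
      mul_le_mul_of_nonneg_right h9 (by linarith)
    have h11 : X ^ (1 / 8 : ℝ) * X ^ (1 / 8 : ℝ) ≤
        X ^ (1 / 8 : ℝ) * X ^ (1 / 8 : ℝ) * (X ^ (1 / 8 : ℝ) * X ^ (1 / 8 : ℝ)) := by
      rw [e18]
      nlinarith
    linarith
  · set z := X ^ (3 * δ) with hz
    have h9 := Real.quadratic_le_exp_of_nonneg (show 0 ≤ z / 2 by linarith)
    have h10 : 36 * c * z ≤ z * z / 8 := by nlinarith
    nlinarith
  · rw [← e18]
    have h9 : 6 ≤ X ^ (1 / 8 : ℝ) := by linarith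
    nlinarith

/-- the numbers `f i (n) ^ (k + 1) α j` -/
noncomputable def yy {t r : ℕ} (f : Fin t → ℤ[X]) (α : Fin r → ℝ) (n : ℕ) (K : ℕ)
    (x : Fin t × Fin K × Fin r) : ℝ :=
  α x.2.2 * (((f x.1).eval (n : ℤ) : ℤ) : ℝ) ^ ((x.2.1 : ℕ) + 1)

open Classical in
theorem win_box : ∃ δ : ℝ, 0 < δ ∧ δ ≤ 1 / 48 ∧ ∀ (r t : ℕ) (α : Fin r → ℝ) (A c0 : ℝ), 1 ≤ A →
    0 < c0 → Typ α A c0 → ∀ f : Fin t → ℤ[X], Indep f → ∃ X0 : ℝ, ∀ L : ℕ, X0 ≤ Real.log L →
    ∀ N K : ℕ, (K : ℝ) ≤ (Real.log L) ^ δ → ∀ u v : Fin t × Fin K × Fin r → ℝ,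
    (∀ x, 0 ≤ u x) → (∀ x, u x ≤ v x) → (∀ x, v x ≤ 1) →
    |(((Finset.Ioc N (N + L)).filter (fun n => ∀ x, u x ≤ Int.fract (yy f α n K x) ∧
      Int.fract (yy f α n K x) < v x)).card : ℝ) / L - ∏ x, (v x - u x)| ≤
      Real.exp (-((Real.log L) ^ (3 * δ) / 2)) := by
  obtain ⟨δ, hδ0, hδ1, hcomb⟩ := comb_bound
  refine ⟨δ, hδ0, hδ1, ?_⟩
  intro r t α A c0 hA hc0 htyp f hf
  obtain ⟨X1, hX1⟩ := hcomb r t α A c0 hA hc0 htyp f hf
  obtain ⟨X2, hX2⟩ := eventually_atTop.1 (ev_err δ hδ0 hδ1 (t * r) (by positivity))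
  refine ⟨max X1 X2, ?_⟩
  intro L hL N K hK u v hu huv hv
  have hcb := hX1 L ((le_max_left _ _).trans hL)
  obtain ⟨a1, a2, a3, a4, a5, a6⟩ := hX2 _ ((le_max_right _ _).trans hL)
  set X : ℝ := Real.log L with hX
  set z : ℝ := X ^ (3 * δ) with hz
  have hX0 : 0 ≤ X := by linarith
  have hz0 : 0 ≤ z := Real.rpow_nonneg hX0 _
  have hL0 : (0 : ℝ) < L := by
    by_contra hcon
    have : (L : ℝ) = 0 := le_antisymm (not_lt.1 hcon) (Nat.cast_nonneg _)
    rw [hX, this, Real.log_zero] at a1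
    linarith
  have hLn : 0 < L := by exact_mod_cast hL0
  -- the smoothing parameter
  set S : ℕ := ⌈Real.exp z⌉₊ with hS
  have hS1 : Real.exp z ≤ S := Nat.le_ceil _
  have hS2 : (S : ℝ) ≤ 2 * Real.exp z := by
    have h1 := Nat.ceil_lt_add_one (Real.exp_pos z).le
    have h2 : 1 ≤ Real.exp z := Real.one_le_exp hz0
    rw [← hS] at h1
    linarith
  have hSpos : (0 : ℝ) < S := (Real.exp_pos z).trans_le hS1
  have hSn : 0 < S := by exact_mod_cast hSpos
  have hS3 : (1 : ℝ) ≤ S := by exact_mod_cast hSn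
  -- the index set
  set κ : ℕ := Fintype.card (Fin t × Fin K × Fin r) with hκ
  have hκK : (κ : ℝ) = t * (K * r) := by
    rw [hκ]
    simp
  let E : (Fin t × Fin K × Fin r) ≃ Fin κ := Fintype.equivFin _
  have hlog3 : Real.log ((S : ℝ) ^ 3) ≤ X ^ (1 / 4 : ℝ) := by
    have h1 : Real.log (S : ℝ) ≤ z + 1 := by
      calc Real.log (S : ℝ) ≤ Real.log (2 * Real.exp z) := Real.log_le_log hSpos hS2
        _ = Real.log 2 + z := by
          rw [Real.log_mul (by norm_num) (Real.exp_pos _).ne', Real.log_exp]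
        _ ≤ z + 1 := by linarith [Real.log_two_lt_d9]
    rw [Real.log_pow]
    push_cast
    linarith
  have hcard : (Finset.Ioc N (N + L)).card = L := by simp
  have hmain := box_count (κ := κ) hSn (Finset.Ioc N (N + L))
    (by rw [Finset.nonempty_Ioc]; omega) (fun n i => yy f α n K (E.symm i))
    (Real.exp (-Real.sqrt X)) (Real.exp_pos _).le (fun l hl hlS => by
      rw [hcard]
      have h1 : ∀ n, ∑ i, (l i : ℝ) * yy f α n K (E.symm i) =
          ∑ i, ∑ k : Fin K, ∑ j, (l (E (i, k, j)) : ℝ) *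
            (α j * (((f i).eval (n : ℤ) : ℤ) : ℝ) ^ ((k : ℕ) + 1)) := by
        intro n
        rw [← Equiv.sum_comp E, Fintype.sum_prod_type]
        refine Finset.sum_congr rfl fun i _ => ?_
        rw [Fintype.sum_prod_type]
        refine Finset.sum_congr rfl fun k _ => ?_
        refine Finset.sum_congr rfl fun j _ => ?_
        rw [Equiv.symm_apply_apply]
        rfl
      simp only [h1]
      refine hcb N K ((S : ℝ) ^ 3) hK (one_le_pow₀ hS3) hlog3 (fun i k j => l (E (i, k, j))) ?_ ?_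
      · intro h
        apply hl
        funext x
        obtain ⟨⟨i, k, j⟩, rfl⟩ := E.surjective x
        exact congrFun (congrFun (congrFun h i) k) j
      · intro i k j
        have := hlS (E (i, k, j))
        exact_mod_cast this)
    (fun i => u (E.symm i)) (fun i => v (E.symm i)) (fun i => hu _) (fun i => huv _) (fun i => hv _)
  rw [hcard] at hmain
  have hfil : (Finset.Ioc N (N + L)).filter (fun n => ∀ i, u (E.symm i) ≤
      Int.fract (yy f α n K (E.symm i)) ∧ Int.fract (yy f α n K (E.symm i)) < v (E.symm i)) =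
      (Finset.Ioc N (N + L)).filter (fun n => ∀ x, u x ≤ Int.fract (yy f α n K x) ∧
      Int.fract (yy f α n K x) < v x) := by
    refine Finset.filter_congr fun n _ => ?_
    constructor
    · intro h x
      have := h (E x)
      rwa [Equiv.symm_apply_apply] at this
    · intro h i
      exact h _
  have hprod : ∏ i, (v (E.symm i) - u (E.symm i)) = ∏ x, (v x - u x) :=
    Equiv.prod_comp E.symm (fun x => v x - u x)
  rw [hfil, hprod] at hmain
  refine hmain.trans ?_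
  -- the size of the error
  have hκX : (κ : ℝ) ≤ t * r * X ^ δ := by
    rw [hκK]
    have : (t : ℝ) * (K * r) = t * r * K := by ring
    rw [this]
    gcongr
  have hκz : (κ : ℝ) ≤ t * r * z := hκX.trans (by gcongr)
  have e1 : (2 * (S : ℝ) ^ 3 + 1) ^ κ * Real.exp (-Real.sqrt X) ≤ Real.exp (-(Real.sqrt X / 2)) := by
    have h1 : 2 * (S : ℝ) ^ 3 + 1 ≤ Real.exp (4 + 3 * z) := by
      have h2 : (S : ℝ) ^ 3 ≤ (2 * Real.exp z) ^ 3 := pow_le_pow_left₀ hSpos.le hS2 3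
      have h3 : (2 * Real.exp z) ^ 3 = 8 * Real.exp (3 * z) := by
        rw [mul_pow, ← Real.exp_nat_mul]
        norm_num
      have h4 : 1 ≤ (S : ℝ) ^ 3 := one_le_pow₀ hS3
      have h5 : (24 : ℝ) ≤ Real.exp 4 := by
        have h6 : Real.exp 4 = Real.exp 1 ^ 4 := by
          rw [← Real.exp_nat_mul]; norm_num
        have h7 := Real.exp_one_gt_d9
        rw [h6]
        calc (24 : ℝ) ≤ 2.7 ^ 4 := by norm_num
          _ ≤ Real.exp 1 ^ 4 := pow_le_pow_left₀ (by norm_num) (by linarith) 4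
      rw [Real.exp_add]
      have h8 := Real.exp_pos (3 * z)
      nlinarith
    have h2 : (2 * (S : ℝ) ^ 3 + 1) ^ κ ≤ Real.exp (κ * (4 + 3 * z)) := by
      rw [Real.exp_nat_mul]
      exact pow_le_pow_left₀ (by positivity) h1 κ
    have h3 : (κ : ℝ) * (4 + 3 * z) ≤ Real.sqrt X / 2 := by
      have h4 : 1 ≤ z := Real.one_le_rpow a1 (by linarith)
      have h5 : (κ : ℝ) * (4 + 3 * z) ≤ (t * r * X ^ δ) * (7 * z) := by
        apply mul_le_mul hκX (by linarith) (by linarith)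
        have := Real.rpow_nonneg hX0 δ
        positivity
      have h6 : X ^ δ * z = X ^ (4 * δ) := by
        rw [hz, ← Real.rpow_add (by linarith)]
        congr 1
        ring
      calc (κ : ℝ) * (4 + 3 * z) ≤ (t * r * X ^ δ) * (7 * z) := h5
        _ = 7 * (t * r) * (X ^ δ * z) := by ring
        _ ≤ Real.sqrt X / 2 := by rw [h6]; exact a3
    calc (2 * (S : ℝ) ^ 3 + 1) ^ κ * Real.exp (-Real.sqrt X)
        ≤ Real.exp (κ * (4 + 3 * z)) * Real.exp (-Real.sqrt X) := by gcongr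
      _ = Real.exp (κ * (4 + 3 * z) - Real.sqrt X) := by rw [← Real.exp_add]; rfl
      _ ≤ Real.exp (-(Real.sqrt X / 2)) := by
        apply Real.exp_le_exp.2
        linarith
  have e2 : Real.exp (-(Real.sqrt X / 2)) ≤ Real.exp (-(z / 2)) / 3 := by
    have h1 : Real.exp (-(Real.sqrt X / 2)) ≤ Real.exp (-(z / 2) - 2) := by
      apply Real.exp_le_exp.2
      linarith
    have h2 : Real.exp (-(z / 2) - 2) = Real.exp (-(z / 2)) / Real.exp 2 := Real.exp_sub _ _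
    have h3 : (3 : ℝ) ≤ Real.exp 2 := by
      have := Real.add_one_le_exp (2 : ℝ)
      linarith
    rw [h2] at h1
    refine h1.trans ?_
    exact div_le_div_of_nonneg_left (Real.exp_pos _).le (by norm_num) h3
  have e3 : (κ : ℝ) * (12 / S) ≤ Real.exp (-(z / 2)) / 3 := by
    have h1 : (12 : ℝ) / S ≤ 12 * Real.exp (-z) := by
      rw [Real.exp_neg, div_eq_mul_inv]
      gcongr
    have h2 : Real.exp (-z) = Real.exp (-(z / 2)) * (Real.exp (z / 2))⁻¹ := by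
      rw [← Real.exp_neg, ← Real.exp_add]
      congr 1
      ring
    calc (κ : ℝ) * (12 / S) ≤ (t * r * z) * (12 * Real.exp (-z)) := by gcongr
      _ = 36 * (t * r) * z * (Real.exp (z / 2))⁻¹ * Real.exp (-(z / 2)) / 3 := by rw [h2]; ring
      _ ≤ 1 * Real.exp (-(z / 2)) / 3 := by
        gcongr
        rw [← div_eq_mul_inv, div_le_one (Real.exp_pos _)]
        exact a5
      _ = _ := by ring
  have e4 : (κ : ℝ) * (5 * Real.exp (-Real.sqrt X)) ≤ Real.exp (-(z / 2)) / 3 := by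
    have h1 : Real.exp (-Real.sqrt X) ≤ Real.exp (-z) := by
      apply Real.exp_le_exp.2
      linarith
    have h2 : Real.exp (-z) = Real.exp (-(z / 2)) * (Real.exp (z / 2))⁻¹ := by
      rw [← Real.exp_neg, ← Real.exp_add]
      congr 1
      ring
    calc (κ : ℝ) * (5 * Real.exp (-Real.sqrt X)) ≤ (t * r * z) * (12 * Real.exp (-z)) := by
          gcongr
          norm_num
      _ = 36 * (t * r) * z * (Real.exp (z / 2))⁻¹ * Real.exp (-(z / 2)) / 3 := by rw [h2]; ring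
      _ ≤ 1 * Real.exp (-(z / 2)) / 3 := by
        gcongr
        rw [← div_eq_mul_inv, div_le_one (Real.exp_pos _)]
        exact a5
      _ = _ := by ring
  rw [mul_add]
  linarith

end Pool.Agent.J6H36.RB
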